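import Pool.Agent.H979.BK.Stm

set_option autoImplicit false

open Filter Topology Finset Pool.Agent.H979.BK

namespace Pool.Agent.H161

namespace BKW

variable {F : Type} [NormedAddCommGroup F] [NormedSpace ℂ F] {ι : Type} [Fintype ι]

/-- products along a word -/
noncomputable def Wd (A : ι → F →L[ℂ] F) : List ι → F →L[ℂ] F
  | [] => 1
  | s :: ω => (A s).comp (Wd A ω)

theorem KK_nonneg (P : ι → F →L[ℂ] F) (μ : ι → ℝ) (hμ : ∀ s, 0 ≤ μ s) (δ : ℝ)
    (f : (F →L[ℂ] ℂ) → ℝ) (hf : ∀ w, 0 ≤ f w) (m : ℕ) : ∀ w, 0 ≤ (KK P μ δ)^[m] f w := by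
  induction m with
  | zero => exact hf
  | succ m ih =>
    intro w
    rw [Function.iterate_succ_apply']
    exact Finset.sum_nonneg fun s _ => mul_nonneg (hμ s) (ih _)

theorem word_le (P : ι → F →L[ℂ] F) (μ : ι → ℝ) (δ p : ℝ) (hp : 0 ≤ p) (hμ : ∀ s, p ≤ μ s)
    (f : (F →L[ℂ] ℂ) → ℝ) (hf : ∀ w, 0 ≤ f w) (m : ℕ) (ω : List ι) : ∀ w,
    p ^ ω.length * (KK P μ δ)^[m] f (w.comp (Wd (AA P δ) ω)) ≤ (KK P μ δ)^[ω.length + m] f w := by
  have hμ0 : ∀ s, 0 ≤ μ s := fun s => hp.trans (hμ s)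
  induction ω with
  | nil =>
    intro w
    have : w.comp (Wd (AA P δ) ([] : List ι)) = w := by
      ext x
      rfl
    rw [this]
    simp
  | cons s ω ih =>
    intro w
    have e1 : (s :: ω).length + m = (ω.length + m) + 1 := by
      rw [List.length_cons]
      omega
    rw [e1, Function.iterate_succ_apply']
    have h1 : μ s * (KK P μ δ)^[ω.length + m] f (w.comp (AA P δ s)) ≤
        KK P μ δ ((KK P μ δ)^[ω.length + m] f) w := by
      unfold KK
      exact Finset.single_le_sum (f := fun s => μ s * (KK P μ δ)^[ω.length + m] f (w.comp (AA P δ s)))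
        (fun t _ => mul_nonneg (hμ0 t) (KK_nonneg P μ hμ0 δ f hf _ _)) (Finset.mem_univ s)
    refine le_trans ?_ h1
    have h2 := ih (w.comp (AA P δ s))
    have e2 : w.comp (Wd (AA P δ) (s :: ω)) = (w.comp (AA P δ s)).comp (Wd (AA P δ) ω) := by
      ext x
      rfl
    rw [e2, List.length_cons, pow_succ, mul_comm (p ^ ω.length) p, mul_assoc]
    exact mul_le_mul (hμ s) h2 (mul_nonneg (pow_nonneg hp _) (KK_nonneg P μ hμ0 δ f hf _ _)) (hμ0 s)

theorem mean_le (P : ι → F →L[ℂ] F) (μ : ι → ℝ) (v : F) (z : ℂ) (hs : Sys P μ v z) (δ : ℝ) (m : ℕ) :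
    ∀ w : F →L[ℂ] ℂ, ‖1 - (δ : ℂ) * (1 - z)‖ ^ m * ‖w v‖ ≤ (KK P μ δ)^[m] (fun w' => ‖w' v‖) w := by
  induction m with
  | zero =>
    intro w
    simp
  | succ m ih =>
    intro w
    rw [Function.iterate_succ_apply']
    have h1 : ∑ s, μ s * (‖1 - (δ : ℂ) * (1 - z)‖ ^ m * ‖(w.comp (AA P δ s)) v‖) ≤
        KK P μ δ ((KK P μ δ)^[m] (fun w' => ‖w' v‖)) w := by
      unfold KK
      exact Finset.sum_le_sum fun s _ => mul_le_mul_of_nonneg_left (ih _) (hs.pos s).le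
    refine le_trans ?_ h1
    have h2 : ∑ s, ((μ s : ℝ) : ℂ) • (w.comp (AA P δ s)) v = (1 - (δ : ℂ) * (1 - z)) * w v := by
      have e1 : ∀ s, ((μ s : ℝ) : ℂ) • (w.comp (AA P δ s)) v =
          ((μ s : ℝ) : ℂ) * (((1 - δ : ℝ) : ℂ) * w v) + ((δ : ℝ) : ℂ) * w (((μ s : ℝ) : ℂ) • P s v) := by
        intro s
        simp only [AA, ContinuousLinearMap.comp_apply, add_apply,
          smul_apply, one_apply_eq_self, map_add, map_smul, smul_eq_mul]
        ring
      rw [Finset.sum_congr rfl (fun s _ => e1 s), Finset.sum_add_distrib, ← Finset.sum_mul,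
        ← Finset.mul_sum, ← map_sum]
      have e2 : ∑ s, ((μ s : ℝ) : ℂ) = 1 := by
        rw [← Complex.ofReal_sum, hs.sum, Complex.ofReal_one]
      have e3 : ∑ s, ((μ s : ℝ) : ℂ) • P s v = z • v := by
        rw [← hs.eig]
        simp [UU]
      rw [e2, e3, map_smul, smul_eq_mul]
      push_cast
      ring
    have h3 : ‖1 - (δ : ℂ) * (1 - z)‖ * ‖w v‖ ≤ ∑ s, μ s * ‖(w.comp (AA P δ s)) v‖ := by
      rw [← norm_mul, ← h2]
      refine (norm_sum_le _ _).trans (le_of_eq ?_)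
      refine Finset.sum_congr rfl fun s _ => ?_
      rw [norm_smul, Complex.norm_real, Real.norm_of_nonneg (hs.pos s).le]
    calc ‖1 - (δ : ℂ) * (1 - z)‖ ^ (m + 1) * ‖w v‖ =
        ‖1 - (δ : ℂ) * (1 - z)‖ ^ m * (‖1 - (δ : ℂ) * (1 - z)‖ * ‖w v‖) := by ring
      _ ≤ ‖1 - (δ : ℂ) * (1 - z)‖ ^ m * ∑ s, μ s * ‖(w.comp (AA P δ s)) v‖ :=
          mul_le_mul_of_nonneg_left h3 (by positivity)
      _ = _ := by
          rw [Finset.mul_sum]
          refine Finset.sum_congr rfl fun s _ => ?_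
          ring

/-- from the words in the `A s` to the words in the `P s` -/
theorem words (P : ι → F →L[ℂ] F) (v : F) (δ : ℝ) (hδ : 0 < δ) (hδ1 : δ ≤ 1) (B : ℝ) (ω : List ι) :
    ∀ w : F →L[ℂ] ℂ, (∀ ω' : List ι, ω'.length ≤ ω.length → ‖w (Wd (AA P δ) ω' v)‖ ≤ B) →
      ‖w (Wd P ω v)‖ ≤ (2 / δ) ^ ω.length * B := by
  induction ω with
  | nil =>
    intro w h
    have := h [] le_rfl
    simpa [Wd] using this
  | cons s ω ih =>
    intro w h
    have h1 := ih w fun ω' h' => h ω' (by rw [List.length_cons]; omega)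
    have h2 := ih (w.comp (AA P δ s)) fun ω' h' => by
      have := h (s :: ω') (by rw [List.length_cons, List.length_cons]; omega)
      exact this
    have hδc : (δ : ℂ) ≠ 0 := by exact_mod_cast hδ.ne'
    have e : w (Wd P (s :: ω) v) = (1 / (δ : ℂ)) *
        ((w.comp (AA P δ s)) (Wd P ω v) - ((1 - δ : ℝ) : ℂ) * w (Wd P ω v)) := by
      simp only [Wd, AA, ContinuousLinearMap.comp_apply, add_apply,
        smul_apply, one_apply_eq_self, map_add, map_smul, smul_eq_mul]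
      field_simp
      ring
    have h3 : ‖(w.comp (AA P δ s)) (Wd P ω v) - ((1 - δ : ℝ) : ℂ) * w (Wd P ω v)‖ ≤
        2 * ((2 / δ) ^ ω.length * B) := by
      refine (norm_sub_le _ _).trans ?_
      rw [norm_mul, Complex.norm_real, Real.norm_of_nonneg (by linarith : (0 : ℝ) ≤ 1 - δ)]
      have h4 : (1 - δ) * ‖w (Wd P ω v)‖ ≤ 1 * ‖w (Wd P ω v)‖ :=
        mul_le_mul_of_nonneg_right (by linarith) (norm_nonneg _)
      linarith
    rw [e, norm_mul, norm_div, norm_one, Complex.norm_real, Real.norm_of_nonneg hδ.le,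
      List.length_cons, pow_succ]
    calc 1 / δ * ‖(w.comp (AA P δ s)) (Wd P ω v) - ((1 - δ : ℝ) : ℂ) * w (Wd P ω v)‖ ≤
        1 / δ * (2 * ((2 / δ) ^ ω.length * B)) := mul_le_mul_of_nonneg_left h3 (by positivity)
      _ = (2 / δ) ^ ω.length * (2 / δ) * B := by ring

end BKW

open BKW in
theorem bk_word : S_WORD := by
  intro F _ _ _ ι _ P μ v z hs
  have hne : Nonempty ι := by
    by_contra h
    rw [not_nonempty_iff] at h
    have := hs.sum
    simp at this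
  obtain ⟨s₀, hs₀⟩ := Finite.exists_min μ
  obtain ⟨p, hpdef⟩ : ∃ p, p = μ s₀ := ⟨_, rfl⟩
  rw [← hpdef] at hs₀
  have hp : 0 < p := by
    rw [hpdef]
    exact hs.pos s₀
  have hp1 : p ≤ 1 := by
    rw [← hs.sum, hpdef]
    exact Finset.single_le_sum (fun t _ => (hs.pos t).le) (Finset.mem_univ s₀)
  have hz : ‖z‖ ≤ 1 := by
    have h1 : ‖UU P μ v‖ ≤ ‖v‖ := by
      have e : UU P μ v = ∑ s, ((μ s : ℝ) : ℂ) • P s v := by simp [UU]
      rw [e]
      refine (norm_sum_le _ _).trans ?_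
      calc ∑ s, ‖((μ s : ℝ) : ℂ) • P s v‖ ≤ ∑ s, μ s * ‖v‖ := by
            refine Finset.sum_le_sum fun s _ => ?_
            rw [norm_smul, Complex.norm_real, Real.norm_of_nonneg (hs.pos s).le]
            refine mul_le_mul_of_nonneg_left ?_ (hs.pos s).le
            calc ‖P s v‖ ≤ ‖P s‖ * ‖v‖ := (P s).le_opNorm v
              _ ≤ 1 * ‖v‖ := mul_le_mul_of_nonneg_right (hs.norm s) (norm_nonneg _)
              _ = ‖v‖ := one_mul _
        _ = ‖v‖ := by rw [← Finset.sum_mul, hs.sum, one_mul]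
    rw [hs.eig, norm_smul] at h1
    have hv : 0 < ‖v‖ := norm_pos_iff.2 hs.ne
    by_contra hcon
    push Not at hcon
    nlinarith
  have hspan : ⊤ ≤ Submodule.span ℂ (Set.range fun ω : List ι => Wd P ω v) := by
    rw [hs.cyc (Submodule.span ℂ (Set.range fun ω : List ι => Wd P ω v)) ?_ ?_]
    · exact Submodule.subset_span ⟨[], rfl⟩
    · intro s x hx
      have h1 : Submodule.span ℂ (Set.range fun ω : List ι => Wd P ω v) ≤
          (Submodule.span ℂ (Set.range fun ω : List ι => Wd P ω v)).comap (P s : F →ₗ[ℂ] F) := by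
        rw [Submodule.span_le]
        rintro _ ⟨ω, rfl⟩
        exact Submodule.subset_span ⟨s :: ω, rfl⟩
      exact h1 hx
  obtain ⟨b, hbdef⟩ : ∃ b, b = Module.Basis.ofSpan hspan := ⟨_, rfl⟩
  have hfin := Module.Finite.finite_basis b
  obtain ⟨C, hC, hCb⟩ := b.exists_opNorm_le (F := ℂ)
  have hb : ∀ i, ∃ ω : List ι, Wd P ω v = b i := fun i => by
    rw [hbdef]
    exact Module.Basis.ofSpan_subset hspan ⟨i, rfl⟩
  choose ω hω using hb
  obtain ⟨D, hD⟩ := Finite.exists_le (fun i => (ω i).length)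
  refine ⟨D, p ^ D / (C * 2 ^ D), by positivity, fun δ hδ hδ4 m hm w => ?_⟩
  obtain ⟨X, hXdef⟩ : ∃ X, X = (KK P μ δ)^[m] (fun w' => ‖w' v‖) w := ⟨_, rfl⟩
  rw [← hXdef]
  have hX0 : 0 ≤ X := by
    rw [hXdef]
    exact KK_nonneg P μ (fun s => (hs.pos s).le) δ _ (fun _ => norm_nonneg _) m w
  obtain ⟨a, hadef⟩ : ∃ a, a = ‖1 - (δ : ℂ) * (1 - z)‖ := ⟨_, rfl⟩
  have ha0 : 0 ≤ a := by
    rw [hadef]
    exact norm_nonneg _
  have ha1 : a ≤ 1 := by
    have e : 1 - (δ : ℂ) * (1 - z) = ((1 - δ : ℝ) : ℂ) + ((δ : ℝ) : ℂ) * z := by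
      push_cast
      ring
    rw [hadef, e]
    refine (norm_add_le _ _).trans ?_
    rw [norm_mul, Complex.norm_real, Complex.norm_real, Real.norm_of_nonneg hδ.le,
      Real.norm_of_nonneg (by linarith : (0 : ℝ) ≤ 1 - δ)]
    nlinarith
  rw [← hadef]
  have hword : ∀ ω' : List ι, ω'.length ≤ D → p ^ D * a ^ m * ‖w (Wd (AA P δ) ω' v)‖ ≤ X := by
    intro ω' h'
    have h1 := word_le P μ δ p hp.le hs₀ (fun w' => ‖w' v‖) (fun _ => norm_nonneg _)
      (m - ω'.length) ω' w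
    rw [show ω'.length + (m - ω'.length) = m by omega, ← hXdef] at h1
    have h2 := mean_le P μ v z hs δ (m - ω'.length) (w.comp (Wd (AA P δ) ω'))
    rw [← hadef] at h2
    have h3 : p ^ D ≤ p ^ ω'.length := pow_le_pow_of_le_one hp.le hp1 h'
    have h4 : a ^ m ≤ a ^ (m - ω'.length) := pow_le_pow_of_le_one ha0 ha1 (Nat.sub_le _ _)
    calc p ^ D * a ^ m * ‖w (Wd (AA P δ) ω' v)‖ =
        p ^ D * (a ^ m * ‖(w.comp (Wd (AA P δ) ω')) v‖) := by
          rw [mul_assoc]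
          rfl
      _ ≤ p ^ ω'.length * (a ^ (m - ω'.length) * ‖(w.comp (Wd (AA P δ) ω')) v‖) :=
          mul_le_mul h3 (mul_le_mul_of_nonneg_right h4 (norm_nonneg _)) (by positivity) (by positivity)
      _ ≤ p ^ ω'.length * (KK P μ δ)^[m - ω'.length] (fun w' => ‖w' v‖) (w.comp (Wd (AA P δ) ω')) :=
          mul_le_mul_of_nonneg_left h2 (by positivity)
      _ ≤ X := h1
  obtain ⟨K, hKdef⟩ : ∃ K, K = p ^ D * a ^ m := ⟨_, rfl⟩
  have hK : 0 ≤ K := by
    rw [hKdef]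
    positivity
  have h2δ : 1 ≤ 2 / δ := by
    rw [le_div_iff₀ hδ]
    linarith
  have hbd : ∀ i, ‖((K : ℂ) • w) (b i)‖ ≤ (2 / δ) ^ D * X := by
    intro i
    have h1 := words P v δ hδ (by linarith) X (ω i) ((K : ℂ) • w) (fun ω' h' => by
      have h2 : ‖((K : ℂ) • w) (Wd (AA P δ) ω' v)‖ = K * ‖w (Wd (AA P δ) ω' v)‖ := by
        rw [show ((K : ℂ) • w) (Wd (AA P δ) ω' v) = (K : ℂ) * w (Wd (AA P δ) ω' v) from rfl, norm_mul,
          Complex.norm_real, Real.norm_of_nonneg hK]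
      rw [h2, hKdef]
      exact hword ω' (h'.trans (hD i)))
    rw [hω i] at h1
    exact h1.trans (mul_le_mul_of_nonneg_right (pow_le_pow_right₀ h2δ (hD i)) hX0)
  have h5 := hCb (by positivity : 0 ≤ (2 / δ) ^ D * X) hbd
  rw [norm_smul, Complex.norm_real, Real.norm_of_nonneg hK] at h5
  calc p ^ D / (C * 2 ^ D) * δ ^ D * a ^ m * ‖w‖ = (K * ‖w‖) * (δ ^ D / (C * 2 ^ D)) := by
        rw [hKdef]
        ring
    _ ≤ (C * ((2 / δ) ^ D * X)) * (δ ^ D / (C * 2 ^ D)) :=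
        mul_le_mul_of_nonneg_right h5 (by positivity)
    _ = X := by
        rw [div_pow]
        field_simp

end Pool.Agent.H161
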