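import Pool.Agent.H979.DE.Stm

/-!
# Directed edge reinforced random walk: tails of an infinite product (S_H)
-/

set_option autoImplicit false

open MeasureTheory Finset Filter

namespace Pool.Agent.H161

/-- tails of an infinite product -/
theorem de_h_aux (p : ℕ → ℝ) (hp : Summable p) (hp1 : ∀ k, 1 ≤ k → 0 ≤ p k ∧ p k < 1) :
    ∃ H : ℕ → ℝ, Monotone H ∧ (∀ m, 0 < H m ∧ H m ≤ 1) ∧
      ∀ m, 1 ≤ m → H m ≤ (1 - p m) * H (m + 1) := by
  set a : ℕ → ℝ := fun k => if k = 0 then 0 else - Real.log (1 - p k) with ha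
  have ha0 : ∀ k, 0 ≤ a k := by
    intro k
    by_cases hk : k = 0
    · simp [ha, hk]
    · have h1 := hp1 k (by omega)
      simp only [ha, if_neg hk]
      have := Real.log_nonpos (show 0 ≤ 1 - p k by linarith) (by linarith)
      linarith
  have hlog : ∀ x : ℝ, 0 ≤ x → x ≤ 1 / 2 → - Real.log (1 - x) ≤ 2 * x := by
    intro x hx hx2
    have h1 : 0 < 1 - x := by linarith
    have h2 := Real.one_sub_inv_le_log_of_pos h1
    have h3 : (1 - x)⁻¹ ≤ 1 + 2 * x := by
      rw [inv_le_iff_one_le_mul₀ h1]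
      nlinarith
    linarith
  have hs : Summable a := by
    have h0 : Tendsto p atTop (nhds 0) := hp.tendsto_atTop_zero
    have h1 : ∀ᶠ k in atTop, p k < 1 / 2 := h0.eventually (gt_mem_nhds (by norm_num))
    obtain ⟨N, hN⟩ := (h1.and (eventually_ge_atTop 1)).exists_forall_of_atTop
    rw [← summable_nat_add_iff N]
    refine Summable.of_nonneg_of_le (fun k => ha0 _) (fun k => ?_)
      (((summable_nat_add_iff N).2 hp).mul_left 2)
    obtain ⟨h2, h3⟩ := hN (k + N) (by omega)
    have h4 := hp1 (k + N) h3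
    have h5 : k + N ≠ 0 := by omega
    simp only [ha, if_neg h5]
    exact hlog _ h4.1 h2.le
  have hsm : ∀ m, Summable fun j => a (j + m) := fun m => (summable_nat_add_iff m).2 hs
  have hrec : ∀ m, ∑' j, a (j + m) = a m + ∑' j, a (j + (m + 1)) := by
    intro m
    rw [(hsm m).tsum_eq_zero_add]
    congr 1
    · rw [zero_add]
    · refine tsum_congr fun j => ?_
      rw [show j + 1 + m = j + (m + 1) by ring]
  refine ⟨fun m => Real.exp (-∑' j, a (j + m)), ?_, fun m => ⟨Real.exp_pos _, ?_⟩, ?_⟩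
  · refine monotone_nat_of_le_succ fun m => ?_
    rw [Real.exp_le_exp, hrec m]
    have := ha0 m
    linarith
  · rw [Real.exp_le_one_iff]
    have : 0 ≤ ∑' j, a (j + m) := tsum_nonneg fun j => ha0 _
    linarith
  · intro m hm
    have h1 := hp1 m hm
    have h2 : m ≠ 0 := by omega
    have h3 : a m = - Real.log (1 - p m) := by simp only [ha, if_neg h2]
    refine le_of_eq ?_
    show Real.exp (-∑' j, a (j + m)) = (1 - p m) * Real.exp (-∑' j, a (j + (m + 1)))
    rw [hrec m, h3, neg_add, neg_neg, Real.exp_add, Real.exp_log (by linarith)]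

/-- **S_H** -/
theorem de_h : Pool.Agent.H979.DE.S_H := fun p hp hp1 => de_h_aux p hp hp1

end Pool.Agent.H161
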