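import Mathlib
import Pool.Agent.H979.GW.StmA

set_option autoImplicit false
set_option linter.unusedSectionVars false
set_option linter.unusedVariables false
set_option warn.classDefReducibility false

open MeasureTheory ProbabilityTheory Filter Topology Set
open scoped ENNReal NNReal

/-!
# The martingale limit is positive on the survival of the tree (task POS)
-/

namespace Pool.Agent.H161

open Pool.Agent.H979.GW

section

variable {Q : Type} [Fintype Q] [DecidableEq Q]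

/-- the sigma-algebra of one coordinate -/
def gwI (i : Vx Q) : MeasurableSpace (Env Q) :=
  MeasurableSpace.comap (fun ω : Env Q => ω i) inferInstance

/-- the sigma-algebra of the generations below `k` -/
def gwF (k : ℕ) : MeasurableSpace (Env Q) := ⨆ i ∈ {u : Vx Q | u.length < k}, gwI i

/-- the sigma-algebra of the generations from `k` on -/
def gwG (k : ℕ) : MeasurableSpace (Env Q) := ⨆ i ∈ {u : Vx Q | k ≤ u.length}, gwI i

theorem gwI_le (i : Vx Q) : gwI i ≤ (inferInstance : MeasurableSpace (Env Q)) :=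
  (measurable_pi_apply i).comap_le

theorem gwF_le (k : ℕ) : gwF (Q := Q) k ≤ (inferInstance : MeasurableSpace (Env Q)) :=
  iSup₂_le fun i _ => gwI_le i

theorem gwI_le_F {i : Vx Q} {k : ℕ} (h : i.length < k) : gwI i ≤ gwF k :=
  le_iSup₂_of_le i h le_rfl

theorem gwI_le_G {i : Vx Q} {k : ℕ} (h : k ≤ i.length) : gwI i ≤ gwG k :=
  le_iSup₂_of_le i h le_rfl

theorem gwF_mono {k l : ℕ} (h : k ≤ l) : gwF (Q := Q) k ≤ gwF l :=
  iSup₂_le fun i hi => gwI_le_F (lt_of_lt_of_le hi h)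

theorem gw_indep (q : Q → Measure (Q → ℕ)) [∀ a, IsProbabilityMeasure (q a)] (a : Q) (k : ℕ) :
    Indep (gwF (Q := Q) k) (gwG k) (law q a) := by
  have h : iIndep (fun i : Vx Q => gwI i) (law q a) :=
    iIndepFun_infinitePi (P := fun v : Vx Q => q (ty a v)) (X := fun _ x => x)
      (fun _ => measurable_id)
  refine indep_iSup_of_disjoint gwI_le h ?_
  rw [Set.disjoint_left]
  intro u h1 h2
  simp only [Set.mem_ofPred_eq] at h1 h2
  omega

/-- the shift by `v` only depends on the generations from `|v|` on -/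
theorem gw_sh_meas (v : Vx Q) : @Measurable _ _ (gwG v.length) _ (sh (Q := Q) v) := by
  refine @measurable_pi_iff _ _ _ (gwG v.length) _ _ |>.2 fun u => ?_
  have h : gwI (u ++ v) ≤ gwG v.length := gwI_le_G (by simp)
  exact Measurable.mono (comap_measurable (fun ω : Env Q => ω (u ++ v))) h le_rfl

theorem gw_inT_meas (v : Vx Q) : MeasurableSet[gwF v.length] {ω : Env Q | InT (cht ω) v} := by
  induction v with
  | nil =>
    have : {ω : Env Q | InT (cht ω) []} = univ := by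
      ext ω; simp [InT]
    rw [this]
    exact MeasurableSet.univ
  | cons c u ih =>
    have h1 : {ω : Env Q | InT (cht ω) (c :: u)} = {ω : Env Q | InT (cht ω) u} ∩
        {ω : Env Q | c.2 < ω u c.1} := by
      ext ω
      simp only [InT, cht, mem_chd, mem_ofPred_eq, mem_inter_iff]
    rw [h1]
    refine @MeasurableSet.inter _ (gwF (c :: u).length) _ _ (gwF_mono (by simp) _ ih) ?_
    refine gwI_le_F (i := u) (k := (c :: u).length) (by simp) _ ?_
    refine ⟨{x : Q → ℕ | c.2 < x c.1}, ?_, rfl⟩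
    exact measurableSet_lt measurable_const (measurable_pi_apply c.1)

theorem gw_sh_sh (u v : Vx Q) (ω : Env Q) : sh u (sh v ω) = sh (u ++ v) ω := by
  funext w
  simp [sh, List.append_assoc]

/-- the recursion at all the vertices -/
theorem gw_rec (q : Q → Measure (Q → ℕ)) [∀ a, IsProbabilityMeasure (q a)] {ρ : ℝ} {e m : Q → ℝ}
    (h1 : S_SH q) (h2 : S_W q ρ e m) (a : Q) : ∀ᵐ ω ∂(law q a), ∀ v : Vx Q,
      ρ * Wv ρ e a ω v = ∑ c ∈ chd (ω v), Wv ρ e a ω (c :: v) := by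
  rw [ae_all_iff]
  intro v
  obtain ⟨hm, hl⟩ := h1 a v
  have h3 := h2.2.2.2.2.2.1 (ty a v)
  rw [← hl] at h3
  filter_upwards [ae_of_ae_map hm.aemeasurable h3] with ω hω
  have h4 : (sh v ω) [] = ω v := rfl
  rw [h4] at hω
  unfold Wv
  rw [hω]
  refine Finset.sum_congr rfl fun c _ => ?_
  rw [gw_sh_sh]
  rfl

theorem gw_zero {ρ : ℝ} {e : Q → ℝ} (hn : ∀ a ω, 0 ≤ WW ρ e a ω) {a : Q} {ω : Env Q}
    (hr : ∀ v : Vx Q, ρ * Wv ρ e a ω v = ∑ c ∈ chd (ω v), Wv ρ e a ω (c :: v))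
    (h0 : WW ρ e a ω = 0) (v : Vx Q) (hv : InT (cht ω) v) : Wv ρ e a ω v = 0 := by
  induction v with
  | nil =>
    have : sh [] ω = ω := by
      funext u
      simp [sh]
    unfold Wv
    rw [this]
    exact h0
  | cons c u ih =>
    have h1 := hr u
    rw [ih hv.1, mul_zero] at h1
    exact (Finset.sum_eq_zero_iff_of_nonneg (fun c _ => hn _ _)).1 h1.symm c hv.2

/-- the first vertex (in an enumeration) of generation `k` of the tree is `v` -/
def gwD (k : ℕ) (f : Vx Q → ℕ) (v : Vx Q) : Set (Env Q) :=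
  {ω | InT (cht ω) v ∧ v.length = k ∧ ∀ u : Vx Q, f u < f v → u.length = k → ¬ InT (cht ω) u}

theorem gwD_meas (k : ℕ) (f : Vx Q → ℕ) (v : Vx Q) : MeasurableSet[gwF k] (gwD k f v) := by
  by_cases hk : v.length = k
  · have h : gwD k f v = {ω : Env Q | InT (cht ω) v} ∩
        ⋂ u : {u : Vx Q // f u < f v ∧ u.length = k}, {ω : Env Q | InT (cht ω) u.1}ᶜ := by
      ext ω
      simp only [gwD, mem_ofPred_eq, mem_inter_iff, mem_iInter, mem_compl_iff, Subtype.forall]
      constructor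
      · rintro ⟨h1, _, h3⟩
        exact ⟨h1, fun u hu => h3 u hu.1 hu.2⟩
      · rintro ⟨h1, h3⟩
        exact ⟨h1, hk, fun u h4 h5 => h3 u ⟨h4, h5⟩⟩
    rw [h]
    refine @MeasurableSet.inter _ (gwF k) _ _ ?_ ?_
    · have := gw_inT_meas v
      rwa [hk] at this
    · refine @MeasurableSet.iInter _ _ (gwF k) _ _ fun u => ?_
      refine @MeasurableSet.compl _ _ (gwF k) ?_
      have := gw_inT_meas u.1
      rwa [u.2.2] at this
  · have h : gwD k f v = ∅ := by
      ext ω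
      simp only [gwD, mem_ofPred_eq, mem_empty_iff_false, iff_false]
      exact fun h => hk h.2.1
    rw [h]
    exact @MeasurableSet.empty _ (gwF k)

theorem gwD_disj (k : ℕ) {f : Vx Q → ℕ} (hf : Function.Injective f) :
    Pairwise (Function.onFun Disjoint (gwD (Q := Q) k f)) := by
  intro u v huv
  rw [Function.onFun, Set.disjoint_left]
  rintro ω ⟨h1, h2, h3⟩ ⟨h4, h5, h6⟩
  rcases lt_trichotomy (f u) (f v) with h | h | h
  · exact h6 u h h2 h1
  · exact huv (hf h)
  · exact h3 v h h5 h4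

theorem gwD_union (k : ℕ) (f : Vx Q → ℕ) {ω : Env Q} (h : (Lev (cht ω) k).Nonempty) :
    ∃ v, ω ∈ gwD k f v := by
  obtain ⟨v, hv, hmin⟩ := Finset.exists_min_image (Lev (cht ω) k) f h
  rw [mem_Lev] at hv
  refine ⟨v, hv.2, hv.1, fun u h1 h2 h3 => ?_⟩
  have := hmin u (mem_Lev.2 ⟨h2, h3⟩)
  omega

/-- the zero set at the vertex `v` -/
def gwZ (ρ : ℝ) (e : Q → ℝ) (a : Q) (v : Vx Q) : Set (Env Q) := {ω | Wv ρ e a ω v = 0}

/-- zero martingale limit and survival -/
def gwA (ρ : ℝ) (e : Q → ℝ) (a : Q) : Set (Env Q) :=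
  {ω | WW ρ e a ω = 0 ∧ ∀ n, (Lev (cht ω) n).Nonempty}

theorem gw_WW_meas {q : Q → Measure (Q → ℕ)} {ρ : ℝ} {e m : Q → ℝ} (h2 : S_W q ρ e m) (b : Q) :
    MeasurableSet {ω : Env Q | WW ρ e b ω = 0} := h2.1 b (measurableSet_singleton 0)

theorem gw_key_ineq (q : Q → Measure (Q → ℕ)) [∀ a, IsProbabilityMeasure (q a)] {ρ : ℝ}
    {e m : Q → ℝ} (h1 : S_SH q) (h2 : S_W q ρ e m) (a : Q) {p : ℝ≥0∞}
    (hp : ∀ b, law q b {ω | WW ρ e b ω = 0} ≤ p) (k : ℕ) {E : Set (Env Q)}
    (hE : MeasurableSet[gwF k] E) : law q a (E ∩ gwA ρ e a) ≤ p * law q a E := by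
  obtain ⟨f, hf⟩ : ∃ f : Vx Q → ℕ, Function.Injective f := exists_injective_nat (Vx Q)
  have hZ : ∀ v : Vx Q, v.length = k → MeasurableSet[gwG k] (gwZ ρ e a v) := by
    rintro v rfl
    have h3 : gwZ ρ e a v = sh v ⁻¹' {ω | WW ρ e (ty a v) ω = 0} := rfl
    rw [h3]
    exact (gw_sh_meas v) (h2.1 (ty a v) (measurableSet_singleton 0))
  have hZp : ∀ v : Vx Q, law q a (gwZ ρ e a v) ≤ p := by
    intro v
    obtain ⟨hm, hl⟩ := h1 a v
    have h3 : gwZ ρ e a v = sh v ⁻¹' {ω | WW ρ e (ty a v) ω = 0} := rfl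
    rw [h3, ← Measure.map_apply hm (gw_WW_meas h2 (ty a v)), hl]
    exact hp _
  have hsub : law q a (E ∩ gwA ρ e a) ≤ law q a (⋃ v : Vx Q, (E ∩ gwD k f v) ∩ gwZ ρ e a v) := by
    refine measure_mono_ae ?_
    filter_upwards [gw_rec q h1 h2 a] with ω hω hωA
    obtain ⟨hωE, hω0, hωS⟩ := hωA
    obtain ⟨v, hv⟩ := gwD_union k f (hωS k)
    exact mem_iUnion.2 ⟨v, ⟨hωE, hv⟩, gw_zero h2.2.1 hω hω0 v hv.1⟩
  have hED : ∀ v : Vx Q, MeasurableSet[gwF k] (E ∩ gwD k f v) := fun v =>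
    @MeasurableSet.inter _ (gwF k) _ _ hE (gwD_meas k f v)
  calc law q a (E ∩ gwA ρ e a) ≤ law q a (⋃ v : Vx Q, (E ∩ gwD k f v) ∩ gwZ ρ e a v) := hsub
    _ ≤ ∑' v : Vx Q, law q a ((E ∩ gwD k f v) ∩ gwZ ρ e a v) := measure_iUnion_le _
    _ ≤ ∑' v : Vx Q, p * law q a (E ∩ gwD k f v) := by
        refine ENNReal.tsum_le_tsum fun v => ?_
        by_cases hk : v.length = k
        · have h3 := (Indep_iff _ _ _).1 (gw_indep q a k) _ _ (hED v) (hZ v hk)
          rw [h3, mul_comm]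
          exact mul_le_mul' (hZp v) le_rfl
        · have h3 : E ∩ gwD k f v = ∅ := by
            ext ω
            simp only [gwD, mem_ofPred_eq, mem_inter_iff, mem_empty_iff_false, iff_false]
            exact fun h => hk h.2.2.1
          rw [h3, Set.empty_inter, measure_empty]
          exact bot_le
    _ = p * ∑' v : Vx Q, law q a (E ∩ gwD k f v) := ENNReal.tsum_mul_left
    _ = p * law q a (⋃ v : Vx Q, E ∩ gwD k f v) := by
        rw [measure_iUnion]
        · intro u v huv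
          exact (gwD_disj k hf huv).mono inter_subset_right inter_subset_right
        · exact fun v => gwF_le k _ (hED v)
    _ ≤ p * law q a E := by
        refine mul_le_mul' le_rfl (measure_mono ?_)
        exact iUnion_subset fun v => inter_subset_left

theorem gw_gen : (inferInstance : MeasurableSpace (Env Q)) =
    MeasurableSpace.generateFrom {s : Set (Env Q) | ∃ k, MeasurableSet[gwF k] s} := by
  apply le_antisymm
  · have h : (inferInstance : MeasurableSpace (Env Q)) = ⨆ i : Vx Q, gwI i := rfl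
    rw [h]
    refine iSup_le fun i => ?_
    intro s hs
    exact MeasurableSpace.measurableSet_generateFrom ⟨i.length + 1,
      gwI_le_F (Nat.lt_succ_self _) _ hs⟩
  · exact MeasurableSpace.generateFrom_le fun s ⟨k, hs⟩ => gwF_le k _ hs

theorem gw_ring : IsSetRing {s : Set (Env Q) | ∃ k, MeasurableSet[gwF k] s} := by
  refine ⟨⟨0, @MeasurableSet.empty _ (gwF 0)⟩, ?_, ?_⟩
  · rintro s t ⟨k, hk⟩ ⟨l, hl⟩
    exact ⟨max k l, @MeasurableSet.union _ (gwF (max k l)) _ _ (gwF_mono (le_max_left _ _) _ hk)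
      (gwF_mono (le_max_right _ _) _ hl)⟩
  · rintro s t ⟨k, hk⟩ ⟨l, hl⟩
    exact ⟨max k l, @MeasurableSet.diff _ (gwF (max k l)) _ _ (gwF_mono (le_max_left _ _) _ hk)
      (gwF_mono (le_max_right _ _) _ hl)⟩

theorem gwA_meas (q : Q → Measure (Q → ℕ)) {ρ : ℝ} {e m : Q → ℝ} (h2 : S_W q ρ e m) (a : Q) :
    MeasurableSet (gwA ρ e a) := by
  have h : gwA ρ e a = {ω | WW ρ e a ω = 0} ∩
      ⋂ n : ℕ, ⋃ v : {v : Vx Q // v.length = n}, {ω : Env Q | InT (cht ω) v.1} := by
    ext ω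
    simp only [gwA, mem_ofPred_eq, mem_inter_iff, mem_iInter, mem_iUnion, Subtype.exists,
      exists_prop]
    refine and_congr_right fun _ => forall_congr' fun n => ?_
    constructor
    · rintro ⟨v, hv⟩
      exact ⟨v, mem_Lev.1 hv⟩
    · rintro ⟨v, hv⟩
      exact ⟨v, mem_Lev.2 hv⟩
  rw [h]
  refine MeasurableSet.inter (h2.1 a (measurableSet_singleton 0)) ?_
  refine MeasurableSet.iInter fun n => MeasurableSet.iUnion fun v => ?_
  exact gwF_le _ _ (gw_inT_meas v.1)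

theorem gw_pos (q : Q → Measure (Q → ℕ)) [∀ a, IsProbabilityMeasure (q a)] {ρ : ℝ} {e m : Q → ℝ}
    {C r : ℝ} (hy : Hyp q ρ e m C r) (h1 : S_SH q) (h2 : S_W q ρ e m) (h3 : S_LEV Q) :
    S_POS q ρ e := by
  intro a
  -- the probabilities of the zero set
  have hlt : ∀ b, law q b {ω | WW ρ e b ω = 0} < 1 := by
    intro b
    refine lt_of_le_of_ne prob_le_one fun h => ?_
    have h4 : ∀ᵐ ω ∂(law q b), WW ρ e b ω = 0 := by
      rw [← mem_ae_iff_prob_eq_one (gw_WW_meas h2 b)] at h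
      exact h
    have h5 : ∫ ω, WW ρ e b ω ∂(law q b) = 0 := by
      rw [integral_congr_ae h4]
      simp
    rw [h2.2.2.2.1 b] at h5
    exact (hy.pf.e_pos b).ne' h5
  obtain ⟨p, hp⟩ : ∃ p : ℝ≥0∞, p = Finset.univ.sup fun b => law q b {ω | WW ρ e b ω = 0} :=
    ⟨_, rfl⟩
  have hp1 : p < 1 := by
    rw [hp, Finset.sup_lt_iff (by simp)]
    exact fun b _ => hlt b
  have hpb : ∀ b, law q b {ω | WW ρ e b ω = 0} ≤ p := by
    intro b
    rw [hp]
    exact Finset.le_sup (f := fun b => law q b {ω | WW ρ e b ω = 0}) (Finset.mem_univ b)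
  have hA := gwA_meas q h2 a
  have hle : law q a (gwA ρ e a) ≤ p * law q a (gwA ρ e a) := by
    refine ENNReal.le_of_forall_pos_le_add fun ε hε _ => ?_
    have hε2 : (0 : ℝ≥0∞) < (ε : ℝ≥0∞) / 2 := ENNReal.half_pos (by exact_mod_cast hε.ne')
    obtain ⟨t, ⟨k, ht⟩, h6⟩ := exists_measure_symmDiff_lt_of_generateFrom_isSetRing
      (μ := law q a) (gw_ring (Q := Q))
      ⟨{univ}, Set.countable_singleton _, by
        rw [Set.singleton_subset_iff]
        exact ⟨0, @MeasurableSet.univ _ (gwF 0)⟩, by simp⟩ gw_gen hA hε2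
    have h7 := gw_key_ineq q h1 h2 a hpb k ht
    have h8 : law q a (gwA ρ e a) ≤ law q a (t ∩ gwA ρ e a) + (ε : ℝ≥0∞) / 2 := by
      calc law q a (gwA ρ e a) ≤ law q a ((t ∩ gwA ρ e a) ∪ symmDiff t (gwA ρ e a)) := by
            refine measure_mono fun x hx => ?_
            by_cases hxt : x ∈ t
            · exact Or.inl ⟨hxt, hx⟩
            · exact Or.inr (Or.inr ⟨hx, hxt⟩)
        _ ≤ law q a (t ∩ gwA ρ e a) + law q a (symmDiff t (gwA ρ e a)) := measure_union_le _ _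
        _ ≤ _ := add_le_add le_rfl h6.le
    have h9 : law q a t ≤ law q a (gwA ρ e a) + (ε : ℝ≥0∞) / 2 := by
      calc law q a t ≤ law q a (gwA ρ e a ∪ symmDiff t (gwA ρ e a)) := by
            refine measure_mono fun x hx => ?_
            by_cases hxt : x ∈ gwA ρ e a
            · exact Or.inl hxt
            · exact Or.inr (Or.inl ⟨hx, hxt⟩)
        _ ≤ law q a (gwA ρ e a) + law q a (symmDiff t (gwA ρ e a)) := measure_union_le _ _
        _ ≤ _ := add_le_add le_rfl h6.le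
    calc law q a (gwA ρ e a) ≤ p * law q a t + (ε : ℝ≥0∞) / 2 := h8.trans (add_le_add h7 le_rfl)
      _ ≤ p * (law q a (gwA ρ e a) + (ε : ℝ≥0∞) / 2) + (ε : ℝ≥0∞) / 2 :=
          add_le_add (mul_le_mul' le_rfl h9) le_rfl
      _ = p * law q a (gwA ρ e a) + (p * ((ε : ℝ≥0∞) / 2) + (ε : ℝ≥0∞) / 2) := by
          rw [mul_add, add_assoc]
      _ ≤ p * law q a (gwA ρ e a) + (1 * ((ε : ℝ≥0∞) / 2) + (ε : ℝ≥0∞) / 2) :=
          add_le_add le_rfl (add_le_add (mul_le_mul' hp1.le le_rfl) le_rfl)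
      _ = p * law q a (gwA ρ e a) + ε := by
          rw [one_mul, ENNReal.add_halves]
  have h0 : law q a (gwA ρ e a) = 0 := by
    by_contra hne
    have h4 : p * law q a (gwA ρ e a) < 1 * law q a (gwA ρ e a) :=
      ENNReal.mul_lt_mul_left hne (measure_ne_top _ _) hp1
    rw [one_mul] at h4
    exact absurd hle (not_le.2 h4)
  have h5 : ∀ᵐ ω ∂(law q a), ω ∉ gwA ρ e a := measure_eq_zero_iff_ae_notMem.1 h0
  filter_upwards [h5] with ω hω hS
  refine lt_of_le_of_ne (h2.2.1 a ω) fun h => hω ⟨h.symm, hS⟩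

end

end Pool.Agent.H161
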