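import Pool.Agent.H676.LC.Stm

set_option autoImplicit false
set_option linter.unusedSectionVars false
set_option linter.unusedSimpArgs false

/-! Subgroups of small index of a power of a group. -/

namespace Pool.Agent.H161.LCS

open Finset

variable {T : Type} [Group T] [Finite T] {X : Type} [Fintype X] [DecidableEq X]

/-- the elements which are trivial on `A` -/
def E (A : Finset X) : Subgroup (X → T) where
  carrier := {k | ∀ y ∈ A, k y = 1}
  mul_mem' := by
    intro a b ha hb y hy
    simp [ha y hy, hb y hy]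
  one_mem' := by
    intro y hy
    rfl
  inv_mem' := by
    intro a ha y hy
    simp [ha y hy]

omit [Finite T] [Fintype X] [DecidableEq X] in
theorem mem_E {A : Finset X} {k : X → T} : k ∈ (E A : Subgroup (X → T)) ↔ ∀ y ∈ A, k y = 1 := Iff.rfl

/-- fibres over a coordinate -/
theorem fib (K : Subgroup (X → T)) (D : Subgroup T) (x : X) (h : ∀ k ∈ K, k x ∈ D) :
    Nat.card K ≤ Nat.card D * Nat.card (K ⊓ E {x} : Subgroup (X → T)) := by
  set f : K →* D := ((Pi.evalMonoidHom (fun _ : X => T) x).comp K.subtype).codRestrict D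
    (fun k => h k.1 k.2) with hf
  have h1 := Subgroup.card_mul_index f.ker
  rw [Subgroup.index_ker] at h1
  have h2 : Nat.card f.range ≤ Nat.card D := Nat.card_le_card_of_injective _ Subtype.val_injective
  have h3 : Nat.card f.ker ≤ Nat.card (K ⊓ E {x} : Subgroup (X → T)) := by
    refine Nat.card_le_card_of_injective
      (fun k : f.ker => (⟨k.1.1, k.1.2, ?_⟩ : (K ⊓ E {x} : Subgroup (X → T)))) ?_
    · intro y hy
      rw [Finset.mem_singleton] at hy
      subst hy
      have := k.2
      rw [MonoidHom.mem_ker, Subtype.ext_iff] at this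
      exact this
    · intro a b hab
      rw [Subtype.mk.injEq] at hab
      exact Subtype.ext (Subtype.ext hab)
  calc Nat.card K = Nat.card f.ker * Nat.card f.range := h1.symm
    _ ≤ Nat.card (K ⊓ E {x} : Subgroup (X → T)) * Nat.card D := Nat.mul_le_mul h3 h2
    _ = _ := Nat.mul_comm _ _

/-- iteration of `fib` -/
theorem iter (K : Subgroup (X → T)) (Z : Subgroup T) (y₁ : X) (A : Finset X) (hA : y₁ ∉ A)
    (h : ∀ k ∈ K, k y₁ = 1 → ∀ y ∈ A, k y ∈ Z) :
    Nat.card (K ⊓ E {y₁} : Subgroup (X → T)) ≤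
      Nat.card Z ^ A.card * Nat.card (K ⊓ E (insert y₁ A) : Subgroup (X → T)) := by
  induction A using Finset.induction_on with
  | empty => simp
  | insert a s has ih =>
    have h1 := ih (fun hy => hA (Finset.mem_insert_of_mem hy))
      (fun k hk hk1 y hy => h k hk hk1 y (Finset.mem_insert_of_mem hy))
    have h2 := fib (K ⊓ E (insert y₁ s) : Subgroup (X → T)) Z a (by
      intro k hk
      exact h k hk.1 (hk.2 y₁ (Finset.mem_insert_self _ _)) a (Finset.mem_insert_self _ _))
    have h3 : ((K ⊓ E (insert y₁ s)) ⊓ E {a} : Subgroup (X → T)) = K ⊓ E (insert y₁ (insert a s)) := by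
      ext k
      simp only [Subgroup.mem_inf, mem_E, Finset.mem_insert, Finset.mem_singleton]
      constructor
      · rintro ⟨⟨h1, h2⟩, h3⟩
        refine ⟨h1, fun y hy => ?_⟩
        rcases hy with rfl | rfl | hy
        · exact h2 _ (Or.inl rfl)
        · exact h3 _ rfl
        · exact h2 _ (Or.inr hy)
      · rintro ⟨h1, h2⟩
        refine ⟨⟨h1, fun y hy => ?_⟩, fun y hy => h2 y (Or.inr (Or.inl hy))⟩
        rcases hy with rfl | hy
        · exact h2 _ (Or.inl rfl)
        · exact h2 _ (Or.inr (Or.inr hy))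
    rw [h3] at h2
    rw [Finset.card_insert_of_notMem has, pow_succ]
    calc _ ≤ Nat.card Z ^ s.card * Nat.card (K ⊓ E (insert y₁ s) : Subgroup (X → T)) := h1
      _ ≤ Nat.card Z ^ s.card * (Nat.card Z * Nat.card (K ⊓ E (insert y₁ (insert a s)) : Subgroup (X → T))) :=
          Nat.mul_le_mul_left _ h2
      _ = _ := by ring

/-- the element with the values `a` at `y` and `b` at `x` -/
def two (y x : X) : T × T →* (X → T) where
  toFun p := fun z => if z = y then p.1 else if z = x then p.2 else 1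
  map_one' := by
    funext z
    simp
  map_mul' := by
    intro p q
    funext z
    simp only [Pi.mul_apply, Prod.fst_mul, Prod.snd_mul]
    split_ifs <;> simp

omit [Finite T] [Fintype X] in
theorem two_apply (y x : X) (p : T × T) (z : X) :
    two y x p z = if z = y then p.1 else if z = x then p.2 else 1 := rfl

omit [Finite T] [Fintype X] in
theorem two_one (y x : X) (a : T) : two y x (a, 1) = Pi.mulSingle y a := by
  funext z
  rw [two_apply]
  by_cases h : z = y
  · subst h
    simp
  · simp [h, Pi.mulSingle_eq_of_ne h]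

omit [Finite T] [Fintype X] in
theorem two_one' {y x : X} (hxy : y ≠ x) (b : T) : two y x (1, b) = Pi.mulSingle x b := by
  funext z
  rw [two_apply]
  by_cases h : z = y
  · subst h
    simp [Pi.mulSingle_eq_of_ne hxy]
  · by_cases h' : z = x
    · subst h'
      simp [h]
    · simp [h, h', Pi.mulSingle_eq_of_ne h']

omit [Finite T] [Fintype X] in
theorem conj_two {y x : X} (p : T × T) (k : X → T) :
    k * two y x p * k⁻¹ = two y x (k y * p.1 * (k y)⁻¹, k x * p.2 * (k x)⁻¹) := by
  funext z
  simp only [Pi.mul_apply, Pi.inv_apply, two_apply]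
  by_cases h : z = y
  · subst h
    simp
  · by_cases h' : z = x
    · subst h'
      simp [h]
    · simp [h, h']

/-- linked coordinates -/
theorem link (N : Subgroup T) (hN : N.Normal)
    (hmin : ∀ M : Subgroup T, M.Normal → M ≠ ⊥ → N ≤ M)
    (K : Subgroup (X → T)) (x y : X) (hxy : y ≠ x)
    (hP : ∀ t : T, ∃ k ∈ K, k x = t)
    (hM : ∀ a : T, Pi.mulSingle x a ∈ K → a = 1)
    (hbad : ¬ ∀ a ∈ N, Pi.mulSingle y a ∈ K)
    (hY : ∀ a ∈ N, ∃ b : T, two y x (a, b) ∈ K) :
    ∀ k ∈ K, (k x ∈ Subgroup.centralizer (N : Set T) ↔ k y ∈ Subgroup.centralizer (N : Set T)) := by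
  set R : Subgroup (T × T) := K.comap (two y x) ⊓ N.comap (MonoidHom.fst T T) with hR
  have hmR : ∀ a b : T, (a, b) ∈ R ↔ two y x (a, b) ∈ K ∧ a ∈ N := fun a b => by
    rw [hR, Subgroup.mem_inf, Subgroup.mem_comap, Subgroup.mem_comap]
    rfl
  have hconj : ∀ k ∈ K, ∀ a b : T, (a, b) ∈ R →
      (k y * a * (k y)⁻¹, k x * b * (k x)⁻¹) ∈ R := by
    intro k hk a b hab
    rw [hmR] at hab ⊢
    refine ⟨?_, hN.conj_mem a hab.2 (k y)⟩
    have := conj_two (y := y) (x := x) (a, b) k
    rw [← this]
    exact K.mul_mem (K.mul_mem hk hab.1) (K.inv_mem hk)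
  have huniq : ∀ a b b' : T, (a, b) ∈ R → (a, b') ∈ R → b = b' := by
    intro a b b' h h'
    have h1 : (a, b)⁻¹ * (a, b') ∈ R := R.mul_mem (R.inv_mem h) h'
    have h2 : (a, b)⁻¹ * (a, b') = (1, b⁻¹ * b') := by
      ext <;> simp
    rw [h2, hmR, two_one' hxy] at h1
    have := hM _ h1.1
    exact (inv_mul_eq_one.1 this)
  set B : Subgroup T := R.map (MonoidHom.snd T T) with hB
  have hmB : ∀ b : T, b ∈ B ↔ ∃ a, (a, b) ∈ R := by
    intro b
    rw [hB, Subgroup.mem_map]
    constructor
    · rintro ⟨⟨a, b'⟩, h, rfl⟩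
      exact ⟨a, h⟩
    · rintro ⟨a, h⟩
      exact ⟨(a, b), h, rfl⟩
  have hBn : B.Normal := by
    constructor
    intro b hb t
    obtain ⟨k, hk, rfl⟩ := hP t
    rw [hmB] at hb ⊢
    obtain ⟨a, ha⟩ := hb
    exact ⟨_, hconj k hk a b ha⟩
  have hB0 : B ≠ ⊥ := by
    intro h0
    apply hbad
    intro a ha
    obtain ⟨b, hb⟩ := hY a ha
    have h1 : (a, b) ∈ R := (hmR a b).2 ⟨hb, ha⟩
    have h2 : b ∈ B := (hmB b).2 ⟨a, h1⟩
    rw [h0, Subgroup.mem_bot] at h2
    rw [h2, two_one] at hb
    exact hb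
  have hNB : N ≤ B := hmin B hBn hB0
  -- cardinalities
  have hRN : Nat.card R ≤ Nat.card N := by
    refine Nat.card_le_card_of_injective (fun p : R => (⟨p.1.1, ((hmR p.1.1 p.1.2).1 p.2).2⟩ : N)) ?_
    rintro ⟨⟨a, b⟩, h⟩ ⟨⟨a', b'⟩, h'⟩ he
    have he' : a = a' := congrArg Subtype.val he
    subst he'
    have := huniq a b b' h h'
    subst this
    rfl
  have hNBc : Nat.card N ≤ Nat.card B := Nat.card_le_card_of_injective (Subgroup.inclusion hNB)
    (Subgroup.inclusion_injective hNB)
  set g : R → B := fun p => ⟨p.1.2, (hmB _).2 ⟨p.1.1, p.2⟩⟩ with hg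
  have hgs : Function.Surjective g := by
    rintro ⟨b, hb⟩
    obtain ⟨a, ha⟩ := (hmB b).1 hb
    exact ⟨⟨(a, b), ha⟩, rfl⟩
  have hgb : Function.Bijective g := hgs.bijective_of_nat_card_le (hRN.trans hNBc)
  have hinj : ∀ a a' b : T, (a, b) ∈ R → (a', b) ∈ R → a = a' := by
    intro a a' b h h'
    have h1 : (⟨(a, b), h⟩ : R) = ⟨(a', b), h'⟩ := hgb.1 rfl
    exact congrArg (fun p : R => p.1.1) h1
  have hBN : N = B := Subgroup.eq_of_le_of_card_ge hNB
    ((Nat.card_le_card_of_surjective g hgs).trans hRN)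
  intro k hk
  rw [Subgroup.mem_centralizer_iff, Subgroup.mem_centralizer_iff]
  constructor
  · intro h a ha
    have haN : a ∈ N := ha
    obtain ⟨b, hb⟩ := hY a haN
    have h1 : (a, b) ∈ R := (hmR a b).2 ⟨hb, haN⟩
    have h2 := hconj k hk a b h1
    have hbN : b ∈ N := by
      rw [hBN]
      exact (hmB b).2 ⟨a, h1⟩
    have h3 : k x * b * (k x)⁻¹ = b := by
      rw [← h b hbN]
      group
    rw [h3] at h2
    have h4 := hinj _ _ _ h2 h1
    exact (mul_inv_eq_iff_eq_mul.1 h4).symm
  · intro h b hb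
    have hbB : b ∈ B := by
      rw [← hBN]
      exact hb
    obtain ⟨a, h1⟩ := (hmB b).1 hbB
    have haN : a ∈ N := ((hmR a b).1 h1).2
    have h2 := hconj k hk a b h1
    have h3 : k y * a * (k y)⁻¹ = a := by
      rw [← h a haN]
      group
    rw [h3] at h2
    have h4 := huniq _ _ _ h2 h1
    exact (mul_inv_eq_iff_eq_mul.1 h4).symm

/-- forget the coordinate `x` -/
def er (x : X) : (X → T) →* (X → T) where
  toFun k := fun z => if z = x then 1 else k z
  map_one' := by
    funext z
    simp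
  map_mul' := by
    intro p q
    funext z
    simp only [Pi.mul_apply]
    split_ifs <;> simp

omit [Finite T] [Fintype X] in
theorem er_apply (x : X) (k : X → T) (z : X) : er x k z = if z = x then 1 else k z := rfl

theorem two_card (Z : Subgroup T) (hZ : Z ≠ ⊤) : 2 * Nat.card Z ≤ Nat.card T := by
  have h1 := Subgroup.card_mul_index Z
  have h2 : Z.index ≠ 1 := fun h => hZ (Subgroup.index_eq_one.1 h)
  have h3 : Z.index ≠ 0 := Subgroup.index_ne_zero_of_finite
  have h4 : 2 ≤ Z.index := by omega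
  rw [← h1, Nat.mul_comm 2]
  exact Nat.mul_le_mul_left _ h4

theorem four_card (N : Subgroup T) (hc : ¬ N ≤ Subgroup.center T) : 4 ≤ Nat.card T := by
  by_contra hlt
  push Not at hlt
  have hcomm : ∀ a b : T, a * b = b * a := by
    have hpos : 0 < Nat.card T := Nat.card_pos
    have h3 : Nat.card T = 1 ∨ Nat.card T = 2 ∨ Nat.card T = 3 := by omega
    rcases h3 with h | h | h
    · have : Subsingleton T := (Nat.card_eq_one_iff_unique.1 h).1
      intro a b
      exact Subsingleton.elim _ _
    · have : Fact (Nat.Prime 2) := ⟨Nat.prime_two⟩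
      have hcy : IsCyclic T := isCyclic_of_prime_card h
      intro a b
      exact (IsCyclic.commGroup (α := T)).mul_comm a b
    · have : Fact (Nat.Prime 3) := ⟨Nat.prime_three⟩
      have hcy : IsCyclic T := isCyclic_of_prime_card h
      intro a b
      exact (IsCyclic.commGroup (α := T)).mul_comm a b
  apply hc
  intro a _
  rw [Subgroup.mem_center_iff]
  intro g
  exact hcomm g a

open Classical in
theorem main (N : Subgroup T) (hN : N.Normal)
    (hmin : ∀ M : Subgroup T, M.Normal → M ≠ ⊥ → N ≤ M) (hc : ¬ N ≤ Subgroup.center T) :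
    ∀ (S : Finset X) (K : Subgroup (X → T)), (∀ k ∈ K, ∀ y, y ∉ S → k y = 1) →
      ∀ I : Finset X, I ⊆ S → (∀ x ∈ I, ¬ ∀ a ∈ N, Pi.mulSingle x a ∈ K) →
      Nat.card K * 2 ^ I.card ≤ Nat.card T ^ S.card := by
  set Z : Subgroup T := Subgroup.centralizer (N : Set T) with hZdef
  have hZ : Z ≠ ⊤ := by
    intro h
    apply hc
    intro a ha
    rw [Subgroup.mem_center_iff]
    intro g
    have hg : g ∈ Z := by
      rw [h]
      exact Subgroup.mem_top g
    rw [hZdef, Subgroup.mem_centralizer_iff] at hg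
    exact (hg a ha).symm
  have h2Z := two_card Z hZ
  have h4 := four_card N hc
  intro S
  induction S using Finset.strongInduction with
  | H S ih =>
  intro K hK I hIS hI
  rcases S.eq_empty_or_nonempty with rfl | hSne
  · have hI0 : I = ∅ := Finset.subset_empty.1 hIS
    subst hI0
    have hsub : Subsingleton K := by
      constructor
      rintro ⟨a, ha⟩ ⟨b, hb⟩
      apply Subtype.ext
      funext y
      exact (hK a ha y (Finset.notMem_empty y)).trans (hK b hb y (Finset.notMem_empty y)).symm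
    simp [Nat.card_unique]
  by_cases hIeq : I = S
  swap
  · -- case A
    obtain ⟨x, hxS, hxI⟩ : ∃ x ∈ S, x ∉ I := by
      by_contra hcon
      push Not at hcon
      exact hIeq (Finset.Subset.antisymm hIS hcon)
    have h1 := fib K ⊤ x (fun k _ => Subgroup.mem_top _)
    rw [Subgroup.card_top] at h1
    have h2 := ih (S.erase x) (Finset.erase_ssubset hxS) (K ⊓ E {x}) (by
      intro k hk y hy
      by_cases hyx : y = x
      · subst hyx
        exact hk.2 y (Finset.mem_singleton_self y)
      · exact hK k hk.1 y (fun h => hy (Finset.mem_erase.2 ⟨hyx, h⟩))) I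
      (by
        intro z hz
        refine Finset.mem_erase.2 ⟨?_, hIS hz⟩
        rintro rfl
        exact hxI hz)
      (fun z hz h => hI z hz (fun a ha => (h a ha).1))
    have h3 : S.card = (S.erase x).card + 1 := (Finset.card_erase_add_one hxS).symm
    rw [h3, pow_succ]
    calc Nat.card K * 2 ^ I.card ≤ (Nat.card T * Nat.card (K ⊓ E {x} : Subgroup (X → T))) * 2 ^ I.card :=
          Nat.mul_le_mul_right _ h1
      _ = Nat.card T * (Nat.card (K ⊓ E {x} : Subgroup (X → T)) * 2 ^ I.card) := by ring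
      _ ≤ Nat.card T * Nat.card T ^ (S.erase x).card := Nat.mul_le_mul_left _ h2
      _ = _ := by ring
  subst hIeq
  by_cases hB : ∃ x ∈ I, ∃ D : Subgroup T, D ≠ ⊤ ∧ ∀ k ∈ K, k x ∈ D
  · -- case B
    obtain ⟨x, hxS, D, hD, hKD⟩ := hB
    have h1 := fib K D x hKD
    have hD2 := two_card D hD
    have h2 := ih (I.erase x) (Finset.erase_ssubset hxS) (K ⊓ E {x}) (by
      intro k hk y hy
      by_cases hyx : y = x
      · subst hyx
        exact hk.2 y (Finset.mem_singleton_self y)
      · exact hK k hk.1 y (fun h => hy (Finset.mem_erase.2 ⟨hyx, h⟩))) (I.erase x) (Finset.Subset.refl _)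
      (fun z hz h => hI z (Finset.mem_of_mem_erase hz) (fun a ha => (h a ha).1))
    have h3 : I.card = (I.erase x).card + 1 := (Finset.card_erase_add_one hxS).symm
    rw [h3, pow_succ, pow_succ]
    calc Nat.card K * (2 ^ (I.erase x).card * 2)
        ≤ (Nat.card D * Nat.card (K ⊓ E {x} : Subgroup (X → T))) * (2 ^ (I.erase x).card * 2) :=
          Nat.mul_le_mul_right _ h1
      _ = (2 * Nat.card D) * (Nat.card (K ⊓ E {x} : Subgroup (X → T)) * 2 ^ (I.erase x).card) := by ring
      _ ≤ Nat.card T * Nat.card T ^ (I.erase x).card := Nat.mul_le_mul hD2 h2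
      _ = _ := by ring
  -- case C
  push Not at hB
  obtain ⟨x, hxS⟩ := hSne
  have hP : ∀ t : T, ∃ k ∈ K, k x = t := by
    intro t
    by_contra hcon
    push Not at hcon
    have hD : (K.map (Pi.evalMonoidHom (fun _ : X => T) x)) ≠ ⊤ := by
      intro h
      have ht : t ∈ K.map (Pi.evalMonoidHom (fun _ : X => T) x) := by
        rw [h]
        exact Subgroup.mem_top t
      obtain ⟨k, hk, hkt⟩ := ht
      exact hcon k hk hkt
    obtain ⟨k, hk, hk'⟩ := hB x hxS _ hD
    exact hk' ⟨k, hk, rfl⟩
  have hM : ∀ a : T, Pi.mulSingle x a ∈ K → a = 1 := by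
    set M : Subgroup T := K.comap (MonoidHom.mulSingle (fun _ : X => T) x) with hMdef
    have hmM : ∀ a : T, a ∈ M ↔ Pi.mulSingle x a ∈ K := fun a => Iff.rfl
    have hMn : M.Normal := by
      constructor
      intro a ha t
      obtain ⟨k, hk, rfl⟩ := hP t
      rw [hmM] at ha ⊢
      have h1 := conj_two (y := x) (x := x) (a, 1) k
      rw [two_one] at h1
      have h2 : ((k x * ((a, 1) : T × T).1 * (k x)⁻¹, k x * ((a, 1) : T × T).2 * (k x)⁻¹) : T × T)
          = (k x * a * (k x)⁻¹, 1) := by simp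
      rw [h2, two_one] at h1
      rw [← h1]
      exact K.mul_mem (K.mul_mem hk ha) (K.inv_mem hk)
    have hM0 : M = ⊥ := by
      by_contra h0
      exact hI x hxS (fun a ha => hmin M hMn h0 ha)
    intro a ha
    have : a ∈ M := ha
    rw [hM0, Subgroup.mem_bot] at this
    exact this
  set K' : Subgroup (X → T) := K.map (er x) with hK'
  have hcardK : Nat.card K ≤ Nat.card K' := by
    refine Nat.card_le_card_of_injective
      (fun k : K => (⟨er x k.1, ⟨k.1, k.2, rfl⟩⟩ : K')) ?_
    rintro ⟨k, hk⟩ ⟨l, hl⟩ he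
    have he' : er x k = er x l := congrArg Subtype.val he
    have h1 : k⁻¹ * l = Pi.mulSingle x ((k⁻¹ * l) x) := by
      funext z
      by_cases hz : z = x
      · subst hz
        simp
      · have h2 := congrFun he' z
        rw [er_apply, er_apply, if_neg hz, if_neg hz] at h2
        rw [Pi.mulSingle_eq_of_ne hz]
        simp [h2]
    have h3 : Pi.mulSingle x ((k⁻¹ * l) x) ∈ K := by
      rw [← h1]
      exact K.mul_mem (K.inv_mem hk) hl
    have h4 := hM _ h3
    rw [h4, Pi.mulSingle_one] at h1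
    exact Subtype.ext (inv_mul_eq_one.1 h1)
  have hK'S : ∀ k ∈ K', ∀ y, y ∉ I.erase x → k y = 1 := by
    rintro _ ⟨k, hk, rfl⟩ y hy
    rw [er_apply]
    by_cases hyx : y = x
    · rw [if_pos hyx]
    · rw [if_neg hyx]
      exact hK k hk y (fun h => hy (Finset.mem_erase.2 ⟨hyx, h⟩))
  set Y : Finset X := (I.erase x).filter (fun y => ∀ a ∈ N, Pi.mulSingle y a ∈ K') with hYdef
  have h3 : I.card = (I.erase x).card + 1 := (Finset.card_erase_add_one hxS).symm
  rcases Y.eq_empty_or_nonempty with hY0 | ⟨y₁, hy₁⟩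
  · have h2 := ih (I.erase x) (Finset.erase_ssubset hxS) K' hK'S (I.erase x) (Finset.Subset.refl _)
      (fun z hz h => by
        have : z ∈ Y := Finset.mem_filter.2 ⟨hz, h⟩
        rw [hY0] at this
        exact Finset.notMem_empty z this)
    rw [h3, pow_succ, pow_succ]
    calc Nat.card K * (2 ^ (I.erase x).card * 2) ≤ Nat.card K' * (2 ^ (I.erase x).card * 2) :=
          Nat.mul_le_mul_right _ hcardK
      _ = (Nat.card K' * 2 ^ (I.erase x).card) * 2 := by ring
      _ ≤ Nat.card T ^ (I.erase x).card * Nat.card T := Nat.mul_le_mul h2 (by omega)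
  · have hlink : ∀ y ∈ Y, ∀ k ∈ K, (k x ∈ Z ↔ k y ∈ Z) := by
      intro y hy
      rw [hYdef, Finset.mem_filter, Finset.mem_erase] at hy
      obtain ⟨⟨hyx, hyI⟩, hyN⟩ := hy
      refine link N hN hmin K x y hyx hP hM (hI y hyI) ?_
      intro a ha
      obtain ⟨k, hk, hka⟩ := hyN a ha
      refine ⟨k x, ?_⟩
      have h5 : two y x (a, k x) = k := by
        funext z
        rw [two_apply]
        by_cases hzx : z = x
        · subst hzx
          rw [if_neg (Ne.symm hyx), if_pos rfl]
        · have h6 := congrFun hka z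
          rw [er_apply, if_neg hzx] at h6
          rw [h6]
          by_cases hzy : z = y
          · subst hzy
            simp
          · rw [if_neg hzy, if_neg hzx, Pi.mulSingle_eq_of_ne hzy]
      rw [h5]
      exact hk
    have h5 := fib K' ⊤ y₁ (fun k _ => Subgroup.mem_top _)
    rw [Subgroup.card_top] at h5
    have h6 := iter K' Z y₁ (Y.erase y₁) (Finset.notMem_erase _ _) (by
      rintro _ ⟨k, hk, rfl⟩ hk1 y hy
      have hyY := Finset.mem_of_mem_erase hy
      have hne : ∀ y ∈ Y, y ≠ x := fun y hy =>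
        (Finset.mem_erase.1 (Finset.mem_filter.1 hy).1).1
      have h7 : er x k y₁ = k y₁ := by rw [er_apply, if_neg (hne y₁ hy₁)]
      have h8 : er x k y = k y := by rw [er_apply, if_neg (hne y hyY)]
      rw [h7] at hk1
      rw [h8]
      refine (hlink y hyY k hk).1 ((hlink y₁ hy₁ k hk).2 ?_)
      rw [hk1]
      exact Z.one_mem)
    rw [Finset.insert_erase hy₁] at h6
    have hYsub : Y ⊆ I.erase x := Finset.filter_subset _ _
    have h7 := ih ((I.erase x) \ Y)
      (lt_of_le_of_lt Finset.sdiff_subset (Finset.erase_ssubset hxS)) (K' ⊓ E Y) (by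
        intro k hk y hy
        by_cases hyY : y ∈ Y
        · exact hk.2 y hyY
        · exact hK'S k hk.1 y (fun h => hy (Finset.mem_sdiff.2 ⟨h, hyY⟩)))
      ((I.erase x) \ Y) (Finset.Subset.refl _) (by
        intro z hz h
        rw [Finset.mem_sdiff] at hz
        exact hz.2 (Finset.mem_filter.2 ⟨hz.1, fun a ha => (h a ha).1⟩))
    have h8 : ((I.erase x) \ Y).card + Y.card = (I.erase x).card :=
      Finset.card_sdiff_add_card_eq_card hYsub
    have h9 : (Y.erase y₁).card + 1 = Y.card := Finset.card_erase_add_one hy₁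
    set r := ((I.erase x) \ Y).card with hr
    set m := (Y.erase y₁).card with hm
    have h10 : I.card = r + m + 1 + 1 := by omega
    rw [h10]
    set c := Nat.card (K' ⊓ E Y : Subgroup (X → T)) with hcdef
    set t := Nat.card T with ht
    set z := Nat.card Z with hz
    have h11 : Nat.card K ≤ t * (z ^ m * c) :=
      hcardK.trans (h5.trans (Nat.mul_le_mul_left _ h6))
    calc Nat.card K * 2 ^ (r + m + 1 + 1) ≤ (t * (z ^ m * c)) * 2 ^ (r + m + 1 + 1) :=
          Nat.mul_le_mul_right _ h11
      _ = t * (2 * z) ^ m * (c * 2 ^ r) * 4 := by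
          rw [mul_pow]
          ring
      _ ≤ t * t ^ m * t ^ r * t :=
          Nat.mul_le_mul (Nat.mul_le_mul (Nat.mul_le_mul_left _ (Nat.pow_le_pow_left h2Z m)) h7) h4
      _ = t ^ (r + m + 1 + 1) := by ring

theorem t_SUP : Pool.Agent.H676.LC.S_SUP := by
  intro T _ _ N hN _ hmin hc X _ _ K
  classical
  set I : Finset X := Finset.univ.filter (fun x => ¬ ∀ a ∈ N, Pi.mulSingle x a ∈ K) with hI
  have h1 := main N hN hmin hc Finset.univ K (fun k _ y hy => absurd (Finset.mem_univ y) hy) I
    (Finset.subset_univ _) (fun x hx => (Finset.mem_filter.1 hx).2)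
  have h2 : {x | ¬ ∀ a ∈ N, Pi.mulSingle x a ∈ K}.ncard = I.card := by
    rw [← Set.ncard_coe_finset]
    congr 1
    ext x
    simp [hI]
  rw [h2]
  have h3 := Subgroup.card_mul_index K
  have h4 : Nat.card (X → T) = Nat.card T ^ (Finset.univ : Finset X).card := by
    rw [Nat.card_fun, Nat.card_eq_fintype_card (α := X), Finset.card_univ]
  rw [← h4, ← h3] at h1
  exact Nat.le_of_mul_le_mul_left h1 Nat.card_pos

end Pool.Agent.H161.LCS
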