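import Pool.Agent.H558.PP.TStm

set_option autoImplicit false

/-!
# Project PP (helper558), task NR: nonzero coefficients in a square window (helper161)
-/

namespace Pool.Agent.H161.PPNR

open PowerSeries Finset Pool.Agent.R836.PP Pool.Agent.H558.KK Pool.Agent.H558.PP
open Pool.Agent.K7.H72.MT hiding W few dis DD dis_stable dis_vary DD_stable DD_sum DD_block few_bad
  dis_le DD_le base count

theorem N1_le (G : S) (X : ℕ) (x : El) (t : ℕ) :
    N1 G X x t ≤ #{n ∈ range X | coeff n (x.1 * G ^ t) ≠ x.2.1 n} := by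
  classical
  unfold N1
  refine card_le_card fun n hn => ?_
  rw [mem_filter] at hn ⊢
  exact ⟨hn.1, hn.2.2⟩

theorem nr : S_NR := by
  classical
  intro w hw Y hY
  obtain ⟨k, rfl⟩ : ∃ k, w = k + 7 := ⟨w - 7, by omega⟩
  obtain ⟨x, hx⟩ : ∃ x : El, x = (Y, fun _ => 0, fun _ => True) := ⟨_, rfl⟩
  obtain ⟨g, hg⟩ : ∃ g : ℕ → ℕ, g = fun t => gv 128 (desc P2 k [x] t) := ⟨_, rfl⟩
  have hgt : ∀ t, g t = gv 128 (desc P2 k [x] t) := fun t => by rw [hg]
  have hV : gv (16 * 8 ^ 2 ^ Nat.log 2 (k / 4 + 1)) [x] = 1 := by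
    rw [gv_cons, nv_zero, gv_nil, if_pos]
    rw [hx]
    exact ⟨0, by positivity, by rw [hY]; exact one_ne_zero⟩
  obtain ⟨h1, h2⟩ := all_k k [x] (by rw [hV]; exact one_pos)
  rw [hV, Nat.cast_one, div_one] at h2
  simp only [← hgt] at h1 h2
  have h3 : (2 ^ k) ^ 2 ≤ lam k * ∑ t ∈ range (2 ^ k), g t := by
    have h4 := Finset.sum_sq_le_sum_mul_sum_of_sq_le_mul (range (2 ^ k)) (r := fun _ => (1 : ℝ))
      (f := fun t => ((g t : ℝ))⁻¹) (g := fun t => (g t : ℝ)) (fun _ _ => by positivity)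
      (fun _ _ => by positivity) (fun t _ => le_of_eq (by
        rw [one_pow, inv_mul_cancel₀]
        exact_mod_cast (h1 t).ne'))
    rw [sum_const, card_range, nsmul_eq_mul, mul_one] at h4
    have h5 := h4.trans (mul_le_mul_of_nonneg_right h2
      (sum_nonneg fun t _ => (by positivity : (0 : ℝ) ≤ (g t : ℝ))))
    exact_mod_cast h5
  -- the number of the pairs
  have hper : ∀ t, g (t % 2 ^ k) = g t := fun t => by rw [hgt, hgt, desc_mod]
  have h6 : ∑ t ∈ range (2 ^ (k + 7)), g t = 128 * ∑ t ∈ range (2 ^ k), g t := by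
    rw [sum_pow_add, mul_sum]
    refine sum_congr rfl fun a ha => ?_
    rw [mem_range] at ha
    have h7 : ∀ b ∈ range (2 ^ 7), g (a + 2 ^ k * b) = g a := by
      intro b _
      rw [← hper (a + 2 ^ k * b), Nat.add_mul_mod_self_left, Nat.mod_eq_of_lt ha]
    rw [sum_congr rfl h7, sum_const, card_range, smul_eq_mul]
    norm_num
  have h8 : ∀ t, g t ≤ #{n ∈ range (2 ^ (k + 7)) | coeff n (Y * P2 ^ t) ≠ 0} := by
    intro t
    have h9 := gv_desc_le isP_P2 128 k [x] t (by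
      intro y hy
      rw [List.mem_singleton] at hy
      rw [hy, hx])
    rw [NN_single, ← hgt] at h9
    have e1 : 2 ^ k * 128 = 2 ^ (k + 7) := by rw [pow_add]; norm_num
    rw [e1] at h9
    have h13 := h9.trans (N1_le P2 (2 ^ (k + 7)) x t)
    rw [hx] at h13
    exact h13
  have h10 : #{p ∈ range (2 ^ (k + 7)) ×ˢ range (2 ^ (k + 7)) | coeff p.2 (Y * P2 ^ p.1) ≠ 0} =
      ∑ t ∈ range (2 ^ (k + 7)), #{n ∈ range (2 ^ (k + 7)) | coeff n (Y * P2 ^ t) ≠ 0} := by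
    simp only [card_filter]
    rw [sum_product]
  have h11 : 128 * ∑ t ∈ range (2 ^ k), g t ≤
      #{p ∈ range (2 ^ (k + 7)) ×ˢ range (2 ^ (k + 7)) | coeff p.2 (Y * P2 ^ p.1) ≠ 0} := by
    rw [h10, ← h6]
    exact sum_le_sum fun t _ => h8 t
  have h12 : lam k ≤ lam (k + 7) := lam_mono (by omega)
  calc (2 ^ (k + 7)) ^ 2 = 128 * 128 * (2 ^ k) ^ 2 := by ring
    _ ≤ 128 * 128 * (lam k * ∑ t ∈ range (2 ^ k), g t) := Nat.mul_le_mul_left _ h3
    _ = 128 * lam k * (128 * ∑ t ∈ range (2 ^ k), g t) := by ring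
    _ ≤ _ := Nat.mul_le_mul (Nat.mul_le_mul_left _ h12) h11

end Pool.Agent.H161.PPNR
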