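import Mathlib
import Pool.Agent.H576.RD.Stm

/-!
# Project RD (helper576), task R20 (helper161)
-/

set_option autoImplicit false
set_option linter.unusedVariables false

namespace Pool.Agent.H161

open Pool.Agent.H576.RD Real

namespace RDR20

/-- a unit vector orthogonal to two given vectors -/
theorem exists_orth (u v : E) : ∃ w : E, ‖w‖ = 1 ∧ inner ℝ w u = 0 ∧ inner ℝ w v = 0 := by
  classical
  set K : Submodule ℝ E := Submodule.span ℝ ({u, v} : Set E) with hK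
  have h1 : Module.finrank ℝ K ≤ 2 := by
    have h2 := finrank_span_finset_le_card (R := ℝ) ({u, v} : Finset E)
    have h3 : (({u, v} : Finset E) : Set E) = ({u, v} : Set E) := by simp
    unfold Set.finrank at h2
    rw [h3] at h2
    exact h2.trans Finset.card_le_two
  have h2 : Module.finrank ℝ K + Module.finrank ℝ Kᗮ = 3 := by
    rw [Submodule.finrank_add_finrank_orthogonal]
    simp
  have h3 : Kᗮ ≠ ⊥ := by
    intro h
    rw [h, finrank_bot] at h2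
    omega
  obtain ⟨w, hw, hw0⟩ := Submodule.exists_mem_ne_zero_of_ne_bot h3
  have hn : ‖w‖ ≠ 0 := norm_ne_zero_iff.2 hw0
  have horth : ∀ z ∈ ({u, v} : Set E), inner ℝ w z = 0 := by
    intro z hz
    rw [real_inner_comm]
    exact hw z (Submodule.subset_span hz)
  refine ⟨‖w‖⁻¹ • w, ?_, ?_, ?_⟩
  · rw [norm_smul, norm_inv, norm_norm, inv_mul_cancel₀ hn]
  · rw [real_inner_smul_left, horth u (by simp), mul_zero]
  · rw [real_inner_smul_left, horth v (by simp), mul_zero]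

/-- expansion of the norm -/
theorem exp3 (M θ l : E) (κ τ L : ℝ) (hM : ‖M‖ = L) (hθ : ‖θ‖ = 1) (hl : ‖l‖ = 1)
    (h : inner ℝ θ M = 0) :
    ‖(1 / 2 : ℝ) • M + τ • l - κ • θ‖ ^ 2 =
      L ^ 2 / 4 + κ ^ 2 + τ ^ 2 + τ * inner ℝ M l - 2 * κ * τ * inner ℝ θ l := by
  have h1 : inner ℝ M M = L ^ 2 := by rw [real_inner_self_eq_norm_sq, hM]
  have h2 : inner ℝ θ θ = (1 : ℝ) := by rw [real_inner_self_eq_norm_sq, hθ]; norm_num
  have h3 : inner ℝ l l = (1 : ℝ) := by rw [real_inner_self_eq_norm_sq, hl]; norm_num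
  have h4 : inner ℝ M θ = (0 : ℝ) := by rw [real_inner_comm]; exact h
  have h5 : inner ℝ l M = inner ℝ M l := real_inner_comm _ _
  have h6 : inner ℝ l θ = inner ℝ θ l := real_inner_comm _ _
  rw [← real_inner_self_eq_norm_sq]
  simp only [inner_add_left, inner_add_right, inner_sub_left, inner_sub_right,
    real_inner_smul_left, real_inner_smul_right, h, h1, h2, h3, h4, h5, h6]
  ring

theorem exp2 (M l : E) (τ L : ℝ) (hM : ‖M‖ = L) (hl : ‖l‖ = 1) :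
    ‖M + τ • l‖ ^ 2 = L ^ 2 + 2 * τ * inner ℝ M l + τ ^ 2 := by
  have h1 : inner ℝ M M = L ^ 2 := by rw [real_inner_self_eq_norm_sq, hM]
  have h3 : inner ℝ l l = (1 : ℝ) := by rw [real_inner_self_eq_norm_sq, hl]; norm_num
  have h5 : inner ℝ l M = inner ℝ M l := real_inner_comm _ _
  rw [← real_inner_self_eq_norm_sq]
  simp only [inner_add_left, inner_add_right, real_inner_smul_left, real_inner_smul_right, h1, h3,
    h5]
  ring

/-- step (4) of the proof -/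
theorem step4 (h2 : S_R20a) {X : Set E} {L : ℝ} (hcov : ∀ z : E, ∃ x ∈ X, ‖x - z‖ ≤ 1)
    {c c' : E} (hc : c ∈ X) (hc' : c' ∈ X) (hL : ‖c' - c‖ = L)
    (hlens : ∀ z ∈ X, ‖z - c‖ < L → L ≤ ‖z - c'‖) (hL1 : 1.999999 ≤ L) (hL2 : L ≤ 2)
    {l l' : E} (hl : ‖l‖ = 1) (hl' : ‖l'‖ = 1)
    (hline : ∀ v : E, ‖v‖ ≤ 0.2 → c + v ∈ X → ∃ τ : ℝ, v = τ • l)
    (hline' : ∀ v : E, ‖v‖ ≤ 0.2 → c' + v ∈ X → ∃ τ : ℝ, v = τ • l')
    (hin : 0.013 ≤ inner ℝ (c' - c) l) : False := by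
  obtain ⟨θ, hθ, hθM, hθl⟩ := exists_orth (c' - c) l'
  obtain ⟨u, hu, hq, huc, huc', hcase⟩ := h2 X L 0.002 c c' θ hcov hc hc' hL hlens hL1 hL2
    (by norm_num) hθ hθM
  have hLsq : 3.999996 ≤ L ^ 2 := by nlinarith
  have hLsq2 : L ^ 2 ≤ 4 := by nlinarith
  have hsqrt : √(2 * (1 - L ^ 2 / 4) + 2 * (0.002 : ℝ) ^ 2) + 2 * 0.002 ≤ 0.0075 := by
    have : √(2 * (1 - L ^ 2 / 4) + 2 * (0.002 : ℝ) ^ 2) ≤ 0.0035 := by
      rw [Real.sqrt_le_left (by norm_num)]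
      norm_num
      linarith
    linarith
  have hq2 : ‖u - ((1 / 2 : ℝ) • (c + c') + (0.002 : ℝ) • θ)‖ ^ 2 ≤ 1 := by
    have := pow_le_pow_left₀ (norm_nonneg _) hq 2
    simpa using this
  rcases hcase with ⟨h3, h4⟩ | ⟨h3, h4⟩
  · -- `u` is close to `c`
    have h5 : ‖u - c‖ ≤ 0.0075 := h4.trans hsqrt
    obtain ⟨τ, hτ⟩ := hline (u - c) (by linarith) (by rw [add_sub_cancel]; exact hu)
    have hτ0 : τ ≠ 0 := by
      rintro rfl
      rw [zero_smul, sub_eq_zero] at hτ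
      exact huc hτ
    have hτn : |τ| ≤ 0.0075 := by
      rw [hτ, norm_smul, hl, mul_one] at h5
      exact h5
    have hM : ‖c - c'‖ = L := by rw [norm_sub_rev]; exact hL
    have hθM' : inner ℝ θ (c - c') = 0 := by
      rw [← neg_sub, inner_neg_right, hθM, neg_zero]
    have hin' : inner ℝ (c - c') l ≤ -0.013 := by
      rw [← neg_sub, inner_neg_left]
      linarith
    have e1 : u - c' = (c - c') + τ • l := by rw [← hτ]; abel
    have e2 : u - ((1 / 2 : ℝ) • (c + c') + (0.002 : ℝ) • θ) =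
        (1 / 2 : ℝ) • (c - c') + τ • l - (0.002 : ℝ) • θ := by
      rw [← hτ]
      module
    rw [e2, exp3 _ _ _ _ _ L hM hθ hl hθM'] at hq2
    have h6 : L ^ 2 ≤ ‖u - c'‖ ^ 2 := pow_le_pow_left₀ (by linarith) h3 2
    rw [e1, exp2 _ _ _ L hM hl] at h6
    have hθl2 : |inner ℝ θ l| ≤ 1 := by
      have := abs_real_inner_le_norm θ l
      rwa [hθ, hl, one_mul] at this
    set x : ℝ := inner ℝ (c - c') l with hx
    set y : ℝ := inner ℝ θ l with hy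
    rw [abs_le] at hτn hθl2
    rcases lt_or_gt_of_ne hτ0 with hneg | hpos
    · -- `τ < 0`
      nlinarith [mul_pos_of_neg_of_neg hneg (show x + 0.004 < 0 by linarith),
        mul_nonneg (neg_nonneg.2 hneg.le) (show 0 ≤ 1 + y by linarith),
        mul_nonneg (neg_nonneg.2 hneg.le) (show 0 ≤ 1 - y by linarith), sq_nonneg τ]
    · -- `τ > 0`
      nlinarith [mul_pos hpos (show 0 < -0.0075 - x by linarith)]
  · -- `u` is close to `c'`
    have h5 : ‖u - c'‖ ≤ 0.0075 := h4.trans hsqrt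
    obtain ⟨τ, hτ⟩ := hline' (u - c') (by linarith) (by rw [add_sub_cancel]; exact hu)
    have e1 : u - c = (c' - c) + τ • l' := by rw [← hτ]; abel
    have e2 : u - ((1 / 2 : ℝ) • (c + c') + (0.002 : ℝ) • θ) =
        (1 / 2 : ℝ) • (c' - c) + τ • l' - (0.002 : ℝ) • θ := by
      rw [← hτ]
      module
    rw [e2, exp3 _ _ _ _ _ L hL hθ hl' hθM, hθl] at hq2
    have h6 : L ^ 2 ≤ ‖u - c‖ ^ 2 := pow_le_pow_left₀ (by linarith) h3 2
    rw [e1, exp2 _ _ _ L hL hl'] at h6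
    nlinarith [sq_nonneg τ]

/-- vectors on a line -/
theorem line {X : Set E} {z : E} (h : ∀ v w : E, ‖v‖ ≤ 0.2 → ‖w‖ ≤ 0.2 → z + v ∈ X → z + w ∈ X →
    ¬ LinearIndependent ℝ ![v, w]) :
    ∃ l : E, ‖l‖ = 1 ∧ ∀ v : E, ‖v‖ ≤ 0.2 → z + v ∈ X → ∃ τ : ℝ, v = τ • l := by
  by_cases hex : ∃ v : E, ‖v‖ ≤ 0.2 ∧ z + v ∈ X ∧ v ≠ 0
  · obtain ⟨v₀, h1, h2, h3⟩ := hex
    have hn : ‖v₀‖ ≠ 0 := norm_ne_zero_iff.2 h3
    refine ⟨‖v₀‖⁻¹ • v₀, by rw [norm_smul, norm_inv, norm_norm, inv_mul_cancel₀ hn], ?_⟩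
    intro v hv hvX
    have h4 := h v₀ v h1 hv h2 hvX
    rw [LinearIndependent.pair_iff] at h4
    push Not at h4
    obtain ⟨s, t, hst, hne⟩ := h4
    have ht : t ≠ 0 := by
      intro ht
      rw [ht, zero_smul, add_zero, smul_eq_zero] at hst
      rcases hst with h5 | h5
      · exact hne h5 ht
      · exact h3 h5
    refine ⟨-(t⁻¹ * s) * ‖v₀‖, ?_⟩
    have h5 : t • v = -(s • v₀) := by
      rw [eq_neg_iff_add_eq_zero, add_comm]
      exact hst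
    have h6 : v = t⁻¹ • (t • v) := by rw [smul_smul, inv_mul_cancel₀ ht, one_smul]
    rw [h6, h5, smul_smul, mul_assoc, mul_inv_cancel₀ hn, mul_one, smul_neg, smul_smul, neg_smul]
  · push Not at hex
    obtain ⟨l, hl, _⟩ := exists_orth 0 0
    refine ⟨l, hl, fun v hv hvX => ⟨0, ?_⟩⟩
    rw [zero_smul]
    exact hex v hv hvX

/-- the choice of the direction -/
theorem choice (M l l' : E) (hl : ‖l‖ = 1) (hl' : ‖l'‖ = 1) : ∃ θ : E, ‖θ‖ = 1 ∧
    inner ℝ θ M = 0 ∧ (inner ℝ θ l) ^ 2 ≤ 3 / 4 ∧ (inner ℝ θ l') ^ 2 ≤ 3 / 4 := by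
  obtain ⟨p, hp, hpM, _⟩ := exists_orth M M
  obtain ⟨q, hq, hqM, hqp⟩ := exists_orth M p
  have hpp : inner ℝ p p = (1 : ℝ) := by rw [real_inner_self_eq_norm_sq, hp]; norm_num
  have hqq : inner ℝ q q = (1 : ℝ) := by rw [real_inner_self_eq_norm_sq, hq]; norm_num
  have hpq : inner ℝ p q = (0 : ℝ) := by rw [real_inner_comm]; exact hqp
  -- Bessel
  have bessel : ∀ m : E, ‖m‖ = 1 → (inner ℝ p m) ^ 2 + (inner ℝ q m) ^ 2 ≤ 1 := by
    intro m hm
    have hmm : inner ℝ m m = (1 : ℝ) := by rw [real_inner_self_eq_norm_sq, hm]; norm_num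
    have h1 : 0 ≤ inner ℝ (m - inner ℝ p m • p - inner ℝ q m • q)
        (m - inner ℝ p m • p - inner ℝ q m • q) := real_inner_self_nonneg
    have h2 : inner ℝ m p = inner ℝ p m := real_inner_comm _ _
    have h3 : inner ℝ m q = inner ℝ q m := real_inner_comm _ _
    have h4 : inner ℝ (m - inner ℝ p m • p - inner ℝ q m • q)
        (m - inner ℝ p m • p - inner ℝ q m • q) = 1 - (inner ℝ p m) ^ 2 - (inner ℝ q m) ^ 2 := by
      simp only [inner_sub_left, inner_sub_right, real_inner_smul_left, real_inner_smul_right,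
        hpp, hqq, hpq, hqp, hmm, h2, h3]
      ring
    rw [h4] at h1
    linarith
  have hs : √(3 : ℝ) ^ 2 = 3 := Real.sq_sqrt (by norm_num)
  set s : ℝ := √(3 : ℝ) with hsdef
  -- three directions
  have hnorm : ∀ α β : ℝ, α ^ 2 + β ^ 2 = 1 → ‖α • p + β • q‖ = 1 := by
    intro α β h
    have h1 : ‖α • p + β • q‖ ^ 2 = 1 := by
      rw [← real_inner_self_eq_norm_sq]
      simp only [inner_add_left, inner_add_right, real_inner_smul_left, real_inner_smul_right,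
        hpp, hqq, hpq, hqp]
      linarith
    have h2 := norm_nonneg (α • p + β • q)
    rcases sq_eq_one_iff.1 h1 with h3 | h3
    · exact h3
    · linarith
  have hort : ∀ α β : ℝ, inner ℝ (α • p + β • q) M = 0 := by
    intro α β
    rw [inner_add_left, real_inner_smul_left, real_inner_smul_left, hpM, hqM]
    ring
  have hval : ∀ (α β : ℝ) (m : E), inner ℝ (α • p + β • q) m =
      α * inner ℝ p m + β * inner ℝ q m := by
    intro α β m
    rw [inner_add_left, real_inner_smul_left, real_inner_smul_left]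
  have b1 := bessel l hl
  have b2 := bessel l' hl'
  by_contra hcon
  push Not at hcon
  have c1 := hcon ((1 : ℝ) • p + (0 : ℝ) • q) (hnorm _ _ (by norm_num)) (hort _ _)
  have c2 := hcon ((1 / 2 : ℝ) • p + (s / 2) • q) (hnorm _ _ (by linear_combination (1 / 4 : ℝ) * hs))
    (hort _ _)
  have c3 := hcon ((-1 / 2 : ℝ) • p + (s / 2) • q) (hnorm _ _ (by linear_combination (1 / 4 : ℝ) * hs))
    (hort _ _)
  rw [hval, hval] at c1 c2 c3
  set x := inner ℝ p l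
  set y := inner ℝ q l
  set x' := inner ℝ p l'
  set y' := inner ℝ q l'
  have key : ∀ x y : ℝ, x ^ 2 + y ^ 2 ≤ 1 →
      ¬ (3 / 4 < (1 * x + 0 * y) ^ 2 ∧ 3 / 4 < (1 / 2 * x + s / 2 * y) ^ 2) ∧
      ¬ (3 / 4 < (1 * x + 0 * y) ^ 2 ∧ 3 / 4 < (-1 / 2 * x + s / 2 * y) ^ 2) ∧
      ¬ (3 / 4 < (1 / 2 * x + s / 2 * y) ^ 2 ∧ 3 / 4 < (-1 / 2 * x + s / 2 * y) ^ 2) := by
    intro x y h
    have e1 : (1 / 2 * x + s / 2 * y) ^ 2 = x ^ 2 / 4 + s / 2 * (x * y) + 3 / 4 * y ^ 2 := by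
      linear_combination (y ^ 2 / 4) * hs
    have e2 : (-1 / 2 * x + s / 2 * y) ^ 2 = x ^ 2 / 4 - s / 2 * (x * y) + 3 / 4 * y ^ 2 := by
      linear_combination (y ^ 2 / 4) * hs
    have e3 : (x / 2 - s / 2 * y) ^ 2 = x ^ 2 / 4 - s / 2 * (x * y) + 3 / 4 * y ^ 2 := by
      linear_combination (y ^ 2 / 4) * hs
    have e4 : (x / 2 + s / 2 * y) ^ 2 = x ^ 2 / 4 + s / 2 * (x * y) + 3 / 4 * y ^ 2 := by
      linear_combination (y ^ 2 / 4) * hs
    have p3 := sq_nonneg (x / 2 - s / 2 * y)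
    have p4 := sq_nonneg (x / 2 + s / 2 * y)
    rw [e3] at p3
    rw [e4] at p4
    rw [e1, e2]
    refine ⟨?_, ?_, ?_⟩
    · rintro ⟨q1, q2⟩
      nlinarith
    · rintro ⟨q1, q2⟩
      nlinarith
    · rintro ⟨q1, q2⟩
      nlinarith [sq_nonneg x]
  obtain ⟨k1, k2, k3⟩ := key x y b1
  obtain ⟨k1', k2', k3'⟩ := key x' y' b2
  -- pigeonhole
  by_cases d1 : (1 * x + 0 * y) ^ 2 ≤ 3 / 4
  · have d1' := c1 d1
    by_cases d2 : (1 / 2 * x + s / 2 * y) ^ 2 ≤ 3 / 4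
    · exact k1' ⟨d1', c2 d2⟩
    · push Not at d2
      by_cases d3 : (-1 / 2 * x + s / 2 * y) ^ 2 ≤ 3 / 4
      · exact k2' ⟨d1', c3 d3⟩
      · push Not at d3
        exact k3 ⟨d2, d3⟩
  · push Not at d1
    by_cases d2 : (1 / 2 * x + s / 2 * y) ^ 2 ≤ 3 / 4
    · by_cases d3 : (-1 / 2 * x + s / 2 * y) ^ 2 ≤ 3 / 4
      · exact k3' ⟨c2 d2, c3 d3⟩
      · push Not at d3
        exact k2 ⟨d1, d3⟩
    · push Not at d2
      exact k1 ⟨d1, d2⟩

/-- step (3) for one of the two points -/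
theorem step3 {X : Set E} {L : ℝ} {c c' u θ l : E} (hL : ‖c' - c‖ = L) (hL1 : 1.999999 ≤ L)
    (hL2 : L ≤ 2) (hl : ‖l‖ = 1) (hθ : ‖θ‖ = 1) (hθM : inner ℝ θ (c' - c) = 0)
    (hθl : (inner ℝ θ l) ^ 2 ≤ 3 / 4) (hu : u ∈ X) (huc : u ≠ c)
    (hline : ∀ v : E, ‖v‖ ≤ 0.2 → c + v ∈ X → ∃ τ : ℝ, v = τ • l)
    (hq : ‖u - ((1 / 2 : ℝ) • (c + c') + (0.05 : ℝ) • θ)‖ ≤ 1) (hclose : ‖u - c‖ ≤ 0.18) :
    ∃ m : E, ‖m‖ = 1 ∧ 0.013 ≤ inner ℝ (c' - c) m ∧
      ∀ v : E, ‖v‖ ≤ 0.2 → c + v ∈ X → ∃ τ : ℝ, v = τ • m := by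
  have hLsq : 3.999996 ≤ L ^ 2 := by nlinarith
  -- the core computation
  have core : ∀ (m : E) (τ : ℝ), ‖m‖ = 1 → (inner ℝ θ m) ^ 2 ≤ 3 / 4 → 0 < τ → u - c = τ • m →
      0.013 ≤ inner ℝ (c' - c) m := by
    intro m τ hm hθm hτ hum
    have hM : ‖c - c'‖ = L := by rw [norm_sub_rev]; exact hL
    have hθM' : inner ℝ θ (c - c') = 0 := by
      rw [← neg_sub, inner_neg_right, hθM, neg_zero]
    have e0 : inner ℝ (c - c') m = -inner ℝ (c' - c) m := by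
      rw [← neg_sub, inner_neg_left]
    have e2 : u - ((1 / 2 : ℝ) • (c + c') + (0.05 : ℝ) • θ) =
        (1 / 2 : ℝ) • (c - c') + τ • m - (0.05 : ℝ) • θ := by
      rw [← hum]
      module
    have hq2 : ‖u - ((1 / 2 : ℝ) • (c + c') + (0.05 : ℝ) • θ)‖ ^ 2 ≤ 1 := by
      have := pow_le_pow_left₀ (norm_nonneg _) hq 2
      simpa using this
    rw [e2, exp3 _ _ _ _ _ L hM hθ hm hθM', e0] at hq2
    set x : ℝ := inner ℝ (c' - c) m with hx
    set y : ℝ := inner ℝ θ m with hy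
    have hy1 : y ≤ 0.8661 := by nlinarith
    -- `τ (x + 0.1 y) ≥ κ² - t² + τ² ≥ 0.0999 τ`
    have h1 : 0.0999 * τ ≤ τ * (x + 0.1 * y) := by
      nlinarith [sq_nonneg (τ - 0.04995)]
    have h2 : 0.0999 ≤ x + 0.1 * y := by
      by_contra h3
      push Not at h3
      have := mul_lt_mul_of_pos_left h3 hτ
      linarith
    linarith
  obtain ⟨τ, hτ⟩ := hline (u - c) (by linarith) (by rw [add_sub_cancel]; exact hu)
  have hτ0 : τ ≠ 0 := by
    rintro rfl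
    rw [zero_smul, sub_eq_zero] at hτ
    exact huc hτ
  rcases lt_or_gt_of_ne hτ0 with hneg | hpos
  · refine ⟨-l, by rw [norm_neg, hl], core (-l) (-τ) (by rw [norm_neg, hl])
      (by rw [inner_neg_right, neg_sq]; exact hθl) (by linarith)
      (by rw [hτ, smul_neg, neg_smul, neg_neg]), ?_⟩
    intro v hv hvX
    obtain ⟨σ, hσ⟩ := hline v hv hvX
    exact ⟨-σ, by rw [hσ, smul_neg, neg_smul, neg_neg]⟩
  · exact ⟨l, hl, core l τ hl hθl hpos hτ, hline⟩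

end RDR20

open RDR20 in
/-- **R20.** -/
theorem rd_r20 (h1 : S_FINK) (h2 : S_R20a) : S_R20 := by
  intro r X L hDel hN hLens hL1 hL2 x hx
  by_contra hcon
  push Not at hcon
  -- no independent pair at any point
  have hno : ∀ z ∈ X, ∀ v w : E, ‖v‖ ≤ 0.2 → ‖w‖ ≤ 0.2 → z + v ∈ X → z + w ∈ X →
      ¬ LinearIndependent ℝ ![v, w] := by
    intro z hz v w hv hw hvX hwX hli
    obtain ⟨g, hg⟩ := hN z hz x hx
    refine hcon (g v) (g w) (by rw [LinearIsometryEquiv.norm_map]; exact hv)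
      (by rw [LinearIsometryEquiv.norm_map]; exact hw) ((hg v (by linarith)).1 hvX)
      ((hg w (by linarith)).1 hwX) ?_
    rw [LinearIndependent.pair_iff] at hli ⊢
    intro s t hst
    apply hli s t
    rw [← map_smul, ← map_smul, ← map_add] at hst
    exact (LinearIsometryEquiv.map_eq_zero_iff g).1 hst
  obtain ⟨b, hb, hbL, hlens⟩ := hLens x hx
  obtain ⟨l, hl, hline⟩ := line (hno x hx)
  obtain ⟨l', hl', hline'⟩ := line (hno b hb)
  obtain ⟨θ, hθ, hθM, hθl, hθl'⟩ := choice (b - x) l l' hl hl'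
  obtain ⟨u, hu, hq, hux, hub, hcase⟩ := h2 X L 0.05 x b θ hDel.cov hx hb hbL hlens hL1 hL2
    (by norm_num) hθ hθM
  have hLsq : 3.999996 ≤ L ^ 2 := by nlinarith
  have hsqrt : √(2 * (1 - L ^ 2 / 4) + 2 * (0.05 : ℝ) ^ 2) + 2 * 0.05 ≤ 0.18 := by
    have : √(2 * (1 - L ^ 2 / 4) + 2 * (0.05 : ℝ) ^ 2) ≤ 0.08 := by
      rw [Real.sqrt_le_left (by norm_num)]
      norm_num
      linarith
    linarith
  have hlens' : ∀ z ∈ X, ‖z - b‖ < L → L ≤ ‖z - x‖ := by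
    intro z hz h3
    by_contra h4
    push Not at h4
    exact absurd (hlens z hz h4) (not_le.2 h3)
  rcases hcase with ⟨_, h4⟩ | ⟨_, h4⟩
  · obtain ⟨m, hm, hin, hlinem⟩ := step3 hbL hL1 hL2 hl hθ hθM hθl hu hux hline hq
      (h4.trans hsqrt)
    exact step4 h2 hDel.cov hx hb hbL hlens hL1 hL2 hm hl' hlinem hline' hin
  · have hbL' : ‖x - b‖ = L := by rw [norm_sub_rev]; exact hbL
    have hθM' : inner ℝ θ (x - b) = 0 := by
      rw [← neg_sub, inner_neg_right, hθM, neg_zero]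
    have hq' : ‖u - ((1 / 2 : ℝ) • (b + x) + (0.05 : ℝ) • θ)‖ ≤ 1 := by
      rw [add_comm b x]
      exact hq
    obtain ⟨m, hm, hin, hlinem⟩ := step3 hbL' hL1 hL2 hl' hθ hθM' hθl' hu hub hline' hq'
      (h4.trans hsqrt)
    exact step4 h2 hDel.cov hb hx hbL' hlens' hL1 hL2 hm hl hlinem hline hin

end Pool.Agent.H161
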