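import Pool.Agent.H683.SC.Stm

/-! The state sum of a graph is its subgraph component polynomial at `x = -1`, `y = q`. -/

set_option autoImplicit false

namespace Pool.Agent.H161.SCC

open Pool.Agent.H683.SC Pool.Agent.H683.MC Pool.Agent.NPC Pool.Agent.H633R2

theorem reach_const {V β : Type} (G : SimpleGraph V) (f : V → β) (h : ∀ u v, G.Adj u v → f u = f v)
    {u v : V} (r : G.Reachable u v) : f u = f v := by
  obtain ⟨p⟩ := r
  induction p with
  | nil => rfl
  | cons h' p ih => exact (h _ _ h').trans ih

open Classical in
/-- The number of the colorings of a set that are constant on the components. -/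
theorem count_col {n : ℕ} (G : SimpleGraph (Fin n)) (q : ℕ) (A : Finset (Fin n)) :
    (Finset.univ.filter fun f : Fin n → Option (Fin q) =>
      (Finset.univ.filter fun v => f v ≠ none) = A ∧ ∀ u v, G.Adj u v → cmp (f u) (f v)).card =
      q ^ Nat.card (G.induce (A : Set (Fin n))).ConnectedComponent := by
  set H := G.induce (A : Set (Fin n)) with hH
  have : Fintype H.ConnectedComponent := Fintype.ofFinite _
  have hc : q ^ Nat.card H.ConnectedComponent = (Finset.univ : Finset (H.ConnectedComponent → Fin q)).card := by
    rw [Finset.card_univ, Fintype.card_fun, Fintype.card_fin, Nat.card_eq_fintype_card]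
  rw [hc]
  symm
  set Φ : (H.ConnectedComponent → Fin q) → (Fin n → Option (Fin q)) := fun h v =>
    if hv : v ∈ A then some (h (H.connectedComponentMk ⟨v, hv⟩)) else none with hΦ
  have hΦm : ∀ h (v : Fin n) (hv : v ∈ A), Φ h v = some (h (H.connectedComponentMk ⟨v, hv⟩)) :=
    fun h v hv => dif_pos hv
  have hΦn : ∀ h (v : Fin n), v ∉ A → Φ h v = none := fun h v hv => dif_neg hv
  refine Finset.card_bij (fun h _ => Φ h) ?_ ?_ ?_
  · intro h _
    refine Finset.mem_filter.2 ⟨Finset.mem_univ _, ?_, ?_⟩
    · ext v
      rw [Finset.mem_filter]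
      constructor
      · rintro ⟨_, h1⟩
        by_contra h2
        exact h1 (hΦn h v h2)
      · intro h1
        refine ⟨Finset.mem_univ _, ?_⟩
        rw [hΦm h v h1]
        exact Option.some_ne_none _
    · intro u v huv
      by_cases hu : u ∈ A
      · by_cases hv : v ∈ A
        · right
          right
          rw [hΦm h u hu, hΦm h v hv]
          have hadj : H.Adj ⟨u, hu⟩ ⟨v, hv⟩ := huv
          rw [SimpleGraph.ConnectedComponent.eq.2 hadj.reachable]
        · right
          left
          exact hΦn h v hv
      · left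
        exact hΦn h u hu
  · intro h _ h' _ he
    funext C
    induction C using SimpleGraph.ConnectedComponent.ind with
    | h v =>
      obtain ⟨v, hv⟩ := v
      have h1 : Φ h v = Φ h' v := congrFun he v
      rw [hΦm h v hv, hΦm h' v hv] at h1
      exact Option.some.inj h1
  · intro f hf
    rw [Finset.mem_filter] at hf
    obtain ⟨_, hA, hcp⟩ := hf
    have hmem : ∀ v, v ∈ A ↔ f v ≠ none := by
      intro v
      rw [← hA, Finset.mem_filter]
      simp
    have hconst : ∀ u v : (A : Set (Fin n)), H.Reachable u v → f u.1 = f v.1 := by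
      intro u v huv
      refine reach_const H (fun w => f w.1) ?_ huv
      intro x y hxy
      have h1 : G.Adj x.1 y.1 := hxy
      rcases hcp _ _ h1 with h2 | h2 | h2
      · exact absurd h2 ((hmem _).1 x.2)
      · exact absurd h2 ((hmem _).1 y.2)
      · exact h2
    have hrep : ∀ C : H.ConnectedComponent, ∃ c : Fin q, ∀ v : (A : Set (Fin n)),
        H.connectedComponentMk v = C → f v.1 = some c := by
      intro C
      induction C using SimpleGraph.ConnectedComponent.ind with
      | h w =>
        obtain ⟨c, hc⟩ := Option.ne_none_iff_exists'.1 ((hmem _).1 w.2)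
        refine ⟨c, fun v hv => ?_⟩
        rw [← hc]
        exact hconst v w (SimpleGraph.ConnectedComponent.eq.1 hv)
    choose g hg using hrep
    refine ⟨g, Finset.mem_univ _, ?_⟩
    funext v
    show Φ g v = f v
    by_cases hv : v ∈ A
    · rw [hΦm g v hv]
      exact (hg _ ⟨v, hv⟩ rfl).symm
    · rw [hΦn g v hv]
      have := (hmem v).not.1 hv
      rw [not_not] at this
      exact this.symm

open Classical in
theorem prod_wgt {n q : ℕ} (f : Fin n → Option (Fin q)) :
    ∏ v, wgt (f v) = (-1) ^ (Finset.univ.filter fun v => f v ≠ none).card := by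
  have h1 : ∀ v, wgt (f v) = if f v ≠ none then (-1 : ℤ) else 1 := by
    intro v
    unfold wgt
    by_cases h : f v = none <;> simp [h]
  rw [Finset.prod_congr rfl (fun v _ => h1 v), Finset.prod_ite, Finset.prod_const, Finset.prod_const_one,
    mul_one]

theorem card_comp_le {n : ℕ} (G : SimpleGraph (Fin n)) (A : Finset (Fin n)) :
    Nat.card (G.induce (A : Set (Fin n))).ConnectedComponent ≤ A.card := by
  have h1 : Nat.card (G.induce (A : Set (Fin n))).ConnectedComponent ≤ Nat.card (A : Set (Fin n)) := by
    refine Nat.card_le_card_of_surjective (G.induce (A : Set (Fin n))).connectedComponentMk ?_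
    intro C
    induction C using SimpleGraph.ConnectedComponent.ind with
    | h v => exact ⟨v, rfl⟩
  have h2 : Nat.card (A : Set (Fin n)) = A.card := by
    rw [Nat.card_coe_set_eq, Set.ncard_coe_finset]
  omega

open Classical in
theorem SS_eq (M : List (List Bool)) (q : ℕ) : SS M q =
    ∑ A : Finset (Fin M.length), (-1) ^ A.card *
      (q : ℤ) ^ Nat.card ((graphOf M).induce (A : Set (Fin M.length))).ConnectedComponent := by
  unfold SS
  rw [← Finset.sum_fiberwise (Finset.univ : Finset (Fin M.length → Option (Fin q)))
    (fun f => Finset.univ.filter fun v => f v ≠ none)]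
  refine Finset.sum_congr rfl fun A _ => ?_
  have h1 := count_col (graphOf M) q A
  have h2 : (q : ℤ) ^ Nat.card ((graphOf M).induce (A : Set (Fin M.length))).ConnectedComponent =
      ((Finset.univ.filter fun f : Fin M.length → Option (Fin q) =>
      (Finset.univ.filter fun v => f v ≠ none) = A ∧
        ∀ u v, (graphOf M).Adj u v → cmp (f u) (f v)).card : ℤ) := by
    rw [h1]
    push_cast
    rfl
  have h3 : ∀ f ∈ (Finset.univ.filter fun f : Fin M.length → Option (Fin q) =>
      (Finset.univ.filter fun v => f v ≠ none) = A),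
      (if ∀ u v, (graphOf M).Adj u v → cmp (f u) (f v) then ∏ v, wgt (f v) else 0) =
      if ∀ u v, (graphOf M).Adj u v → cmp (f u) (f v) then (-1 : ℤ) ^ A.card else 0 := by
    intro f hf
    rw [Finset.mem_filter] at hf
    rw [prod_wgt, hf.2]
  rw [h2, Finset.sum_congr rfl h3, ← Finset.sum_filter, Finset.filter_filter, Finset.sum_const,
    nsmul_eq_mul, mul_comm]

theorem COMP : S_COMP := by
  classical
  intro M q
  rw [SS_eq]
  unfold Qv
  set n := M.length with hn
  set c : Finset (Fin n) → ℕ := fun A => Nat.card ((graphOf M).induce (A : Set (Fin n))).ConnectedComponent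
    with hc
  have hmaps : ∀ A ∈ (Finset.univ : Finset (Finset (Fin n))),
      ((A.card, c A) : ℕ × ℕ) ∈ Finset.range (n + 1) ×ˢ Finset.range (n + 1) := by
    intro A _
    have h1 : A.card ≤ n := by
      have := Finset.card_le_univ A
      rwa [Fintype.card_fin] at this
    have h2 : c A ≤ A.card := card_comp_le _ A
    rw [Finset.mem_product, Finset.mem_range, Finset.mem_range]
    constructor
    · show A.card < n + 1
      omega
    · show c A < n + 1
      omega
  rw [← Finset.sum_fiberwise_of_maps_to hmaps, Finset.sum_product]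
  refine Finset.sum_congr rfl fun i _ => Finset.sum_congr rfl fun j _ => ?_
  have h3 : ∀ A ∈ Finset.univ.filter (fun A : Finset (Fin n) => ((A.card, c A) : ℕ × ℕ) = (i, j)),
      (-1 : ℤ) ^ A.card * (q : ℤ) ^ c A = (-1) ^ i * (q : ℤ) ^ j := by
    intro A hA
    rw [Finset.mem_filter] at hA
    have h4 := hA.2
    rw [Prod.mk.injEq] at h4
    rw [h4.1, h4.2]
  rw [Finset.sum_congr rfl h3, Finset.sum_const, nsmul_eq_mul, mul_comm]
  congr 2
  unfold qco
  congr 1
  ext A
  rw [Finset.mem_filter, Finset.mem_filter, Prod.mk.injEq]

end Pool.Agent.H161.SCC
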