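import Pool.Agent.H770.GS.TE
import Pool.Agent.H187.GSD

/-!
# Project TE (helper770): the statement `S_Dex` (after the proofs of `S_D`, `S_D1`)
-/

set_option autoImplicit false

open MeasureTheory Set intervalIntegral

namespace Pool.Agent.H161.TEDex

open Pool.Agent.H770.GS Pool.Agent.H187.GSD

/-! ### The left kernel -/

theorem NLd (v a : ℝ) : HasDerivAt (NL v)
    (a * (W (a - v) * (1 + v ^ 2 - v * a) - W (a + v) * (1 + v ^ 2 + v * a))) a :=
  NL_deriv v a

theorem NL0 (v : ℝ) : NL v 0 = 0 := by
  unfold NL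
  have h0 : W (0 - v) = W (0 + v) := by
    rw [zero_sub, zero_add, W_even]
  rw [h0]
  ring

theorem beta_cont (v : ℝ) : Continuous (fun a => W (a - v) * (1 + v ^ 2 - v * a) -
    W (a + v) * (1 + v ^ 2 + v * a)) :=
  ((Wsub_cont v).mul (continuous_const.sub (continuous_const.mul continuous_id))).sub
    ((Wadd_cont v).mul (continuous_const.add (continuous_const.mul continuous_id)))

theorem NL_bd (v R : ℝ) : ∃ B : ℝ, 0 ≤ B ∧ ∀ a ∈ Icc (0:ℝ) R, |NL v a| ≤ B * a ^ 2 := by
  obtain ⟨B, hB⟩ := (isCompact_Icc (a := (0:ℝ)) (b := R)).exists_bound_of_continuousOn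
    (beta_cont v).continuousOn
  refine ⟨max B 0, le_max_right _ _, fun a ha => ?_⟩
  have h := intervalIntegral.integral_eq_sub_of_hasDerivAt
    (a := (0:ℝ)) (b := a) (fun x _ => NLd v x)
    ((continuous_id.mul (beta_cont v)).intervalIntegrable _ _)
  rw [NL0, sub_zero] at h
  rw [← h]
  have h2 := intervalIntegral.norm_integral_le_of_norm_le_const (a := (0:ℝ)) (b := a)
    (C := a * max B 0) (f := fun x => x * (W (x - v) * (1 + v ^ 2 - v * x) -
      W (x + v) * (1 + v ^ 2 + v * x))) (by
      intro x hx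
      rw [uIoc_of_le ha.1] at hx
      rw [norm_mul, Real.norm_eq_abs, abs_of_pos hx.1]
      exact mul_le_mul hx.2 ((hB x ⟨hx.1.le, hx.2.trans ha.2⟩).trans (le_max_left _ _))
        (norm_nonneg _) ha.1)
  rw [Real.norm_eq_abs, sub_zero, abs_of_nonneg ha.1] at h2
  refine h2.trans (le_of_eq ?_)
  ring

theorem int_left {r c v : ℝ} {R : ℝ} (hR : 0 < R) :
    IntervalIntegrable (fun a => NL v a * (Mc r c a / a ^ 2)) volume 0 R := by
  rw [intervalIntegrable_iff_integrableOn_Ioc_of_le hR.le]
  obtain ⟨B, hB0, hB⟩ := NL_bd v R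
  obtain ⟨C, hC⟩ := (isCompact_Icc (a := (0:ℝ)) (b := R)).exists_bound_of_continuousOn
    (Pool.Agent.H187.GSD.Mc_cont r c).continuousOn
  have hNLc : Continuous (NL v) := by
    rw [continuous_iff_continuousAt]
    exact fun x => (NLd v x).continuousAt
  have hmeas : AEStronglyMeasurable (fun a => NL v a * (Mc r c a / a ^ 2))
      (volume.restrict (Ioc 0 R)) := by
    apply ContinuousOn.aestronglyMeasurable _ measurableSet_Ioc
    apply hNLc.continuousOn.mul
    apply ContinuousOn.div (Pool.Agent.H187.GSD.Mc_cont r c).continuousOn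
      (continuous_pow 2).continuousOn
    intro a ha
    exact pow_ne_zero 2 ha.1.ne'
  refine ⟨hmeas, .restrict_of_bounded (C := B * C) (by simp) ?_⟩
  rw [ae_restrict_iff' measurableSet_Ioc]
  refine Filter.Eventually.of_forall fun a ha => ?_
  have ha' : a ∈ Icc (0:ℝ) R := ⟨ha.1.le, ha.2⟩
  have h1 := hB a ha'
  have h2 := hC a ha'
  have ha2 : 0 < a ^ 2 := pow_pos ha.1 2
  rw [Real.norm_eq_abs] at h2
  rw [Real.norm_eq_abs, abs_mul, abs_div, abs_of_pos ha2]
  calc |NL v a| * (|Mc r c a| / a ^ 2) ≤ B * a ^ 2 * (C / a ^ 2) := by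
        apply mul_le_mul h1 _ (by positivity) (by positivity)
        exact div_le_div_of_nonneg_right h2 ha2.le
    _ = B * C := by
        rw [mul_assoc, mul_div_cancel₀ _ ha2.ne']

theorem lim_left (r c v : ℝ) : Filter.Tendsto (fun a => NL v a * (nL r (c * a) / a))
    (nhdsWithin 0 (Ioi 0)) (nhds 0) := by
  have h1 : Filter.Tendsto (fun a => NL v a / a) (nhdsWithin 0 (Ioi 0)) (nhds 0) := by
    have h := (NLd v 0).tendsto_slope
    rw [zero_mul] at h
    have h' : Filter.Tendsto (slope (NL v) 0) (nhdsWithin 0 (Ioi 0)) (nhds 0) :=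
      h.mono_left (nhdsWithin_mono _ (fun x hx => ne_of_gt hx))
    refine h'.congr (fun a => ?_)
    rw [slope_def_field, NL0, sub_zero, sub_zero]
  have h2 : Filter.Tendsto (fun a => nL r (c * a)) (nhdsWithin 0 (Ioi 0)) (nhds (nL r (c * 0))) :=
    ((n_cont r c).tendsto 0).mono_left nhdsWithin_le_nhds
  have h3 := h1.mul h2
  rw [zero_mul] at h3
  refine h3.congr (fun a => ?_)
  ring

/-! ### The statement -/

theorem s_Dex : S_Dex := by
  intro r c v hr hc hv hvr hcv
  have hrv : 0 < r - v := by linarith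
  have hle : r - v ≤ r + v := by linarith
  -- continuity of the pieces
  have hn := n_cont r c
  have hWs := Wsub_cont v
  have hWa := Wadd_cont v
  -- the coefficient `κ`
  obtain ⟨κm, hκm⟩ : ∃ κm, κm = nL r (c * (r - v)) / (r - v) := ⟨_, rfl⟩
  obtain ⟨κp, hκp⟩ : ∃ κp, κp = nL r (c * (r + v)) / (r + v) := ⟨_, rfl⟩
  -- right part
  have hright : (∫ a in (r - v)..(r + v), W (a - v) * (1 + v ^ 2 - v * a) * nL r (c * a)) =
      NR r v (r + v) * κp - NR r v (r - v) * κm +
        ∫ a in (r - v)..(r + v), NR r v a * (Mc r c a / a ^ 2) := by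
    have hpos : ∀ a ∈ uIcc (r - v) (r + v), 0 < a := by
      intro a ha
      rw [uIcc_of_le hle] at ha
      exact lt_of_lt_of_le hrv ha.1
    have hder : ∀ a ∈ uIcc (r - v) (r + v),
        HasDerivAt (fun a => NR r v a * (nL r (c * a) / a))
          (W (a - v) * (1 + v ^ 2 - v * a) * nL r (c * a) - NR r v a * (Mc r c a / a ^ 2)) a := by
      intro a ha
      have ha0 : a ≠ 0 := (hpos a ha).ne'
      have h := (NR_deriv r v a).mul (kap_deriv r c ha0)
      refine h.congr_deriv ?_
      field_simp
      ring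
    have hc1' : ContinuousOn (fun a => W (a - v) * (1 + v ^ 2 - v * a) * nL r (c * a))
        (uIcc (r - v) (r + v)) := by
      apply Continuous.continuousOn
      exact (hWs.mul (continuous_const.sub (continuous_const.mul continuous_id))).mul hn
    have hc2' : ContinuousOn (fun a => NR r v a * (Mc r c a / a ^ 2)) (uIcc (r - v) (r + v)) := by
      apply ContinuousOn.mul (NR_cont r v).continuousOn
      apply ContinuousOn.div (Pool.Agent.H187.GSD.Mc_cont r c).continuousOn (continuous_pow 2).continuousOn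
      intro a ha
      exact pow_ne_zero 2 (hpos a ha).ne'
    have hi1 : IntervalIntegrable (fun a => W (a - v) * (1 + v ^ 2 - v * a) * nL r (c * a))
      volume (r - v) (r + v) := hc1'.intervalIntegrable
    have hi2 : IntervalIntegrable (fun a => NR r v a * (Mc r c a / a ^ 2))
      volume (r - v) (r + v) := hc2'.intervalIntegrable
    have h := intervalIntegral.integral_eq_sub_of_hasDerivAt hder (hi1.sub hi2)
    rw [intervalIntegral.integral_sub hi1 hi2] at h
    rw [hκm, hκp]
    linarith
  -- left part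
  have hcb : Continuous (fun a => W (a - v) * (1 + v ^ 2 - v * a) -
      W (a + v) * (1 + v ^ 2 + v * a)) :=
    (hWs.mul (continuous_const.sub (continuous_const.mul continuous_id))).sub
      (hWa.mul (continuous_const.add (continuous_const.mul continuous_id)))
  have hleft : κm * ((v * (r - v) - 1) * W (r - v - v) + (v * (r - v) + 1) * W (r - v + v)) +
      (∫ a in (0:ℝ)..(r - v), NL v a * (Mc r c a / a ^ 2)) =
      ∫ a in (0:ℝ)..(r - v), (W (a - v) * (1 + v ^ 2 - v * a) - W (a + v) * (1 + v ^ 2 + v * a)) *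
        nL r (c * a) := by
    have hi1 : IntervalIntegrable (fun a => (W (a - v) * (1 + v ^ 2 - v * a) -
        W (a + v) * (1 + v ^ 2 + v * a)) * nL r (c * a)) volume 0 (r - v) :=
      (hcb.mul hn).intervalIntegrable _ _
    have hi2 : IntervalIntegrable (fun a => NL v a * (Mc r c a / a ^ 2)) volume 0 (r - v) :=
      int_left hrv
    have hderiv : ∀ x ∈ Ioo (0:ℝ) (r - v), HasDerivAt (fun a => NL v a * (nL r (c * a) / a))
        ((W (x - v) * (1 + v ^ 2 - v * x) - W (x + v) * (1 + v ^ 2 + v * x)) * nL r (c * x) -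
          NL v x * (Mc r c x / x ^ 2)) x := by
      intro x hx
      have hx0 : x ≠ 0 := hx.1.ne'
      have h := (NLd v x).mul (kap_deriv r c hx0)
      refine h.congr_deriv ?_
      field_simp
      ring
    have hb : Filter.Tendsto (fun a => NL v a * (nL r (c * a) / a)) (nhdsWithin (r - v) (Iio (r - v)))
        (nhds (NL v (r - v) * κm)) := by
      have h := ((NLd v (r - v)).mul (kap_deriv r c hrv.ne')).continuousAt
      rw [hκm]
      exact (h : Filter.Tendsto _ _ _).mono_left nhdsWithin_le_nhds
    have h := intervalIntegral.integral_eq_sub_of_hasDerivAt_of_tendsto hrv hderiv (hi1.sub hi2)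
      (lim_left r c v) hb
    rw [intervalIntegral.integral_sub hi1 hi2] at h
    have h2 : NL v (r - v) = (v * (r - v) - 1) * W (r - v - v) +
        (v * (r - v) + 1) * W (r - v + v) := rfl
    rw [h2] at h
    linarith
  -- `Qf - v Qd`
  have hQ : Qf r c v - v * Qd r c v =
      (∫ a in (0:ℝ)..(r - v), (W (a - v) * (1 + v ^ 2 - v * a) - W (a + v) * (1 + v ^ 2 + v * a)) *
        nL r (c * a)) +
      (∫ a in (r - v)..(r + v), W (a - v) * (1 + v ^ 2 - v * a) * nL r (c * a)) -
      v * (W r * (nL r (c * (r + v)) + nL r (c * (r - v)))) := by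
    have i1 : ∀ x y : ℝ, IntervalIntegrable (fun a => W (a - v) * nL r (c * a)) volume x y :=
      fun x y => (hWs.mul hn).intervalIntegrable _ _
    have i2 : ∀ x y : ℝ, IntervalIntegrable (fun a => W (a + v) * nL r (c * a)) volume x y :=
      fun x y => (hWa.mul hn).intervalIntegrable _ _
    have i3 : ∀ x y : ℝ, IntervalIntegrable (fun a => (a - v) * W (a - v) * nL r (c * a))
        volume x y :=
      fun x y => (((continuous_id.sub continuous_const).mul hWs).mul hn).intervalIntegrable _ _
    have i4 : ∀ x y : ℝ, IntervalIntegrable (fun a => (a + v) * W (a + v) * nL r (c * a))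
        volume x y :=
      fun x y => (((continuous_id.add continuous_const).mul hWa).mul hn).intervalIntegrable _ _
    have i5 : ∀ x y : ℝ, IntervalIntegrable
        (fun a => W (a - v) * (1 + v ^ 2 - v * a) * nL r (c * a)) volume x y :=
      fun x y => ((hWs.mul (continuous_const.sub (continuous_const.mul continuous_id))).mul
        hn).intervalIntegrable _ _
    have i6 : ∀ x y : ℝ, IntervalIntegrable
        (fun a => W (a + v) * (1 + v ^ 2 + v * a) * nL r (c * a)) volume x y :=
      fun x y => ((hWa.mul (continuous_const.add (continuous_const.mul continuous_id))).mul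
        hn).intervalIntegrable _ _
    have e1 : (∫ a in (0:ℝ)..(r + v), W (a - v) * nL r (c * a)) -
        v * (∫ a in (0:ℝ)..(r + v), (a - v) * W (a - v) * nL r (c * a)) =
        ∫ a in (0:ℝ)..(r + v), W (a - v) * (1 + v ^ 2 - v * a) * nL r (c * a) := by
      rw [← intervalIntegral.integral_const_mul, ← intervalIntegral.integral_sub (i1 _ _)
        ((i3 _ _).const_mul v)]
      refine intervalIntegral.integral_congr (fun a _ => ?_)
      ring
    have e2 : (∫ a in (0:ℝ)..(r - v), W (a + v) * nL r (c * a)) +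
        v * (∫ a in (0:ℝ)..(r - v), (a + v) * W (a + v) * nL r (c * a)) =
        ∫ a in (0:ℝ)..(r - v), W (a + v) * (1 + v ^ 2 + v * a) * nL r (c * a) := by
      rw [← intervalIntegral.integral_const_mul, ← intervalIntegral.integral_add (i2 _ _)
        ((i4 _ _).const_mul v)]
      refine intervalIntegral.integral_congr (fun a _ => ?_)
      ring
    have e3 : (∫ a in (0:ℝ)..(r + v), W (a - v) * (1 + v ^ 2 - v * a) * nL r (c * a)) =
        (∫ a in (0:ℝ)..(r - v), W (a - v) * (1 + v ^ 2 - v * a) * nL r (c * a)) +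
        ∫ a in (r - v)..(r + v), W (a - v) * (1 + v ^ 2 - v * a) * nL r (c * a) :=
      (intervalIntegral.integral_add_adjacent_intervals (i5 _ _) (i5 _ _)).symm
    have e4 : (∫ a in (0:ℝ)..(r - v), (W (a - v) * (1 + v ^ 2 - v * a) -
        W (a + v) * (1 + v ^ 2 + v * a)) * nL r (c * a)) =
        (∫ a in (0:ℝ)..(r - v), W (a - v) * (1 + v ^ 2 - v * a) * nL r (c * a)) -
        ∫ a in (0:ℝ)..(r - v), W (a + v) * (1 + v ^ 2 + v * a) * nL r (c * a) := by
      rw [← intervalIntegral.integral_sub (i5 _ _) (i6 _ _)]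
      refine intervalIntegral.integral_congr (fun a _ => ?_)
      ring
    rw [e4]
    unfold Qf Qd
    linear_combination e1 - e2 + e3
  -- boundary terms
  have hb1 : NR r v (r + v) = v * (r + v) * W r := by
    unfold NR
    have h : W (v - (r + v)) = W r := by
      rw [show v - (r + v) = -r by ring, W_even]
    rw [h]
    ring
  have hb2 : (v * (r - v) - 1) * W (r - v - v) + (v * (r - v) + 1) * W (r - v + v) =
      NR r v (r - v) + v * (r - v) * W r := by
    unfold NR
    have h1 : W (v - (r - v)) = W (r - v - v) := W_symm (r - v) v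
    have h2 : r - v + v = r := by ring
    rw [h1, h2]
    ring
  have hn1 : nL r (c * (r + v)) = κp * (r + v) := by
    rw [hκp, div_mul_cancel₀]
    linarith
  have hn2 : nL r (c * (r - v)) = κm * (r - v) := by
    rw [hκm, div_mul_cancel₀]
    exact hrv.ne'
  rw [hQ, hright, hn1, hn2, hb1]
  rw [hb2] at hleft
  linarith

end Pool.Agent.H161.TEDex
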