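import Mathlib

/-! Planar orientation of complex values of real polynomials on the upper half-plane. -/

namespace Pool.Agent.H161
open Polynomial Finset

/-- The oriented area `Im (conj u * v)` of two complex numbers. -/
def cr (u v : ℂ) : ℝ := u.re * v.im - u.im * v.re

lemma cr_mul_self (u w : ℂ) : cr u (w * u) = Complex.normSq u * w.im := by
  simp [cr, Complex.normSq_apply]; ring

lemma term_pos (y a : ℂ) (hy : 0 < y.im) (ha : a.im = 0) (ha' : a.re < 0) :
    0 < (y * (1 / (y - a))).im := by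
  have hne : y - a ≠ 0 := by
    intro h
    have := congrArg Complex.im h
    simp [ha] at this; linarith
  have hn := Complex.normSq_pos.2 hne
  have e : (y * (1 / (y - a))).im = (- a.re * y.im) / Complex.normSq (y - a) := by
    rw [one_div, Complex.mul_im, Complex.inv_re, Complex.inv_im]
    simp only [Complex.sub_re, Complex.sub_im, ha]
    field_simp
    ring
  rw [e]
  apply div_pos _ hn
  nlinarith

lemma multi_pos (y : ℂ) (hy : 0 < y.im) (s : Multiset ℂ) (hs : ∀ a ∈ s, a.im = 0 ∧ a.re < 0) :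
    0 ≤ (y * (s.map (fun a => 1 / (y - a))).sum).im ∧
      (s ≠ 0 → 0 < (y * (s.map (fun a => 1 / (y - a))).sum).im) := by
  induction s using Multiset.induction_on with
  | empty => simp
  | cons a t ih =>
    have h1 := ih (fun b hb => hs b (Multiset.mem_cons_of_mem hb))
    have h2 := term_pos y a hy (hs a (Multiset.mem_cons_self a t)).1
      (hs a (Multiset.mem_cons_self a t)).2
    rw [Multiset.map_cons, Multiset.sum_cons, mul_add, Complex.add_im]
    exact ⟨by linarith [h1.1], fun _ => by linarith [h1.1]⟩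

/-- If all complex roots of the nonconstant real polynomial `P` are real and negative, then
`y P'(y) / P(y)` has positive imaginary part on the upper half-plane. -/
lemma herg (P : ℝ[X]) (hd : 0 < P.natDegree)
    (hr : ∀ z : ℂ, aeval z P = 0 → z.im = 0 ∧ z.re < 0) (y : ℂ) (hy : 0 < y.im) :
    0 < cr (aeval y P) (y * aeval y (derivative P)) := by
  have hP : aeval y P ≠ 0 := fun h => by have := (hr y h).1; linarith
  have hP0 : P ≠ 0 := by rintro rfl; simp at hd
  set Q := P.map (algebraMap ℝ ℂ) with hQ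
  have hQe : ∀ z, Q.eval z = aeval z P := fun z => by rw [hQ, eval_map_algebraMap]
  have hQd : (derivative Q).eval y = aeval y (derivative P) := by
    rw [hQ, derivative_map, eval_map_algebraMap]
  have hQ0 : Q ≠ 0 := by
    rw [hQ, Ne, Polynomial.map_eq_zero_iff (algebraMap ℝ ℂ).injective]; exact hP0
  have key := (IsAlgClosed.splits Q).eval_derivative_div_eval_of_ne_zero (x := y)
    (by rw [hQe]; exact hP)
  have e : y * aeval y (derivative P) =
      (y * (aeval y (derivative P) / aeval y P)) * aeval y P := by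
    field_simp
  rw [e, cr_mul_self]
  apply mul_pos (Complex.normSq_pos.2 hP)
  rw [← hQd, ← hQe, key]
  apply (multi_pos y hy Q.roots _).2
  · intro h
    have := (IsAlgClosed.splits Q).natDegree_eq_card_roots
    rw [h, Multiset.card_zero, hQ, natDegree_map] at this
    omega
  · intro a ha
    rw [mem_roots hQ0, IsRoot.def, hQe] at ha
    exact hr a ha

/-- Vectors in the plane: a chain turning counterclockwise whose first and last vectors are also
positively oriented, and such that no vector is to the right of the first, stays strictly on the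
left of the first. -/
lemma chain_alg (L : ℕ) (u : ℕ → ℂ) (h1 : ∀ k < L, 0 < cr (u k) (u (k + 1)))
    (hL : 0 < cr (u 0) (u L)) (h0 : ∀ k, 1 ≤ k → k ≤ L → 0 ≤ cr (u 0) (u k)) :
    ∀ k, 1 ≤ k → k ≤ L → 0 < cr (u 0) (u k) := by
  intro k hk1 hkL
  by_contra hc
  have e0 : cr (u 0) (u k) = 0 := le_antisymm (not_lt.1 hc) (h0 k hk1 hkL)
  have hkL' : k < L := by
    rcases lt_or_eq_of_le hkL with h | h
    · exact h
    · rw [h] at e0; rw [e0] at hL; exact absurd hL (lt_irrefl _)
  have h01 := h1 0 (by omega)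
  have hk2 : k ≠ 1 := by rintro rfl; rw [e0] at h01; exact absurd h01 (lt_irrefl _)
  obtain ⟨m, rfl⟩ : ∃ m, k = m + 1 := ⟨k - 1, by omega⟩
  have a1 := h1 m (by omega)
  have a2 := h1 (m + 1) hkL'
  have a3 := h0 m (by omega) (by omega)
  have a4 := h0 (m + 1 + 1) (by omega) (by omega)
  have pl : cr (u 0) (u m) * cr (u (m + 1)) (u (m + 1 + 1)) -
      cr (u 0) (u (m + 1)) * cr (u m) (u (m + 1 + 1)) +
      cr (u 0) (u (m + 1 + 1)) * cr (u m) (u (m + 1)) = 0 := by
    simp only [cr]; ring
  rw [e0, zero_mul, sub_zero] at pl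
  have e1 : cr (u 0) (u (m + 1 + 1)) = 0 := by
    have b1 : 0 ≤ cr (u 0) (u m) * cr (u (m + 1)) (u (m + 1 + 1)) := mul_nonneg a3 a2.le
    have b2 : cr (u 0) (u (m + 1 + 1)) * cr (u m) (u (m + 1)) ≤ 0 := by linarith
    by_contra hne
    have := mul_pos (lt_of_le_of_ne a4 (Ne.symm hne)) a1
    linarith
  have pl2 : cr (u 0) (u (m + 1)) * cr (u (m + 1 + 1)) (u (0 + 1)) -
      cr (u 0) (u (m + 1 + 1)) * cr (u (m + 1)) (u (0 + 1)) +
      cr (u 0) (u (0 + 1)) * cr (u (m + 1)) (u (m + 1 + 1)) = 0 := by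
    simp only [cr]; ring
  rw [e0, e1, zero_mul, zero_mul, sub_zero, zero_add] at pl2
  have := mul_pos h01 a2
  linarith

lemma chain (L : ℕ) (P : ℕ → ℂ → ℂ) (hc : ∀ k, Continuous (P k))
    (h1 : ∀ k < L, ∀ y : ℂ, 0 < y.im → 0 < cr (P k y) (P (k + 1) y))
    (hL : ∀ y : ℂ, 0 < y.im → 0 < cr (P 0 y) (P L y))
    (y0 : ℂ) (hy0 : 0 < y0.im) (hb : ∀ k, 1 ≤ k → k ≤ L → 0 < cr (P 0 y0) (P k y0)) :
    ∀ y : ℂ, 0 < y.im → ∀ k, 1 ≤ k → k ≤ L → 0 < cr (P 0 y) (P k y) := by
  have hcc : ∀ k, Continuous (fun y => cr (P 0 y) (P k y)) := by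
    intro k
    have a := hc 0
    have b := hc k
    unfold cr
    fun_prop
  set S : Set ℂ := {y | ∀ k ∈ Finset.Icc 1 L, 0 < cr (P 0 y) (P k y)} with hS
  have hSo : IsOpen S := by
    have : S = ⋂ k ∈ Finset.Icc 1 L, {y | 0 < cr (P 0 y) (P k y)} := by
      ext y; simp [hS]
    rw [this]
    apply isOpen_biInter_finset
    intro k _
    exact isOpen_lt continuous_const (hcc k)
  have hU : IsPreconnected {y : ℂ | 0 < y.im} := by
    have : Convex ℝ {y : ℂ | 0 < y.im} := convex_halfSpace_im_gt 0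
    exact this.isPreconnected
  have hsub : {y : ℂ | 0 < y.im} ⊆ S := by
    apply hU.subset_of_closure_inter_subset hSo
    · exact ⟨y0, hy0, fun k hk => hb k (Finset.mem_Icc.1 hk).1 (Finset.mem_Icc.1 hk).2⟩
    · rintro y ⟨hy, hyU⟩
      have hcl : ∀ k, 1 ≤ k → k ≤ L → 0 ≤ cr (P 0 y) (P k y) := by
        intro k h1k h2k
        have hcs : IsClosed {y | 0 ≤ cr (P 0 y) (P k y)} :=
          isClosed_le continuous_const (hcc k)
        exact closure_minimal (fun z hz => (hz k (Finset.mem_Icc.2 ⟨h1k, h2k⟩)).le) hcs hy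
      intro k hk
      exact chain_alg L (fun k => P k y) (fun k hk => h1 k hk y hyU) (hL y hyU) hcl k
        (Finset.mem_Icc.1 hk).1 (Finset.mem_Icc.1 hk).2
  intro y hy k h1k h2k
  exact hsub hy k (Finset.mem_Icc.2 ⟨h1k, h2k⟩)

/-- Sign of the nodal weights at decreasing nodes. -/
lemma weight_sign (N : ℕ) (t : ℕ → ℝ) (ht : ∀ i j, i < j → j < N → t j < t i) (i : ℕ)
    (hi : i < N) : 0 < (-1) ^ i * ∏ j ∈ (range N).erase i, (t i - t j)⁻¹ := by
  have e : ((-1 : ℝ)) ^ i = ∏ j ∈ (range N).erase i, (if j < i then (-1 : ℝ) else 1) := by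
    rw [Finset.prod_ite, Finset.prod_const, Finset.prod_const_one, mul_one]
    congr 1
    have : (filter (fun j => j < i) ((range N).erase i)) = range i := by
      ext j; simp; omega
    rw [this, card_range]
  rw [e, ← Finset.prod_mul_distrib]
  apply Finset.prod_pos
  intro j hj
  rw [mem_erase, mem_range] at hj
  by_cases hji : j < i
  · rw [if_pos hji]
    have := ht j i hji hi
    have h2 : (t i - t j)⁻¹ < 0 := inv_lt_zero.2 (by linarith)
    linarith
  · rw [if_neg hji, one_mul]
    have := ht i j (by omega) hj.2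
    exact inv_pos.2 (by linarith)

/-- Lagrange interpolation at real nodes. -/
lemma node (N : ℕ) (hN : 0 < N) (t : ℕ → ℝ) (ht : ∀ i j, i < j → j < N → t j < t i) (f : ℝ[X])
    (hf : f.natDegree ≤ N) (hs : ∀ i < N, 0 < (-1) ^ (i + 1) * f.eval (t i)) (y : ℂ)
    (hy : 0 < y.im) :
    0 < cr (aeval y (∏ i ∈ range N, (X - C (t i)))) (aeval y f) := by
  classical
  set v : ℕ → ℂ := fun i => (t i : ℂ) with hv
  set F := f.map (algebraMap ℝ ℂ) with hF
  set T := Lagrange.nodal (range N) v with hT
  have hTe : aeval y (∏ i ∈ range N, (X - C (t i))) = T.eval y := by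
    rw [hT, Lagrange.eval_nodal, map_prod]
    apply Finset.prod_congr rfl; intro i _
    simp [hv]
  have hFe : aeval y f = F.eval y := by rw [hF, eval_map_algebraMap]
  have inj : Set.InjOn v (range N) := by
    intro i hi j hj hij
    have h2 : t i = t j := Complex.ofReal_injective hij
    rw [Finset.mem_coe, mem_range] at hi hj
    rcases lt_trichotomy i j with h | h | h
    · have := ht i j h hj; linarith
    · exact h
    · have := ht j i h hi; linarith
  set g := F - C (F.coeff N) * T with hg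
  have hTm : T.Monic := Lagrange.nodal_monic
  have hTd : T.natDegree = N := by rw [hT, Lagrange.natDegree_nodal, card_range]
  have hFd : F.natDegree ≤ N := (natDegree_map_le).trans hf
  have gdeg : g.degree < (range N).card := by
    rw [card_range, degree_lt_iff_coeff_zero]
    intro m hm
    rw [hg, coeff_sub, coeff_C_mul]
    rcases eq_or_lt_of_le hm with h | h
    · subst h
      have : T.coeff N = 1 := by rw [← hTd]; exact hTm
      rw [this]; ring
    · rw [coeff_eq_zero_of_natDegree_lt (lt_of_le_of_lt hFd h),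
        coeff_eq_zero_of_natDegree_lt (p := T) (n := m) (by rw [hTd]; exact h)]; ring
  have hyne : ∀ i ∈ range N, y ≠ v i := by
    intro i _ h
    have := congrArg Complex.im h
    simp [hv] at this; linarith
  have ge : g.eval y = T.eval y * ∑ i ∈ range N,
      Lagrange.nodalWeight (range N) v i * (y - v i)⁻¹ * g.eval (v i) := by
    conv_lhs => rw [Lagrange.eq_interpolate inj gdeg]
    rw [Lagrange.eval_interpolate_not_at_node _ hyne]
  have gv : ∀ i ∈ range N, g.eval (v i) = ((f.eval (t i) : ℝ) : ℂ) := by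
    intro i hi
    rw [hg, eval_sub, eval_mul, hT, Lagrange.eval_nodal_at_node hi, mul_zero, sub_zero, hF,
      eval_map_algebraMap, hv]
    exact aeval_algebraMap_apply_eq_algebraMap_eval (A := ℂ) (t i) f
  have wt : ∀ i ∈ range N, Lagrange.nodalWeight (range N) v i =
      ((∏ j ∈ (range N).erase i, (t i - t j)⁻¹ : ℝ) : ℂ) := by
    intro i _
    rw [Lagrange.nodalWeight]
    push_cast
    rfl
  set w : ℂ := F.coeff N + ∑ i ∈ range N,
      Lagrange.nodalWeight (range N) v i * (y - v i)⁻¹ * g.eval (v i) with hw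
  have fe : F.eval y = w * T.eval y := by
    have : F = g + C (F.coeff N) * T := by rw [hg]; ring
    rw [hw, add_mul, mul_comm (∑ i ∈ range N, _), ← ge]
    conv_lhs => rw [this]
    rw [eval_add, eval_mul, eval_C]; ring
  have Tne : T.eval y ≠ 0 := Lagrange.eval_nodal_not_at_node hyne
  rw [hTe, hFe, fe, cr_mul_self]
  apply mul_pos (Complex.normSq_pos.2 Tne)
  have c0 : (F.coeff N).im = 0 := by rw [hF, coeff_map]; simp
  rw [hw, Complex.add_im, c0, zero_add, Complex.im_sum]
  apply Finset.sum_pos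
  · intro i hi
    have hiN : i < N := mem_range.1 hi
    rw [gv i hi, wt i hi]
    have p1 := weight_sign N t ht i hiN
    have p2 := hs i hiN
    set ω := ∏ j ∈ (range N).erase i, (t i - t j)⁻¹ with hω
    have p3 : ω * f.eval (t i) < 0 := by
      have := mul_pos p1 p2
      have e : (-1 : ℝ) ^ i * ω * ((-1) ^ (i + 1) * f.eval (t i)) = - (ω * f.eval (t i)) := by
        have : ((-1 : ℝ) ^ i) * (-1) ^ i = 1 := by rw [← mul_pow]; simp
        rw [pow_succ]
        linear_combination (-(ω * f.eval (t i))) * this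
      rw [e] at this; linarith
    have hne : y - v i ≠ 0 := sub_ne_zero.2 (hyne i hi)
    have e2 : ((ω : ℂ) * (y - v i)⁻¹ * ((f.eval (t i) : ℝ) : ℂ)).im =
        (ω * f.eval (t i)) * (- y.im / Complex.normSq (y - v i)) := by
      have : ((ω : ℂ) * (y - v i)⁻¹ * ((f.eval (t i) : ℝ) : ℂ)) =
          ((ω * f.eval (t i) : ℝ) : ℂ) * (y - v i)⁻¹ := by push_cast; ring
      rw [this, Complex.im_ofReal_mul, Complex.inv_im]
      simp [hv]
    rw [e2]
    apply mul_pos_of_neg_of_neg p3
    rw [neg_div]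
    exact neg_lt_zero.2 (div_pos hy (Complex.normSq_pos.2 hne))
  · exact ⟨0, mem_range.2 hN⟩

open Filter Topology in
/-- First-order behaviour of the orientation on the imaginary axis near `0`. -/
lemma base_tendsto (P Q : ℝ[X]) :
    Tendsto (fun t : ℝ => t⁻¹ * cr (aeval ((t : ℂ) * Complex.I) P) (aeval ((t : ℂ) * Complex.I) Q))
      (𝓝[>] 0) (𝓝 (P.coeff 0 * Q.coeff 1 - P.coeff 1 * Q.coeff 0)) := by
  have hd : ∀ R : ℝ[X], HasDerivAt (fun t : ℝ => aeval ((t : ℂ) * Complex.I) R)
      ((R.coeff 1 : ℂ) * Complex.I) 0 := by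
    intro R
    have h1 : HasDerivAt (fun z : ℂ => (R.map (algebraMap ℝ ℂ)).eval (z * Complex.I))
        ((derivative (R.map (algebraMap ℝ ℂ))).eval (((0 : ℝ) : ℂ) * Complex.I) *
          (1 * Complex.I)) ((0 : ℝ) : ℂ) := by
      have := (R.map (algebraMap ℝ ℂ)).hasDerivAt (((0 : ℝ) : ℂ) * Complex.I)
      exact this.comp ((0 : ℝ) : ℂ) ((hasDerivAt_id _).mul_const Complex.I)
    have h2 := h1.comp_ofReal
    simp only [eval_map_algebraMap] at h2
    convert h2 using 1
    rw [derivative_map, eval_map_algebraMap, Complex.ofReal_zero, zero_mul, one_mul]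
    simp [aeval_def, eval₂_at_zero, coeff_derivative]
  have hre : ∀ R : ℝ[X], HasDerivAt (fun t : ℝ => (aeval ((t : ℂ) * Complex.I) R).re) 0 0 := by
    intro R
    have := Complex.reCLM.hasFDerivAt.comp_hasDerivAt (0 : ℝ) (hd R)
    simpa [Function.comp_def] using this
  have him : ∀ R : ℝ[X], HasDerivAt (fun t : ℝ => (aeval ((t : ℂ) * Complex.I) R).im)
      (R.coeff 1) 0 := by
    intro R
    have := Complex.imCLM.hasFDerivAt.comp_hasDerivAt (0 : ℝ) (hd R)
    simpa [Function.comp_def] using this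
  have v0 : ∀ R : ℝ[X], aeval (((0 : ℝ) : ℂ) * Complex.I) R = (R.coeff 0 : ℂ) := by
    intro R
    simp [aeval_def, eval₂_at_zero]
  have hf : HasDerivAt (fun t : ℝ => cr (aeval ((t : ℂ) * Complex.I) P)
      (aeval ((t : ℂ) * Complex.I) Q)) (P.coeff 0 * Q.coeff 1 - P.coeff 1 * Q.coeff 0) 0 := by
    have := ((hre P).mul (him Q)).sub ((him P).mul (hre Q))
    refine HasDerivAt.congr_deriv (f' := _) this ?_
    rw [v0 P, v0 Q]
    simp
  have := hf.tendsto_slope_zero_right
  refine this.congr (fun t => ?_)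
  have e0 : cr (aeval (((0 : ℝ) : ℂ) * Complex.I) P) (aeval (((0 : ℝ) : ℂ) * Complex.I) Q) = 0 := by
    rw [v0, v0]; simp [cr]
  simp only [zero_add, smul_eq_mul]
  rw [e0, sub_zero]

end Pool.Agent.H161
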