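import Pool.Agent.H161.ToricTrig

/-! Signs of the trigonometric sums at the nodes. -/

namespace Pool.Agent.H161
open Finset Real

/-! ### Summation by parts -/

lemma abel0 (b S : ℕ → ℝ) (m : ℕ) : ∑ k ∈ range (m + 1), b k * (S (k + 1) - S k) =
    b m * S (m + 1) - b 0 * S 0 + ∑ k ∈ range m, (b k - b (k + 1)) * S (k + 1) := by
  induction m with
  | zero => simp; ring
  | succ m ih => rw [sum_range_succ, ih, sum_range_succ (n := m)]; ring

lemma fold (g : ℕ → ℝ) (m : ℕ) (h : ∀ k < m, g (m - 1 - k) = g k) :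
    ∑ k ∈ range m, g k = (∑ k ∈ range ((m + 1) / 2), g k) + ∑ k ∈ range (m / 2), g k := by
  have hm : m = (m + 1) / 2 + m / 2 := by omega
  conv_lhs => rw [hm, sum_range_add]
  congr 1
  rw [← Finset.sum_range_reflect]
  apply Finset.sum_congr rfl; intro k hk
  have hk' := mem_range.1 hk
  rw [← h k (by omega)]
  congr 1; omega

lemma pos1 (E κ : ℕ → ℝ) (hP : ∀ k, 1 ≤ k → 0 < ∑ j ∈ range k, κ j) (K : ℕ)
    (hE : ∀ j < K, E (j + 1) ≤ E j) (hK : 0 < E K) : 0 < ∑ j ∈ range (K + 1), E j * κ j := by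
  have e : ∀ K, ∑ j ∈ range (K + 1), E j * κ j = E K * (∑ j ∈ range (K + 1), κ j) +
      ∑ j ∈ range K, (E j - E (j + 1)) * ∑ i ∈ range (j + 1), κ i := by
    intro K
    induction K with
    | zero => simp
    | succ K ih =>
      rw [sum_range_succ, ih, sum_range_succ (n := K) (f := fun j => (E j - E (j + 1)) * _),
        sum_range_succ (n := K + 1) (f := κ)]
      ring
  rw [e]
  apply add_pos_of_pos_of_nonneg (mul_pos hK (hP _ (by omega)))
  apply Finset.sum_nonneg
  intro j hj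
  exact mul_nonneg (sub_nonneg.2 (hE j (mem_range.1 hj))) (hP _ (by omega)).le

lemma abel2 (Λ D S : ℕ → ℝ) (ρ : ℝ) (h0 : Λ 0 = 0) (h1 : ρ * S 0 = Λ 1)
    (h2 : ∀ j, ρ * S (j + 1) = Λ (j + 2) - 2 * Λ (j + 1) + Λ j) (K : ℕ) :
    ρ * ∑ j ∈ range (K + 1), D j * S j =
      (∑ j ∈ range K, Λ (j + 1) * (D j - 2 * D (j + 1) + D (j + 2))) - Λ K * D (K + 1) +
        Λ (K + 1) * D K := by
  induction K with
  | zero => simp [h0]; linear_combination D 0 * h1
  | succ K ih =>
    rw [sum_range_succ, mul_add, ih, sum_range_succ (n := K)]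
    linear_combination D (K + 1) * h2 K

lemma pos2 (Λ D S : ℕ → ℝ) (ρ : ℝ) (hρ : 0 < ρ) (h0 : Λ 0 = 0) (h1 : ρ * S 0 = Λ 1)
    (h2 : ∀ j, ρ * S (j + 1) = Λ (j + 2) - 2 * Λ (j + 1) + Λ j) (hΛ : ∀ j, 0 ≤ Λ j) (K : ℕ)
    (hΛK : 0 < Λ (K + 1)) (hD : ∀ j < K, 0 ≤ D j - 2 * D (j + 1) + D (j + 2)) (hDK : 0 < D K)
    (hDK1 : D (K + 1) ≤ 0) : 0 < ∑ j ∈ range (K + 1), D j * S j := by
  have h := abel2 Λ D S ρ h0 h1 h2 K
  have a1 : 0 ≤ ∑ j ∈ range K, Λ (j + 1) * (D j - 2 * D (j + 1) + D (j + 2)) :=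
    Finset.sum_nonneg (fun j hj => mul_nonneg (hΛ _) (hD j (mem_range.1 hj)))
  have a2 : Λ K * D (K + 1) ≤ 0 := mul_nonpos_of_nonneg_of_nonpos (hΛ K) hDK1
  have a3 := mul_pos hΛK hDK
  have : 0 < ρ * ∑ j ∈ range (K + 1), D j * S j := by linarith
  exact (pos_iff_pos_of_mul_pos this).1 hρ

/-! ### `|sin (m x)| ≤ m |sin x|` -/

lemma abs_sin_mul_le (x : ℝ) (m : ℕ) : |sin (m * x)| ≤ m * |sin x| := by
  induction m with
  | zero => simp
  | succ m ih =>
    have e : ((m + 1 : ℕ) : ℝ) * x = m * x + x := by push_cast; ring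
    rw [e, sin_add]
    have h1 : |sin (m * x) * cos x| ≤ |sin (m * x)| := by
      rw [abs_mul]
      exact mul_le_of_le_one_right (abs_nonneg _) (abs_cos_le_one x)
    have h2 : |cos (m * x) * sin x| ≤ |sin x| := by
      rw [abs_mul]
      exact mul_le_of_le_one_left (abs_nonneg _) (abs_cos_le_one _)
    have := abs_add_le (sin (m * x) * cos x) (cos (m * x) * sin x)
    push_cast
    linarith

lemma abs_sin_mul_lt (x : ℝ) (hx : sin x ≠ 0) (m : ℕ) (hm : 2 ≤ m) :
    |sin (m * x)| < m * |sin x| := by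
  obtain ⟨m, rfl⟩ : ∃ k, m = k + 1 := ⟨m - 1, by omega⟩
  have e : ((m + 1 : ℕ) : ℝ) * x = m * x + x := by push_cast; ring
  rw [e, sin_add]
  have hs : 0 < |sin x| := abs_pos.2 hx
  have hc : |cos x| < 1 := by
    have := sin_sq_add_cos_sq x
    have h2 : 0 < sin x ^ 2 := by positivity
    rw [← sq_lt_one_iff_abs_lt_one]
    linarith
  have hm0 : (0 : ℝ) < m := by exact_mod_cast (by omega : 0 < m)
  have h1 : |sin (m * x) * cos x| < m * |sin x| := by
    rw [abs_mul]
    have h := abs_sin_mul_le x m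
    have : |sin (m * x)| * |cos x| ≤ m * |sin x| * |cos x| :=
      mul_le_mul_of_nonneg_right h (abs_nonneg _)
    have h3 : m * |sin x| * |cos x| < m * |sin x| * 1 :=
      mul_lt_mul_of_pos_left hc (mul_pos hm0 hs)
    linarith
  have h2 : |cos (m * x) * sin x| ≤ |sin x| := by
    rw [abs_mul]
    exact mul_le_of_le_one_left (abs_nonneg _) (abs_cos_le_one _)
  have := abs_add_le (sin (m * x) * cos x) (cos (m * x) * sin x)
  push_cast
  linarith

/-! ### The Legendre case -/

lemma D_eq (n k : ℕ) (hk : k < n) :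
    (Nat.centralBinom k : ℝ) * Nat.centralBinom (n - k) -
      Nat.centralBinom (k + 1) * Nat.centralBinom (n - (k + 1)) =
    2 * catalan k * catalan (n - 1 - k) * ((n : ℝ) - 1 - 2 * k) := by
  obtain ⟨p, rfl⟩ : ∃ p, n = k + 1 + p := ⟨n - (k + 1), by omega⟩
  rw [show k + 1 + p - k = p + 1 by omega, show k + 1 + p - (k + 1) = p by omega,
    show k + 1 + p - 1 - k = p by omega, cb_succ, cb_succ, cb_eq, cb_eq]
  push_cast
  ring

lemma conv_ineq (j t : ℕ) : 0 ≤ 2 * (catalan j : ℝ) * catalan (j + t + 2) * ((t : ℝ) + 2) -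
    2 * (2 * catalan (j + 1) * catalan (j + t + 1) * (t : ℝ)) +
    2 * catalan (j + 2) * catalan (j + t) * ((t : ℝ) - 2) := by
  have hj := cat_pos j
  have hp := cat_pos (j + t)
  have e : 2 * (catalan j : ℝ) * catalan (j + t + 2) * ((t : ℝ) + 2) -
    2 * (2 * catalan (j + 1) * catalan (j + t + 1) * (t : ℝ)) +
    2 * catalan (j + 2) * catalan (j + t) * ((t : ℝ) - 2) =
    8 * catalan j * catalan (j + t) *
      (t * (84 + 63 * t + 15 * t ^ 2 + 126 * j + 36 * j * t + 36 * j ^ 2)) /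
      ((j + 2) * (j + 3) * (j + t + 2) * (j + t + 3)) := by
    rw [show j + t + 2 = (j + t + 1) + 1 by ring, show j + 2 = j + 1 + 1 by ring,
      cat_succ_eq (j + t + 1), cat_succ_eq (j + t), cat_succ_eq (j + 1), cat_succ_eq j]
    push_cast
    have h1 : (j : ℝ) + 2 ≠ 0 := by positivity
    have h2 : (j : ℝ) + 3 ≠ 0 := by positivity
    have h3 : (j : ℝ) + t + 2 ≠ 0 := by positivity
    have h4 : (j : ℝ) + t + 3 ≠ 0 := by positivity
    have h5 : (j : ℝ) + 1 + 2 ≠ 0 := by positivity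
    have h6 : (j : ℝ) + t + 1 + 2 ≠ 0 := by positivity
    field_simp
    ring
  rw [e]
  positivity

/-- Signs of the Legendre sum at the nodes `π i/(n+1)`. -/
lemma AA_sign (n i : ℕ) (hn : 2 ≤ n) (hi : 1 ≤ i) (hin : i ≤ n / 2) :
    0 < (-1) ^ i * AA n (π * i / (n + 1)) := by
  set ψ := π * i / (n + 1) with hψ
  have hn1 : ((n : ℝ) + 1) ≠ 0 := by positivity
  have hnode : ((n : ℝ) + 1) * ψ = i * π := by rw [hψ]; field_simp
  have hi' : (1 : ℝ) ≤ i := by exact_mod_cast hi
  have hin' : 2 * (i : ℝ) ≤ n := by exact_mod_cast (by omega : 2 * i ≤ n)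
  have hψ0 : 0 < ψ := by rw [hψ]; positivity
  have hψ1 : ψ < π / 2 := by
    rw [hψ, div_lt_div_iff₀ (by positivity) (by norm_num)]
    nlinarith [pi_pos]
  have hs : 0 < sin ψ := sin_pos_of_pos_of_lt_pi hψ0 (by linarith [pi_pos])
  set φ := 2 * ψ with hφ
  have hsφ : 0 < sin φ := sin_pos_of_pos_of_lt_pi (by linarith) (by linarith)
  have h1 : (-1) ^ i * AA n ψ = ∑ k ∈ range (n + 1),
      ((Nat.centralBinom k : ℝ) * Nat.centralBinom (n - k)) * cos ((2 * k + 1) * ψ) := by
    rw [AA, Finset.mul_sum]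
    apply Finset.sum_congr rfl; intro k hk
    have hk' : k ≤ n := Nat.lt_succ_iff.1 (mem_range.1 hk)
    have e : (((n - k : ℕ) : ℝ) - k) * ψ = i * π - (2 * k + 1) * ψ := by
      rw [Nat.cast_sub hk', ← hnode]; ring
    rw [e, cos_nat_mul_pi_sub]
    have : ((-1 : ℝ) ^ i) * (-1) ^ i = 1 := by rw [← mul_pow]; simp
    linear_combination ((Nat.centralBinom k : ℝ) * Nat.centralBinom (n - k) *
      cos ((2 * k + 1) * ψ)) * this
  set D : ℕ → ℝ := fun j => 2 * catalan j * catalan (n - 1 - j) * ((n : ℝ) - 1 - 2 * j) with hD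
  set S : ℕ → ℝ := fun j => sin ((j + 1) * φ) with hS
  have h2 : 2 * sin ψ * ((-1) ^ i * AA n ψ) = ∑ j ∈ range n, D j * S j := by
    rw [h1, Finset.mul_sum]
    have a := abel0 (fun k => (Nat.centralBinom k : ℝ) * Nat.centralBinom (n - k))
      (fun k => sin (k * φ)) n
    have b : ∑ k ∈ range (n + 1), 2 * sin ψ *
        (((Nat.centralBinom k : ℝ) * Nat.centralBinom (n - k)) * cos ((2 * k + 1) * ψ)) =
        ∑ k ∈ range (n + 1), (Nat.centralBinom k : ℝ) * Nat.centralBinom (n - k) *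
          (sin (((k + 1 : ℕ) : ℝ) * φ) - sin ((k : ℝ) * φ)) := by
      apply Finset.sum_congr rfl; intro k _
      have e1 : (((k + 1 : ℕ) : ℝ) * φ) = (2 * k + 1) * ψ + ψ := by rw [hφ]; push_cast; ring
      have e2 : ((k : ℝ) * φ) = (2 * k + 1) * ψ - ψ := by rw [hφ]; ring
      rw [e1, e2, sin_add, sin_sub]; ring
    rw [b, a]
    have c1 : sin (((n + 1 : ℕ) : ℝ) * φ) = 0 := by
      have : (((n + 1 : ℕ) : ℝ) * φ) = ((2 * i : ℕ) : ℝ) * π := by
        rw [hφ]; push_cast; linear_combination 2 * hnode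
      rw [this, sin_nat_mul_pi]
    rw [c1]
    simp only [Nat.cast_zero, zero_mul, sin_zero, mul_zero, sub_self, zero_add]
    apply Finset.sum_congr rfl; intro k hk
    rw [D_eq n k (mem_range.1 hk)]
    simp only [hD, hS]
    push_cast
    ring
  have h3 : ∑ j ∈ range n, D j * S j = 2 * ∑ j ∈ range (n / 2), D j * S j := by
    rw [fold (fun j => D j * S j) n]
    · rcases Nat.even_or_odd' n with ⟨m, hm | hm⟩
      · rw [show (n + 1) / 2 = n / 2 by omega]; ring
      · rw [show (n + 1) / 2 = n / 2 + 1 by omega, sum_range_succ]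
        have : D (n / 2) = 0 := by
          simp only [hD]
          have : (n : ℝ) - 1 - 2 * ((n / 2 : ℕ) : ℝ) = 0 := by
            rw [show n / 2 = m by omega, hm]; push_cast; ring
          rw [this, mul_zero]
        rw [this]; ring
    · intro k hk
      have hk1 : k ≤ n - 1 := by omega
      have hn1' : 1 ≤ n := by omega
      have e1 : S (n - 1 - k) = - S k := by
        simp only [hS]
        rw [Nat.cast_sub hk1, Nat.cast_sub hn1']
        have : (((n : ℝ) - ((1 : ℕ) : ℝ) - k + 1) * φ) = ((2 * i : ℕ) : ℝ) * π - (k + 1) * φ := by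
          rw [hφ]; push_cast; linear_combination 2 * hnode
        rw [this, sin_nat_mul_pi_sub]
        rw [pow_mul]; simp
      have e2 : D (n - 1 - k) = - D k := by
        simp only [hD]
        rw [show n - 1 - (n - 1 - k) = k by omega, Nat.cast_sub hk1, Nat.cast_sub hn1']
        push_cast; ring
      simp only [e1, e2]; ring
  have h4 : 0 < ∑ j ∈ range (n / 2), D j * S j := by
    obtain ⟨K, hK⟩ : ∃ K, n / 2 = K + 1 := ⟨n / 2 - 1, by omega⟩
    rw [hK]
    apply pos2 (fun j => ((j : ℝ) + 1) * sin φ - sin ((j + 1) * φ)) D S (2 - 2 * cos φ)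
    · have : cos φ < 1 := by
        have h := cos_lt_cos_of_nonneg_of_le_pi (le_refl (0:ℝ)) (by linarith : φ ≤ π)
          (by linarith : 0 < φ)
        rwa [cos_zero] at h
      linarith
    · simp
    · simp only [hS]
      push_cast
      rw [show ((1 : ℝ) + 1) * φ = 2 * φ by ring, sin_two_mul φ,
        show ((0 : ℝ) + 1) * φ = φ by ring]
      ring
    · intro j
      simp only [hS]
      push_cast
      rw [show ((j : ℝ) + 2 + 1) * φ = (j + 1 + 1) * φ + φ by ring,
        show ((j : ℝ) + 1) * φ = (j + 1 + 1) * φ - φ by ring, sin_add, sin_sub]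
      ring
    · intro j
      have h := abs_sin_mul_le φ (j + 1)
      rw [abs_of_pos hsφ] at h
      push_cast at h
      have := le_abs_self (sin (((j : ℝ) + 1) * φ))
      show 0 ≤ ((j : ℝ) + 1) * sin φ - sin ((j + 1) * φ)
      linarith
    · have h := abs_sin_mul_lt φ hsφ.ne' (K + 1 + 1) (by omega)
      rw [abs_of_pos hsφ] at h
      push_cast at h ⊢
      have := le_abs_self (sin (((K : ℝ) + 1 + 1) * φ))
      linarith
    · intro j hj
      obtain ⟨t, ht⟩ : ∃ t, n - 1 - j = j + t + 2 := ⟨n - 1 - j - (j + 2), by omega⟩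
      have h := conv_ineq j t
      simp only [hD]
      rw [ht, show n - 1 - (j + 1) = j + t + 1 by omega, show n - 1 - (j + 2) = j + t by omega]
      have hnr : (n : ℝ) = 2 * j + t + 3 := by
        have : n = 2 * j + t + 3 := by omega
        rw [this]; push_cast; ring
      rw [hnr]
      push_cast
      convert h using 1
      ring
    · simp only [hD]
      have a := cat_pos K
      have b := cat_pos (n - 1 - K)
      have c : (0 : ℝ) < (n : ℝ) - 1 - 2 * K := by
        have : (2 * K + 2 : ℕ) ≤ n := by omega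
        have : ((2 * K + 2 : ℕ) : ℝ) ≤ n := by exact_mod_cast this
        push_cast at this
        linarith
      positivity
    · simp only [hD]
      have a := cat_pos (K + 1)
      have b := cat_pos (n - 1 - (K + 1))
      have c : (n : ℝ) - 1 - 2 * ((K + 1 : ℕ) : ℝ) ≤ 0 := by
        have : n ≤ 2 * (K + 1) + 1 := by omega
        have : (n : ℝ) ≤ ((2 * (K + 1) + 1 : ℕ) : ℝ) := by exact_mod_cast this
        push_cast at this ⊢
        linarith
      exact mul_nonpos_of_nonneg_of_nonpos (by positivity) c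
  have h5 : 0 < 2 * sin ψ * ((-1) ^ i * AA n ψ) := by rw [h2, h3]; linarith
  exact (pos_iff_pos_of_mul_pos h5).1 (by linarith)

/-! ### The Gegenbauer case -/

lemma YY_node (m i : ℕ) (φ δ : ℝ) (h : ((m : ℝ) + 2) * φ = i * π + δ) :
    -((-1) ^ i * YY (m + 2) φ) = ∑ j ∈ range (m + 1), (catalan j * catalan (m - j)) *
      (cos δ - cos (2 * (j + 1) * φ - δ)) := by
  have h1 : (-1) ^ i * YY (m + 2) φ = ∑ k ∈ range (m + 2 + 1), (kap k * kap (m + 2 - k)) *
      cos (2 * k * φ - δ) := by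
    rw [YY, Finset.mul_sum]
    apply Finset.sum_congr rfl; intro k hk
    have hk' : k ≤ m + 2 := Nat.lt_succ_iff.1 (mem_range.1 hk)
    have e : (((m + 2 - k : ℕ) : ℝ) - k) * φ = i * π - (2 * k * φ - δ) := by
      rw [Nat.cast_sub hk']; push_cast; linear_combination h
    rw [e, cos_nat_mul_pi_sub]
    have : ((-1 : ℝ) ^ i) * (-1) ^ i = 1 := by rw [← mul_pow]; simp
    linear_combination (kap k * kap (m + 2 - k) * cos (2 * k * φ - δ)) * this
  rw [h1, sum_range_succ, sum_range_succ', Nat.sub_self, Nat.sub_zero]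
  have k0 : kap 0 = -1 / 2 := rfl
  have c0 : cos (2 * ((0 : ℕ) : ℝ) * φ - δ) = cos δ := by
    rw [Nat.cast_zero, mul_zero, zero_mul, zero_sub, cos_neg]
  have c1 : cos (2 * ((m + 2 : ℕ) : ℝ) * φ - δ) = cos δ := by
    have : 2 * ((m + 2 : ℕ) : ℝ) * φ - δ = δ + (i : ℕ) * (2 * π) := by
      push_cast; linear_combination 2 * h
    rw [this, cos_add_nat_mul_two_pi]
  have c2 : ∀ k ∈ range (m + 1), kap (k + 1) * kap (m + 2 - (k + 1)) *
      cos (2 * ((k + 1 : ℕ) : ℝ) * φ - δ) =
      (catalan k * catalan (m - k)) * cos (2 * (k + 1) * φ - δ) := by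
    intro k hk
    have hk' : k ≤ m := Nat.lt_succ_iff.1 (mem_range.1 hk)
    rw [show m + 2 - (k + 1) = (m - k) + 1 by omega, kap_succ, kap_succ]
    push_cast; rfl
  rw [Finset.sum_congr rfl c2, k0, c0, c1, show m + 2 = (m + 1) + 1 by ring, kap_succ]
  have c3 : ∑ j ∈ range (m + 1), ((catalan j : ℝ) * catalan (m - j)) *
      (cos δ - cos (2 * (j + 1) * φ - δ)) =
      catalan (m + 1) * cos δ - ∑ j ∈ range (m + 1), (catalan j * catalan (m - j)) *
        cos (2 * (j + 1) * φ - δ) := by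
    rw [cat_conv, Finset.sum_mul, ← Finset.sum_sub_distrib]
    apply Finset.sum_congr rfl; intro j _; ring
  rw [c3]
  ring

lemma cat_mono (j p : ℕ) (h : j ≤ p) :
    (catalan (j + 1) : ℝ) * catalan p ≤ catalan j * catalan (p + 1) := by
  rw [cat_succ_eq, cat_succ_eq]
  have hj := cat_pos j
  have hp := cat_pos p
  have h' : (j : ℝ) ≤ p := by exact_mod_cast h
  have : 2 * (2 * (j : ℝ) + 1) / (j + 2) ≤ 2 * (2 * (p : ℝ) + 1) / (p + 2) := by
    rw [div_le_div_iff₀ (by positivity) (by positivity)]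
    nlinarith
  calc 2 * (2 * (j : ℝ) + 1) / (j + 2) * catalan j * catalan p
      = 2 * (2 * (j : ℝ) + 1) / (j + 2) * (catalan j * catalan p) := by ring
    _ ≤ 2 * (2 * (p : ℝ) + 1) / (p + 2) * (catalan j * catalan p) :=
        mul_le_mul_of_nonneg_right this (by positivity)
    _ = _ := by ring

/-- even case: nodes `2ψ`, `ψ = π i/(2N+1)`, `N = m+1`. -/
lemma YY_sign_even (m i : ℕ) (hi : 1 ≤ i) (him : i ≤ m + 1) :
    0 < -((-1) ^ i * YY (m + 2) (2 * (π * i / (2 * m + 3)))) := by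
  set ψ := π * i / (2 * m + 3) with hψ
  have hnode : (2 * (m : ℝ) + 3) * ψ = i * π := by rw [hψ]; field_simp
  have hi' : (1 : ℝ) ≤ i := by exact_mod_cast hi
  have hin' : (i : ℝ) ≤ m + 1 := by exact_mod_cast him
  have hψ0 : 0 < ψ := by rw [hψ]; positivity
  have hψ1 : ψ < π / 2 := by
    rw [hψ, div_lt_div_iff₀ (by positivity) (by norm_num)]
    nlinarith [pi_pos]
  have hs : 0 < sin ψ := sin_pos_of_pos_of_lt_pi hψ0 (by linarith [pi_pos])
  have hc : 0 < cos ψ := cos_pos_of_mem_Ioo ⟨by linarith [pi_pos], hψ1⟩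
  have hs2 : 0 < sin (2 * ψ) := sin_pos_of_pos_of_lt_pi (by linarith) (by linarith)
  rw [YY_node m i (2 * ψ) ψ (by linear_combination hnode)]
  set κ : ℕ → ℝ := fun j => cos ψ - cos (2 * (j + 1) * (2 * ψ) - ψ) with hκ
  have hP : ∀ k, 1 ≤ k → 0 < ∑ j ∈ range k, κ j := by
    have e : ∀ k, 2 * sin (2 * ψ) * ∑ j ∈ range k, κ j =
        4 * k * sin ψ * cos ψ ^ 2 + sin ψ - sin ((4 * k + 1) * ψ) := by
      intro k
      induction k with
      | zero => simp
      | succ k ih =>
        rw [sum_range_succ, mul_add, ih]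
        simp only [hκ]
        rw [show 2 * ((k : ℝ) + 1) * (2 * ψ) - ψ = (4 * k + 1) * ψ + 2 * ψ by ring]
        push_cast
        rw [show (4 * ((k : ℝ) + 1) + 1) * ψ = (4 * k + 1) * ψ + 2 * ψ + 2 * ψ by ring,
          sin_add ((4 * k + 1) * ψ + 2 * ψ) (2 * ψ), sin_add ((4 * (k:ℝ) + 1) * ψ) (2 * ψ),
          cos_add ((4 * (k:ℝ) + 1) * ψ) (2 * ψ)]
        have e1 := sin_sq_add_cos_sq (2 * ψ)
        have e2 := sin_two_mul ψ
        linear_combination (2 * cos ψ) * e2 + sin ((4 * (k:ℝ) + 1) * ψ) * e1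
    intro k hk
    have h := abs_sin_mul_lt (2 * ψ) hs2.ne' (2 * k) (by omega)
    rw [abs_of_pos hs2] at h
    have h2 := le_abs_self (sin (((2 * k : ℕ) : ℝ) * (2 * ψ)))
    push_cast at h h2
    have h3 : sin ((4 * k + 1) * ψ) < sin ψ + 4 * k * sin ψ * cos ψ ^ 2 := by
      rw [show (4 * (k : ℝ) + 1) * ψ = ψ + 2 * k * (2 * ψ) by ring, sin_add]
      have a1 : sin ψ * cos (2 * k * (2 * ψ)) ≤ sin ψ :=
        mul_le_of_le_one_right hs.le (cos_le_one _)
      have a2 : cos ψ * sin (2 * k * (2 * ψ)) < cos ψ * (2 * k * sin (2 * ψ)) :=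
        mul_lt_mul_of_pos_left (by linarith) hc
      have a3 : cos ψ * (2 * k * sin (2 * ψ)) = 4 * k * sin ψ * cos ψ ^ 2 := by
        rw [sin_two_mul]; ring
      linarith
    have h4 := e k
    have h5 : 0 < 2 * sin (2 * ψ) * ∑ j ∈ range k, κ j := by rw [h4]; linarith
    exact (pos_iff_pos_of_mul_pos h5).1 (by linarith)
  set E : ℕ → ℝ := fun j => catalan j * catalan (m - j) with hE
  have hpart : ∀ K, 2 * K ≤ m → 0 < ∑ j ∈ range (K + 1), E j * κ j := by
    intro K hK
    apply pos1 E κ hP K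
    · intro j hj
      simp only [hE]
      have := cat_mono j (m - (j + 1)) (by omega)
      rwa [show m - (j + 1) + 1 = m - j by omega] at this
    · simp only [hE]
      exact mul_pos (cat_pos _) (cat_pos _)
  change 0 < ∑ j ∈ range (m + 1), E j * κ j
  rw [fold (fun j => E j * κ j) (m + 1)]
  · rcases Nat.eq_zero_or_pos m with rfl | hm
    · have := hpart 0 (by omega)
      simpa using this
    · have a1 := hpart ((m + 1 + 1) / 2 - 1) (by omega)
      rw [show (m + 1 + 1) / 2 - 1 + 1 = (m + 1 + 1) / 2 by omega] at a1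
      have a2 := hpart ((m + 1) / 2 - 1) (by omega)
      rw [show (m + 1) / 2 - 1 + 1 = (m + 1) / 2 by omega] at a2
      linarith
  · intro k hk
    have hk' : k ≤ m := by omega
    have e1 : E (m + 1 - 1 - k) = E k := by
      simp only [hE]
      rw [show m - (m + 1 - 1 - k) = k by omega, show m + 1 - 1 - k = m - k by omega]; ring
    have e2 : κ (m + 1 - 1 - k) = κ k := by
      simp only [hκ]
      rw [show m + 1 - 1 - k = m - k by omega, Nat.cast_sub hk']
      congr 1
      have : 2 * ((m : ℝ) - k + 1) * (2 * ψ) - ψ = (i : ℕ) * (2 * π) - (2 * (k + 1) * (2 * ψ) - ψ) := by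
        linear_combination 2 * hnode
      rw [this, cos_nat_mul_two_pi_sub]
    simp only [e1, e2]

/-- odd case: nodes `φ = π i/(N+1)`, `N = m+1`. -/
lemma YY_sign_odd (m i : ℕ) (hi : 1 ≤ i) (him : i ≤ m + 1) :
    0 < -((-1) ^ i * (YY (m + 3) (π * i / (m + 2)) + 4 * YY (m + 2) (π * i / (m + 2)))) := by
  set φ := π * i / (m + 2) with hφ
  have hnode : ((m : ℝ) + 2) * φ = i * π := by rw [hφ]; field_simp
  have hi' : (1 : ℝ) ≤ i := by exact_mod_cast hi
  have hin' : (i : ℝ) ≤ m + 1 := by exact_mod_cast him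
  have hφ0 : 0 < φ := by rw [hφ]; positivity
  have hφ1 : φ < π := by
    rw [hφ, div_lt_iff₀ (by positivity)]
    nlinarith [pi_pos]
  have hs : 0 < sin φ := sin_pos_of_pos_of_lt_pi hφ0 hφ1
  have h1 := YY_node m i φ 0 (by linear_combination hnode)
  have h2 := YY_node (m + 1) i φ φ (by push_cast; linear_combination hnode)
  have e : -((-1) ^ i * (YY (m + 3) φ + 4 * YY (m + 2) φ)) =
      -((-1) ^ i * YY (m + 1 + 2) φ) + 4 * -((-1) ^ i * YY (m + 2) φ) := by
    rw [show m + 1 + 2 = m + 3 by ring]; ring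
  rw [e, h1, h2]
  set x : ℕ → ℝ := fun j => sin (j * φ) with hx
  set T : ℕ → ℝ := fun j => 4 * catalan j * catalan (m - j) * x (j + 1) ^ 2 with hT
  have hT0 : ∀ j, 0 ≤ T j := by
    intro j; simp only [hT]
    have := cat_pos j; have := cat_pos (m - j); positivity
  have s1 : 4 * ∑ j ∈ range (m + 1), (catalan j * catalan (m - j) : ℝ) *
      (cos 0 - cos (2 * (j + 1) * φ - 0)) = 2 * ∑ j ∈ range (m + 1), T j := by
    rw [Finset.mul_sum, Finset.mul_sum]
    apply Finset.sum_congr rfl; intro j _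
    simp only [hT, hx]
    push_cast
    rw [sub_zero, cos_zero, show 2 * ((j : ℝ) + 1) * φ = 2 * ((j + 1) * φ) by ring, cos_two_mul]
    have := sin_sq_add_cos_sq (((j : ℝ) + 1) * φ)
    linear_combination (-8 * (catalan j : ℝ) * catalan (m - j)) * this
  have s2 : ∑ j ∈ range (m + 1 + 1), (catalan j * catalan (m + 1 - j) : ℝ) *
      (cos φ - cos (2 * (j + 1) * φ - φ)) =
      ∑ j ∈ range (m + 2), 2 * (catalan j * catalan (m + 1 - j) : ℝ) * (x j * x (j + 1)) := by
    apply Finset.sum_congr rfl; intro j _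
    simp only [hx]
    push_cast
    rw [show 2 * ((j : ℝ) + 1) * φ - φ = j * φ + (j * φ + φ) by ring,
      show ((j : ℝ) + 1) * φ = j * φ + φ by ring, cos_add (j * φ) (j * φ + φ), cos_add, sin_add]
    have := sin_sq_add_cos_sq ((j : ℝ) * φ)
    linear_combination (-(catalan j * catalan (m + 1 - j) : ℝ) * cos φ) * this
  rw [s1, s2]
  have xlast : x (m + 2) = 0 := by
    simp only [hx]
    push_cast
    rw [hnode, sin_nat_mul_pi]
  have x0 : x 0 = 0 := by simp [hx]
  -- compare with `∑ T` twice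
  set a : ℕ → ℝ := fun j => if j = 0 then 0 else T (j - 1) with ha
  set b : ℕ → ℝ := fun j => if j = m + 1 then 0 else T j with hb
  have sa : ∑ j ∈ range (m + 2), a j = ∑ j ∈ range (m + 1), T j := by
    rw [sum_range_succ']; simp [ha]
  have sb : ∑ j ∈ range (m + 2), b j = ∑ j ∈ range (m + 1), T j := by
    rw [sum_range_succ]
    simp only [hb, if_true, add_zero]
    apply Finset.sum_congr rfl; intro j hj
    rw [if_neg (by have := mem_range.1 hj; omega)]
  have fin : ∑ j ∈ range (m + 2), 2 * (catalan j * catalan (m + 1 - j) : ℝ) * (x j * x (j + 1)) +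
      2 * ∑ j ∈ range (m + 1), T j =
      ∑ j ∈ range (m + 2), (2 * (catalan j * catalan (m + 1 - j) : ℝ) * (x j * x (j + 1)) +
        a j + b j) := by
    rw [Finset.sum_add_distrib, Finset.sum_add_distrib, sa, sb]; ring
  rw [fin]
  have ha0 : ∀ j, 0 ≤ a j := by
    intro j; simp only [ha]; split_ifs; exact le_refl _; exact hT0 _
  have hb0 : ∀ j, 0 ≤ b j := by
    intro j; simp only [hb]; split_ifs; exact le_refl _; exact hT0 _
  apply Finset.sum_pos'
  · intro j hj
    have hj' : j ≤ m + 1 := Nat.lt_succ_iff.1 (mem_range.1 hj)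
    by_cases j0 : j = 0
    · subst j0; rw [x0]
      have := ha0 0; have := hb0 0
      simp only [zero_mul, mul_zero, zero_add]; linarith
    by_cases j1 : j = m + 1
    · subst j1; rw [show m + 1 + 1 = m + 2 by ring, xlast]
      have := ha0 (m + 1); have := hb0 (m + 1)
      simp only [mul_zero, zero_add]; linarith
    simp only [ha, hb, if_neg j0, if_neg j1, hT]
    obtain ⟨l, rfl⟩ : ∃ l, j = l + 1 := ⟨j - 1, by omega⟩
    rw [Nat.add_sub_cancel, show m + 1 - (l + 1) = m - (l + 1) + 1 by omega,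
      show m - l = m - (l + 1) + 1 by omega]
    set p := m - (l + 1) with hp
    have g1 := cat_le l
    have g2 := cat_le p
    have q1 := cat_pos l
    have q2 := cat_pos p
    have q3 := cat_pos (l + 1)
    have q4 := cat_pos (p + 1)
    set u := x (l + 1)
    set v := x (l + 1 + 1)
    have r1 : (catalan (l + 1) : ℝ) * catalan (p + 1) * u ^ 2 ≤
        4 * catalan l * catalan (p + 1) * u ^ 2 := by
      apply mul_le_mul_of_nonneg_right _ (sq_nonneg _)
      exact mul_le_mul_of_nonneg_right g1 q4.le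
    have r2 : (catalan (l + 1) : ℝ) * catalan (p + 1) * v ^ 2 ≤
        4 * catalan (l + 1) * catalan p * v ^ 2 := by
      apply mul_le_mul_of_nonneg_right _ (sq_nonneg _)
      nlinarith
    have r3 : 0 ≤ (catalan (l + 1) : ℝ) * catalan (p + 1) * (u + v) ^ 2 := by positivity
    nlinarith
  · refine ⟨0, by simp, ?_⟩
    rw [x0]
    simp only [zero_mul, mul_zero, zero_add, ha, hb, if_true]
    rw [if_neg (by omega)]
    simp only [hT, hx]
    have := cat_pos 0
    have := cat_pos (m - 0)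
    have : 0 < sin (((0 + 1 : ℕ) : ℝ) * φ) := by simpa using hs
    positivity

end Pool.Agent.H161
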