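import Pool.Graph.R_pool_sql_team_ae5b0c61.Results.MP_141d57_co.Q1

/-! Real-rootedness of the auxiliary polynomials
`Z_j(y) = ∑_k C_m binom(n-k,k)/(m+2) y^k`, `m = n-k-j-1`. -/

namespace Pool.Agent.H161
open Polynomial Finset
open Pool.Agent.Results.MP_141d57_co.Q1 (gl_iter iter_sum sum_ne square reverse binom cat_eq
  desc_eq alt_step alt_roots)

lemma z_pos (n j : ℕ) (hj : 1 ≤ j) (hjn : j + 1 ≤ n / 2) (s : ℂ)
    (hs : ∑ k ∈ range (n / 2 + 1), ((catalan (n - k - j - 1) : ℂ) * ((n - k).choose k : ℂ) /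
      ((n - k - j - 1 + 2 : ℕ) : ℂ) * (-1) ^ k) * s ^ (n - (j - 1) - k) = 0) : s.im = 0 := by
  set b : ℕ → ℂ := fun k =>
    (((n - j - 1).choose k : ℂ) * (-1) ^ k) *
      (2 * (n - j - 1) - 2 * k).descFactorial (n - 2 * j - 2) with hb
  have hb0 : b 0 ≠ 0 := by
    simp only [hb]
    simp [Nat.descFactorial_eq_zero_iff_lt]; omega
  have e1 : derivative^[n - 2 * j - 2] (((X : ℂ[X]) ^ 2 - 1) ^ (n - j - 1)) =
      ∑ k ∈ range (n / 2 + 1), C (b k) * X ^ (n - 2 * k) := by
    rw [binom, iter_sum]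
    symm
    apply Finset.sum_subset_zero_on_sdiff
    · intro k hk; simp at hk ⊢; omega
    · intro k hk
      simp at hk
      rw [Nat.descFactorial_eq_zero_iff_lt.2 (by omega)]; simp
    · intro k hk
      simp at hk
      congr 2; omega
  have r1 := gl_iter (n - 2 * j - 2) (((X : ℂ[X]) ^ 2 - 1) ^ (n - j - 1)) (by
    intro z hz
    simp only [eval_pow, eval_sub, eval_X, eval_one, pow_eq_zero_iff'] at hz
    have : (z - 1) * (z + 1) = 0 := by rw [← hz.1]; ring
    rcases mul_eq_zero.1 this with h | h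
    · rw [sub_eq_zero.1 h]; simp
    · rw [eq_neg_of_add_eq_zero_left h]; simp) (by
    rw [e1]; exact sum_ne _ _ _ hb0 (fun k h1 h2 => by omega))
  rw [e1] at r1
  have r2 := square n b (fun t ht => r1 t (by simpa [eval_finsetSum] using ht))
  have r3 := gl_iter (j - 1) (∑ k ∈ range (n / 2 + 1), C (b k) * X ^ (n - k))
    (fun z hz => r2 z (by simpa [eval_finsetSum] using hz)) (by
      rw [iter_sum]
      refine sum_ne _ (fun k => b k * (n - k).descFactorial (j - 1)) (fun k => n - k - (j - 1))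
        (mul_ne_zero hb0 ?_) (fun k h1 h2 => by omega)
      simp [Nat.descFactorial_eq_zero_iff_lt]; omega)
  rw [iter_sum] at r3
  apply r3 s
  rw [eval_finsetSum, ← mul_zero ((n - j - 1).factorial : ℂ), ← hs, Finset.mul_sum]
  apply Finset.sum_congr rfl; intro k hk
  have hk' : k ≤ n / 2 := by simpa [Nat.lt_succ_iff] using hk
  rw [eval_mul, eval_C, eval_pow, eval_X, show n - k - (j - 1) = n - (j - 1) - k by omega,
    ← mul_assoc]
  congr 1
  simp only [hb]
  have d1 := desc_eq (n - 2 * k) (n - 2 * j - 2)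
  have d2 := desc_eq (n - k - j - 1 + 2) (j - 1)
  rw [show n - 2 * k + (n - 2 * j - 2) = 2 * (n - k - j - 1) by omega] at d1
  rw [show n - k - j - 1 + 2 + (j - 1) = n - k by omega] at d2
  rw [show 2 * (n - j - 1) - 2 * k = 2 * (n - k - j - 1) by omega, d1, d2, cat_eq,
    Nat.cast_choose ℂ (show k ≤ n - j - 1 by omega), Nat.cast_choose ℂ (show k ≤ n - k by omega),
    show n - j - 1 - k = n - k - j - 1 by omega, show n - k - k = n - 2 * k by omega]
  set m := n - k - j - 1 with hm
  have f : ∀ m : ℕ, (m.factorial : ℂ) ≠ 0 := fun m => Nat.cast_ne_zero.2 m.factorial_ne_zero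
  have e5 : ((m + 2).factorial : ℂ) = ((m + 2 : ℕ) : ℂ) * ((m + 1).factorial : ℂ) := by
    rw [Nat.factorial_succ (m + 1), Nat.cast_mul]
  have hm2 : ((m + 2 : ℕ) : ℂ) ≠ 0 := Nat.cast_ne_zero.2 (by omega)
  rw [e5]
  have f1 := f m
  have f2 := f (m + 1)
  have f3 := f k
  have f4 := f (n - 2 * k)
  field_simp

lemma z_zero (n : ℕ) (hn : 2 ≤ n) (t : ℂ)
    (ht : ∑ k ∈ range (n / 2 + 1), ((catalan (n - k - 1) : ℂ) * ((n - k).choose k : ℂ) /
      ((n - k - 1 + 2 : ℕ) : ℂ) * (-1) ^ k) * t ^ (n - 2 * k) = 0) : t.im = 0 := by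
  -- the polynomials `p` and `q = p'/X`
  set p : ℝ[X] := ∑ k ∈ range (n + 1),
    C ((-1) ^ n * (((n + 1).choose k : ℝ) * (-1) ^ k)) * X ^ (2 * n - 2 * k) with hp
  set q : ℝ[X] := ∑ k ∈ range n,
    C ((-1) ^ n * (((n + 1).choose k : ℝ) * (-1) ^ k) * (2 * (n - k : ℕ) : ℝ)) *
      X ^ (2 * n - 2 * k - 2) with hq
  have h0 : X ^ 2 * p - 1 = C ((-1) ^ n) * (X ^ 2 - 1) ^ (n + 1) := by
    rw [binom, Finset.sum_range_succ, mul_add, hp, Finset.mul_sum, Finset.mul_sum, sub_eq_add_neg]
    congr 1
    · apply Finset.sum_congr rfl; intro k hk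
      have : k ≤ n := by simpa [Nat.lt_succ_iff] using hk
      rw [show 2 * (n + 1) - 2 * k = 2 + (2 * n - 2 * k) by omega, pow_add, C_mul]; ring
    · rw [Nat.sub_self, pow_zero, mul_one, ← C_mul, Nat.choose_self, pow_succ, Nat.cast_one,
        one_mul, ← mul_assoc, ← mul_pow]
      simp
  have hpq : derivative p = X * q := by
    rw [hp, Finset.sum_range_succ, derivative_add, Nat.sub_self, pow_zero, mul_one, derivative_C,
      add_zero, derivative_sum, hq, Finset.mul_sum]
    apply Finset.sum_congr rfl; intro k hk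
    have : k < n := mem_range.1 hk
    rw [derivative_C_mul_X_pow, show 2 * n - 2 * k - 1 = 2 * n - 2 * k - 2 + 1 by omega, pow_succ,
      show 2 * n - 2 * k = 2 * (n - k) by omega]
    push_cast
    ring
  have c2 : (C (2 : ℝ) : ℝ[X]) = 2 := map_ofNat C 2
  have hd : 2 * X * p + X ^ 2 * (X * q) =
      C ((-1) ^ n) * (C ((n : ℝ) + 1) * (X ^ 2 - 1) ^ n * (2 * X)) := by
    have e1 : derivative (X ^ 2 * p - 1) = 2 * X * p + X ^ 2 * (X * q) := by
      rw [derivative_sub, derivative_mul, derivative_X_pow, derivative_one, hpq, Nat.cast_ofNat, c2]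
      norm_num
    rw [← e1, h0, derivative_C_mul, derivative_pow_succ, derivative_sub, derivative_X_pow,
      derivative_one, Nat.cast_ofNat, c2]
    norm_num
  have dv : ∀ r, ((X : ℝ[X]) ^ 2 - 1) ^ (n - r) ∣
      X ^ (r + 4) * derivative^[r] q + C ((-1) ^ r * (((r + 3).factorial : ℝ) / 3)) := by
    intro r
    induction r with
    | zero =>
      refine Dvd.intro (C ((-1) ^ n) * (2 * C ((n : ℝ) + 1) * X ^ 2 - 2 * (X ^ 2 - 1))) ?_
      simp only [Function.iterate_zero_apply, Nat.sub_zero]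
      have c3 : ((-1 : ℝ) ^ 0 * (((0 + 3).factorial : ℝ) / 3)) = 2 := by
        norm_num [Nat.factorial]
      rw [c3]
      rw [c2]
      generalize C ((-1 : ℝ) ^ n) = ε at hd h0 ⊢
      linear_combination (-X) * hd + 2 * h0
    | succ r ih =>
      have a1 := pow_sub_one_dvd_derivative_of_pow_dvd ih
      have a2 := (pow_dvd_pow ((X : ℝ[X]) ^ 2 - 1) (Nat.sub_le (n - r) 1)).trans ih
      have a3 := dvd_sub (a1.mul_left X) (a2.mul_left (C ((r : ℝ) + 4)))
      rw [show n - (r + 1) = n - r - 1 by omega, Function.iterate_succ_apply']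
      refine dvd_trans a3 (dvd_of_eq ?_)
      have c4 : ((-1 : ℝ) ^ (r + 1) * (((r + 1 + 3).factorial : ℝ) / 3)) =
          -(((r : ℝ) + 4) * ((-1) ^ r * (((r + 3).factorial : ℝ) / 3))) := by
        rw [show r + 1 + 3 = (r + 3) + 1 by ring, Nat.factorial_succ (r + 3)]
        push_cast; ring
      rw [c4]
      simp only [derivative_mul, derivative_X_pow, derivative_C, map_mul, map_add,
        map_neg, map_natCast, map_ofNat, show r + 4 - 1 = r + 3 by omega, Nat.cast_add,
        Nat.cast_ofNat]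
      ring
  have fp : ∀ r : ℕ, (0:ℝ) < ((r + 3).factorial : ℝ) / 3 := fun r => by positivity
  have ev : ∀ r < n, ∀ s : ℝ, s ^ 2 = 1 →
      s ^ r * (derivative^[r] (-q)).eval s = (-1) ^ r * (((r + 3).factorial : ℝ) / 3) := by
    intro r hr s hs
    obtain ⟨u, hu⟩ := dv r
    have := congrArg (eval s) hu
    simp only [eval_add, eval_sub, eval_mul, eval_pow, eval_X, eval_C, eval_one, hs,
      sub_self] at this
    rw [zero_pow (by omega), zero_mul, pow_add, show s ^ 4 = (s ^ 2) ^ 2 by ring, hs] at this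
    rw [iterate_derivative_neg, eval_neg]
    linarith
  have sq' : ∀ r : ℕ, ((-1:ℝ) ^ r) * (-1) ^ r = 1 := fun r => by rw [← mul_pow]; simp
  have el : ∀ r < n, 0 < (derivative^[r] (-q)).eval (-1) := by
    intro r hr
    have := ev r hr (-1) (by norm_num)
    rw [mul_left_cancel₀ (by positivity) this]; exact fp r
  have er : ∀ r < n, 0 < (-1) ^ r * (derivative^[r] (-q)).eval 1 := by
    intro r hr
    have := ev r hr 1 (by norm_num)
    rw [one_pow, one_mul] at this
    rw [this, ← mul_assoc, sq', one_mul]; exact fp r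
  have alt : ∀ r < n, ∃ y : ℕ → ℝ, (∀ i < r, y i < y (i + 1)) ∧ -1 ≤ y 0 ∧ y r ≤ 1 ∧
      ∀ i ≤ r, 0 < (-1) ^ i * (derivative^[r] (-q)).eval (y i) := by
    intro r
    induction r with
    | zero =>
      intro _
      refine ⟨fun _ => -1, by simp, le_rfl, by norm_num, ?_⟩
      intro i hi
      rw [Nat.le_zero.1 hi]; simpa using el 0 (by omega)
    | succ r ih =>
      intro hr
      obtain ⟨x, h1, h2, h3, h4⟩ := ih (by omega)
      have a1 := el (r + 1) hr
      have a2 := er (r + 1) hr
      rw [Function.iterate_succ_apply'] at a1 a2 ⊢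
      exact alt_step _ r x h1 h2 h3 h4 a1 a2
  obtain ⟨x, h1, h2, h3, h4⟩ := alt (n - 2) (by omega)
  -- explicit form of the derivative
  set c : ℕ → ℝ := fun k => (-1) ^ n * (((n + 1).choose k : ℝ) * (-1) ^ k) *
    (2 * (n - k : ℕ) : ℝ) * (2 * n - 2 * k - 2).descFactorial (n - 2) with hc
  have hform : derivative^[n - 2] q = ∑ k ∈ range (n / 2 + 1), C (c k) * X ^ (n - 2 * k) := by
    rw [hq, iter_sum]
    symm
    apply Finset.sum_subset_zero_on_sdiff
    · intro k hk; simp at hk ⊢; omega
    · intro k hk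
      simp at hk
      rw [Nat.descFactorial_eq_zero_iff_lt.2 (by omega)]; simp
    · intro k hk
      simp at hk
      congr 2; omega
  set f := derivative^[n - 2] q with hf
  have hfneg : ∀ s : ℝ, f.eval (-s) = (-1) ^ n * f.eval s := by
    intro s
    rw [hform, eval_finsetSum, eval_finsetSum, Finset.mul_sum]
    apply Finset.sum_congr rfl; intro k hk
    have hk' : k ≤ n / 2 := by simpa [Nat.lt_succ_iff] using hk
    simp only [eval_mul, eval_C, eval_pow, eval_X]
    rw [neg_pow s (n - 2 * k)]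
    have : ((-1 : ℝ)) ^ n = (-1) ^ (n - 2 * k) := by
      conv_lhs => rw [show n = n - 2 * k + 2 * k by omega, pow_add, pow_mul, neg_one_sq, one_pow,
        mul_one]
    rw [this]; ring
  have hfc : f.coeff n = c 0 := by
    rw [hform, finsetSum_coeff, Finset.sum_eq_single 0]
    · simp
    · intro k hk hk0
      have hk' : k ≤ n / 2 := by simpa [Nat.lt_succ_iff] using hk
      rw [coeff_C_mul_X_pow, if_neg (by omega)]
    · simp
  have hfd : f.natDegree ≤ n := by
    rw [hform]
    apply natDegree_sum_le_of_forall_le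
    intro k _
    exact (natDegree_C_mul_X_pow_le _ _).trans (Nat.sub_le _ _)
  have hc0 : 0 < (-1) ^ n * c 0 := by
    simp only [hc]
    have : (0 : ℝ) < (2 * n - 2 * 0 - 2).descFactorial (n - 2) := by
      have : 0 < (2 * n - 2 * 0 - 2).descFactorial (n - 2) := Nat.descFactorial_pos.2 (by omega)
      exact_mod_cast this
    have hn' : (0 : ℝ) < n := by exact_mod_cast (by omega : 0 < n)
    have e : (-1 : ℝ) ^ n * ((-1) ^ n * (((n + 1).choose 0 : ℝ) * (-1) ^ 0) *
      (2 * (n - 0 : ℕ) : ℝ) * ((2 * n - 2 * 0 - 2).descFactorial (n - 2) : ℝ)) =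
      ((-1 : ℝ) ^ n * (-1) ^ n) * (2 * n * ((2 * n - 2 * 0 - 2).descFactorial (n - 2) : ℝ)) := by
      simp; ring
    rw [e, sq', one_mul]
    positivity
  obtain ⟨R, hR1, hR2⟩ : ∃ R : ℝ, 1 < R ∧ 0 < (-1) ^ n * f.eval R := by
    set g := C ((-1) ^ n) * f with hg
    have hgn : g.natDegree = n := by
      apply le_antisymm
      · exact (natDegree_C_mul_le _ _).trans hfd
      · apply le_natDegree_of_ne_zero
        rw [hg, coeff_C_mul, hfc]; exact hc0.ne'
    have hgl : 0 < g.leadingCoeff := by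
      rw [leadingCoeff, hgn, hg, coeff_C_mul, hfc]; exact hc0
    have ht := g.tendsto_atTop_of_leadingCoeff_nonneg (by
      rw [← natDegree_pos_iff_degree_pos, hgn]; omega) hgl.le
    obtain ⟨R, hR⟩ := ((ht.eventually_gt_atTop 0).and (Filter.eventually_gt_atTop (1:ℝ))).exists
    refine ⟨R, hR.2, ?_⟩
    have := hR.1
    rw [hg, eval_mul, eval_C] at this
    exact this
  have hmono : ∀ i ≤ n - 2, -1 ≤ x i ∧ x i ≤ 1 := by
    have a : ∀ i ≤ n - 2, x 0 ≤ x i := by
      intro i
      induction i with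
      | zero => simp
      | succ i ih => intro hi; have := h1 i (by omega); have := ih (by omega); linarith
    have b : ∀ i ≤ n - 2, x (n - 2 - i) ≤ x (n - 2) := by
      intro i
      induction i with
      | zero => simp
      | succ i ih =>
        intro hi
        have h := h1 (n - 2 - (i + 1)) (by omega)
        rw [show n - 2 - (i + 1) + 1 = n - 2 - i by omega] at h
        have := ih (by omega); linarith
    intro i hi
    have b' := b (n - 2 - i) (by omega)
    rw [show n - 2 - (n - 2 - i) = i by omega] at b'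
    exact ⟨by linarith [a i hi], by linarith⟩
  have r1 := alt_roots f n hfd (fun i => if i = 0 then -R else if i ≤ n - 1 then x (i - 1) else R)
    (by
      intro i hi
      by_cases i0 : i = 0
      · subst i0
        have := (hmono 0 (by omega)).1
        rw [if_pos rfl, if_neg (by omega), if_pos (by omega)]
        simp only [zero_add, Nat.sub_self]
        linarith
      · rw [if_neg i0, if_pos (by omega), if_neg (by omega)]
        by_cases hi1 : i + 1 ≤ n - 1
        · rw [if_pos hi1]
          have := h1 (i - 1) (by omega)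
          rw [show i - 1 + 1 = i by omega] at this
          simpa using this
        · rw [if_neg hi1]
          have := (hmono (i - 1) (by omega)).2
          linarith)
    (by
      intro i hi
      by_cases i0 : i = 0
      · subst i0
        rw [if_pos rfl, pow_zero, one_mul, hfneg]; exact hR2
      · rw [if_neg i0]
        by_cases hi1 : i ≤ n - 1
        · rw [if_pos hi1]
          have := h4 (i - 1) (by omega)
          rw [iterate_derivative_neg, eval_neg, ← hf] at this
          obtain ⟨m, rfl⟩ : ∃ m, i = m + 1 := ⟨i - 1, by omega⟩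
          rw [Nat.add_sub_cancel] at this ⊢
          rw [pow_succ]; linarith
        · rw [if_neg hi1]
          have : i = n := by omega
          subst this
          exact hR2) t
  apply r1
  rw [hform, map_sum, ← mul_zero ((-1) ^ n * (2 * ((n + 1).factorial : ℂ))), ← ht,
    Finset.mul_sum]
  apply Finset.sum_congr rfl; intro k hk
  have hk' : k ≤ n / 2 := by simpa [Nat.lt_succ_iff] using hk
  have d1 := desc_eq (n - 2 * k) (n - 2)
  rw [show n - 2 * k + (n - 2) = 2 * (n - k - 1) by omega] at d1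
  simp only [hc, map_mul, map_pow, map_neg, map_one, map_natCast, map_ofNat, aeval_X]
  rw [show 2 * n - 2 * k - 2 = 2 * (n - k - 1) by omega]
  have hnk : ((n - k : ℕ) : ℂ) = ((n - k - 1 + 1 : ℕ) : ℂ) := by
    rw [show n - k - 1 + 1 = n - k by omega]
  push_cast
  rw [d1, cat_eq, Nat.cast_choose ℂ (show k ≤ n + 1 by omega),
    Nat.cast_choose ℂ (show k ≤ n - k by omega), show n - k - k = n - 2 * k by omega,
    show n + 1 - k = n - k - 1 + 2 by omega, hnk]
  have e6 : ((n - k).factorial : ℂ) = ((n - k - 1 + 1).factorial : ℂ) := by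
    rw [show n - k - 1 + 1 = n - k by omega]
  rw [e6]
  set m := n - k - 1 with hm
  have f : ∀ m : ℕ, (m.factorial : ℂ) ≠ 0 := fun m => Nat.cast_ne_zero.2 m.factorial_ne_zero
  have e5 : ((m + 2).factorial : ℂ) = ((m : ℂ) + 2) * ((m + 1).factorial : ℂ) := by
    rw [Nat.factorial_succ (m + 1)]; push_cast; ring
  have e7 : ((m + 1).factorial : ℂ) = ((m : ℂ) + 1) * (m.factorial : ℂ) := by
    rw [Nat.factorial_succ m]; push_cast; ring
  have hm2 : (m : ℂ) + 2 ≠ 0 := by exact_mod_cast (by omega : m + 2 ≠ 0)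
  have hm1 : (m : ℂ) + 1 ≠ 0 := by exact_mod_cast (by omega : m + 1 ≠ 0)
  rw [e5, e7]
  have f1 := f m
  have f3 := f k
  have f4 := f (n - 2 * k)
  push_cast
  field_simp

end Pool.Agent.H161
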