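import Pool.Agent.H161.ToricCross
import Pool.Agent.H161.ToricZ
import Pool.Agent.H161.ToricSign

/-! The common interlacer of the toric `g`-contribution polynomials. -/

namespace Pool.Agent.H161
open Polynomial Finset

/-- `∑_{k ≤ N} a_k X^k`. -/
noncomputable def pol (N : ℕ) (a : ℕ → ℝ) : ℝ[X] := ∑ k ∈ range (N + 1), C (a k) * X ^ k

lemma pol_aeval (N : ℕ) (a : ℕ → ℝ) (z : ℂ) :
    aeval z (pol N a) = ∑ k ∈ range (N + 1), (a k : ℂ) * z ^ k := by
  simp [pol]

lemma pol_eval (N : ℕ) (a : ℕ → ℝ) (x : ℝ) :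
    (pol N a).eval x = ∑ k ∈ range (N + 1), a k * x ^ k := by
  simp [pol, eval_finsetSum]

lemma pol_coeff (N : ℕ) (a : ℕ → ℝ) (k : ℕ) (hk : k ≤ N) : (pol N a).coeff k = a k := by
  rw [pol, finsetSum_coeff, Finset.sum_eq_single k]
  · simp
  · intro j _ hj; rw [coeff_C_mul_X_pow, if_neg hj.symm]
  · intro h; exact absurd (mem_range.2 (by omega)) h

lemma pol_natDegree_le (N : ℕ) (a : ℕ → ℝ) : (pol N a).natDegree ≤ N := by
  apply natDegree_sum_le_of_forall_le
  intro k hk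
  exact (natDegree_C_mul_X_pow_le _ _).trans (Nat.lt_succ_iff.1 (mem_range.1 hk))

lemma pol_step (N : ℕ) (a b : ℕ → ℝ) (s : ℝ) (h : ∀ k ≤ N, b k = (s - k) * a k) (y : ℂ) :
    aeval y (pol N b) = s * aeval y (pol N a) - y * aeval y (derivative (pol N a)) := by
  have e : aeval y (derivative (pol N a)) =
      ∑ k ∈ range (N + 1), (a k : ℂ) * ((k : ℂ) * y ^ (k - 1)) := by
    rw [pol, derivative_sum, map_sum]
    apply Finset.sum_congr rfl; intro k _
    rw [derivative_C_mul_X_pow]; simp; ring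
  rw [e, pol_aeval, pol_aeval, Finset.mul_sum, Finset.mul_sum, ← Finset.sum_sub_distrib]
  apply Finset.sum_congr rfl; intro k hk
  have hk' : k ≤ N := Nat.lt_succ_iff.1 (mem_range.1 hk)
  rw [h k hk']
  rcases Nat.eq_zero_or_pos k with rfl | hk0
  · simp
  · have : y ^ k = y * y ^ (k - 1) := by
      conv_lhs => rw [show k = k - 1 + 1 by omega, pow_succ]
      ring
    rw [this]; push_cast; ring

lemma pol_neg (N : ℕ) (a : ℕ → ℝ) (ha : ∀ k ≤ N, 0 < a k)
    (hr : ∀ z : ℂ, ∑ k ∈ range (N + 1), (a k : ℂ) * z ^ k = 0 → z.im = 0) :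
    ∀ z : ℂ, aeval z (pol N a) = 0 → z.im = 0 ∧ z.re < 0 := by
  intro z hz
  have him : z.im = 0 := hr z (by rw [← pol_aeval]; exact hz)
  refine ⟨him, ?_⟩
  by_contra hc
  have hz' : z = ((z.re : ℝ) : ℂ) := by apply Complex.ext <;> simp [him]
  rw [hz', pol_aeval] at hz
  have h2 : ∑ k ∈ range (N + 1), a k * z.re ^ k = 0 := by exact_mod_cast hz
  have h3 : 0 < ∑ k ∈ range (N + 1), a k * z.re ^ k := by
    apply Finset.sum_pos'
    · intro k hk
      exact mul_nonneg (ha k (Nat.lt_succ_iff.1 (mem_range.1 hk))).le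
        (pow_nonneg (not_lt.1 hc) k)
    · exact ⟨0, by simp, by simpa using ha 0 (Nat.zero_le _)⟩
  linarith

lemma pol_herg (N : ℕ) (hN : 0 < N) (a : ℕ → ℝ) (ha : ∀ k ≤ N, 0 < a k)
    (hr : ∀ z : ℂ, ∑ k ∈ range (N + 1), (a k : ℂ) * z ^ k = 0 → z.im = 0) (y : ℂ)
    (hy : 0 < y.im) :
    0 < cr (aeval y (pol N a)) (y * aeval y (derivative (pol N a))) := by
  apply herg _ _ (pol_neg N a ha hr) y hy
  have : N ≤ (pol N a).natDegree := by
    apply le_natDegree_of_ne_zero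
    rw [pol_coeff N a N le_rfl]; exact (ha N le_rfl).ne'
  omega

/-- coefficients of `G_j` -/
noncomputable def gc (n j k : ℕ) : ℝ := (catalan (n - k - j) : ℝ) * (n - k).choose k
/-- coefficients of `Dt` -/
noncomputable def dc (n k : ℕ) : ℝ := (Nat.centralBinom (n - k) : ℝ) * (n - k).choose k
/-- coefficients of `Z_j` -/
noncomputable def zc (n j k : ℕ) : ℝ :=
  (catalan (n - k - j - 1) : ℝ) * (n - k).choose k / ((n - k - j - 1 + 2 : ℕ) : ℝ)

lemma ch_pos (n k : ℕ) (hk : k ≤ n / 2) : (0 : ℝ) < (n - k).choose k := by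
  have : 0 < (n - k).choose k := Nat.choose_pos (by omega)
  exact_mod_cast this

lemma gc_pos (n j k : ℕ) (hk : k ≤ n / 2) : 0 < gc n j k := mul_pos (cat_pos _) (ch_pos n k hk)
lemma zc_pos (n j k : ℕ) (hk : k ≤ n / 2) : 0 < zc n j k :=
  div_pos (mul_pos (cat_pos _) (ch_pos n k hk)) (by exact_mod_cast (by omega))
lemma dc_pos (n k : ℕ) (hk : k ≤ n / 2) : 0 < dc n k :=
  mul_pos (by exact_mod_cast Nat.centralBinom_pos _) (ch_pos n k hk)

lemma z_real (n j : ℕ) (hj : j + 1 ≤ n / 2) (z : ℂ)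
    (hz : ∑ k ∈ range (n / 2 + 1), (zc n j k : ℂ) * z ^ k = 0) : z.im = 0 := by
  have hz' : ∑ k ∈ range (n / 2 + 1), ((catalan (n - k - j - 1) : ℂ) * ((n - k).choose k : ℂ) /
      ((n - k - j - 1 + 2 : ℕ) : ℂ)) * z ^ k = 0 := by
    rw [← hz]
    apply Finset.sum_congr rfl; intro k _
    simp only [zc]; push_cast; rfl
  rcases Nat.eq_zero_or_pos j with rfl | hj1
  · exact Pool.Agent.Results.MP_141d57_co.Q1.reverse (n / 2) n (by omega) _
      (Pool.Agent.Results.MP_141d57_co.Q1.square n _ (fun t ht => z_zero n (by omega) t ht)) _ hz'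
  · exact Pool.Agent.Results.MP_141d57_co.Q1.reverse (n / 2) (n - (j - 1)) (by omega) _
      (fun s hs => z_pos n j hj1 hj s hs) _ hz'

lemma g0_real (n : ℕ) (z : ℂ)
    (hz : ∑ k ∈ range (n / 2 + 1), (gc n 0 k : ℂ) * z ^ k = 0) : z.im = 0 := by
  have hz' : ∑ k ∈ range (n / 2 + 1), ((catalan (n - k) : ℂ) * ((n - k).choose k : ℂ)) *
      z ^ k = 0 := by
    rw [← hz]
    apply Finset.sum_congr rfl; intro k _
    simp only [gc]; push_cast; rfl
  exact Pool.Agent.Results.MP_141d57_co.Q1.reverse (n / 2) n (by omega) _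
    (Pool.Agent.Results.MP_141d57_co.Q1.square n _
      (Pool.Agent.Results.MP_141d57_co.Q1.case_zero n)) _ hz'

/-- `G_j ≪ G_{j+1}` -/
lemma cr_G (n j : ℕ) (hj : j + 1 ≤ n / 2) (y : ℂ) (hy : 0 < y.im) :
    0 < cr (aeval y (pol (n / 2) (gc n j))) (aeval y (pol (n / 2) (gc n (j + 1)))) := by
  have h := pol_herg (n / 2) (by omega) (zc n j) (fun k hk => zc_pos n j k hk)
    (z_real n j hj) y hy
  have s1 := pol_step (n / 2) (zc n j) (gc n (j + 1)) ((n : ℝ) - j + 1) (by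
    intro k hk
    simp only [gc, zc]
    obtain ⟨m, hm⟩ : ∃ m, n = m + j + 1 + k := ⟨n - k - j - 1, by omega⟩
    have e : (n : ℝ) = m + j + 1 + k := by rw [hm]; push_cast; ring
    rw [show n - k - (j + 1) = m by omega, show n - k - j - 1 = m by omega, e]
    have : (m : ℝ) + 2 ≠ 0 := by positivity
    push_cast
    field_simp
    ring) y
  have s2 : aeval y (pol (n / 2) (gc n j)) =
      4 * aeval y (pol (n / 2) (gc n (j + 1))) - 6 * aeval y (pol (n / 2) (zc n j)) := by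
    rw [pol_aeval, pol_aeval, pol_aeval, Finset.mul_sum, Finset.mul_sum, ← Finset.sum_sub_distrib]
    apply Finset.sum_congr rfl; intro k hk
    have hk' : k ≤ n / 2 := Nat.lt_succ_iff.1 (mem_range.1 hk)
    have e : gc n j k = 4 * gc n (j + 1) k - 6 * zc n j k := by
      simp only [gc, zc]
      obtain ⟨m, hm⟩ : ∃ m, n = m + j + 1 + k := ⟨n - k - j - 1, by omega⟩
      rw [show n - k - (j + 1) = m by omega, show n - k - j - 1 = m by omega,
        show n - k - j = m + 1 by omega, cat_succ_eq]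
      have : (m : ℝ) + 2 ≠ 0 := by positivity
      push_cast
      field_simp
      ring
    rw [e]; push_cast; ring
  rw [s2, s1]
  set u := aeval y (pol (n / 2) (zc n j))
  set w := y * aeval y (derivative (pol (n / 2) (zc n j)))
  have e : cr (4 * (((((n : ℝ) - j + 1 : ℝ)) : ℂ) * u - w) - 6 * u)
      ((((n : ℝ) - j + 1 : ℝ) : ℂ) * u - w) = 6 * cr u w := by
    generalize ((n : ℝ) - j + 1) = s
    simp [cr]
    ring
  rw [e]
  linarith

/-- `Dt ≪ G_0` -/
lemma cr_D (n : ℕ) (hn : 2 ≤ n) (y : ℂ) (hy : 0 < y.im) :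
    0 < cr (aeval y (pol (n / 2) (dc n))) (aeval y (pol (n / 2) (gc n 0))) := by
  have h := pol_herg (n / 2) (by omega) (gc n 0) (fun k hk => gc_pos n 0 k hk)
    (g0_real n) y hy
  have s1 := pol_step (n / 2) (gc n 0) (dc n) ((n : ℝ) + 1) (by
    intro k hk
    simp only [gc, dc]
    rw [cb_eq, Nat.sub_zero, Nat.cast_sub (by omega : k ≤ n)]
    ring) y
  rw [s1]
  set u := aeval y (pol (n / 2) (gc n 0))
  set w := y * aeval y (derivative (pol (n / 2) (gc n 0)))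
  have e : cr ((((n : ℝ) + 1 : ℝ) : ℂ) * u - w) u = cr u w := by
    generalize ((n : ℝ) + 1) = s
    simp [cr]
    ring
  rw [e]
  exact h

/-! ### The nodes -/

/-- the nodes `-1/cos²(π (i+1)/(n+1))` -/
noncomputable def nd (n i : ℕ) : ℝ := -1 / Real.cos (Real.pi * ((i + 1 : ℕ) : ℝ) / (n + 1)) ^ 2

lemma node_cos (n i : ℕ) (hi : i < n / 2) :
    0 < Real.cos (Real.pi * ((i + 1 : ℕ) : ℝ) / (n + 1)) ∧
    0 < Real.pi * ((i + 1 : ℕ) : ℝ) / (n + 1) ∧
    Real.pi * ((i + 1 : ℕ) : ℝ) / (n + 1) < Real.pi / 2 := by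
  have hin' : 2 * ((i + 1 : ℕ) : ℝ) ≤ n := by exact_mod_cast (by omega : 2 * (i + 1) ≤ n)
  have hi' : (1 : ℝ) ≤ ((i + 1 : ℕ) : ℝ) := by exact_mod_cast (by omega : 1 ≤ i + 1)
  have h0 : 0 < Real.pi * ((i + 1 : ℕ) : ℝ) / (n + 1) := by positivity
  have h1 : Real.pi * ((i + 1 : ℕ) : ℝ) / (n + 1) < Real.pi / 2 := by
    rw [div_lt_div_iff₀ (by positivity) (by norm_num)]
    nlinarith [Real.pi_pos]
  exact ⟨Real.cos_pos_of_mem_Ioo ⟨by linarith [Real.pi_pos], h1⟩, h0, h1⟩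

lemma nd_anti (n i j : ℕ) (hij : i < j) (hj : j < n / 2) : nd n j < nd n i := by
  obtain ⟨a1, a2, a3⟩ := node_cos n i (by omega)
  obtain ⟨b1, b2, b3⟩ := node_cos n j hj
  have hij' : ((i + 1 : ℕ) : ℝ) < ((j + 1 : ℕ) : ℝ) := by exact_mod_cast (by omega)
  have h : Real.pi * ((i + 1 : ℕ) : ℝ) / (n + 1) < Real.pi * ((j + 1 : ℕ) : ℝ) / (n + 1) := by
    apply div_lt_div_of_pos_right _ (by positivity)
    exact mul_lt_mul_of_pos_left hij' Real.pi_pos
  have hc := Real.cos_lt_cos_of_nonneg_of_le_pi a2.le (by linarith [Real.pi_pos]) h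
  simp only [nd]
  rw [neg_div, neg_div, neg_lt_neg_iff]
  apply one_div_lt_one_div_of_lt (by positivity)
  exact pow_lt_pow_left₀ hc b1.le (by norm_num)

lemma D_node (n i : ℕ) (hn : 2 ≤ n) (hi : i < n / 2) :
    0 < (-1) ^ (i + 1) * (pol (n / 2) (dc n)).eval (nd n i) := by
  obtain ⟨a1, a2, a3⟩ := node_cos n i hi
  have h := AA_sign n (i + 1) hn (by omega) (by omega)
  set ψ := Real.pi * ((i + 1 : ℕ) : ℝ) / (n + 1) with hψ
  have e := (AA_eq ψ a1.ne' n).1
  have e2 : (pol (n / 2) (dc n)).eval (nd n i) = Dr n (-1 / Real.cos ψ ^ 2) := by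
    rw [pol_eval, Dr]
    change ∑ k ∈ range (n / 2 + 1), dc n k * (-1 / Real.cos ψ ^ 2) ^ k = _
    apply Finset.sum_subset_zero_on_sdiff
    · intro k hk; simp at hk ⊢; omega
    · intro k hk
      simp only [mem_sdiff, mem_range] at hk
      rw [Nat.choose_eq_zero_of_lt (by omega : n - k < k)]; simp
    · intro k _; rfl
  rw [e2]
  rw [← e] at h
  have h2 : 0 < (2 * Real.cos ψ) ^ n * ((-1) ^ (i + 1) * Dr n (-1 / Real.cos ψ ^ 2)) := by
    linarith
  exact (pos_iff_pos_of_mul_pos h2).1 (by positivity)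

lemma G_node_even (m i : ℕ) (hi : i < m + 1) :
    0 < (-1) ^ (i + 1) * (pol (m + 1) (gc (2 * m + 2) (m + 1))).eval (nd (2 * m + 2) i) := by
  obtain ⟨a1, a2, a3⟩ := node_cos (2 * m + 2) i (by omega)
  have h := YY_sign_even m (i + 1) (by omega) (by omega)
  have hψe : Real.pi * ((i + 1 : ℕ) : ℝ) / (((2 * m + 2 : ℕ) : ℝ) + 1) =
      Real.pi * ((i + 1 : ℕ) : ℝ) / (2 * m + 3) := by push_cast; congr 1; ring
  have hnd : nd (2 * m + 2) i =
      -1 / Real.cos (Real.pi * ((i + 1 : ℕ) : ℝ) / (2 * m + 3)) ^ 2 := by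
    rw [nd, hψe]
  rw [hψe] at a1
  set ψ := Real.pi * ((i + 1 : ℕ) : ℝ) / (2 * m + 3) with hψ
  have e := (EE_eq (2 * ψ) (Real.cos ψ ^ 2) (by positivity) (Real.cos_two_mul ψ) m).1
  have e2 : (pol (m + 1) (gc (2 * m + 2) (m + 1))).eval (nd (2 * m + 2) i) =
      Er (m + 1) (-1 / Real.cos ψ ^ 2) := by
    rw [pol_eval, Er, hnd]
    apply Finset.sum_congr rfl; intro k hk
    have hk' : k ≤ m + 1 := Nat.lt_succ_iff.1 (mem_range.1 hk)
    rw [gc, show 2 * m + 2 - k - (m + 1) = m + 1 - k by omega,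
      show 2 * m + 2 - k = 2 * (m + 1) - k by omega]
  rw [e2]
  have h' : -((-1) ^ (i + 1) * YY (m + 2) (2 * ψ)) =
      (-1) ^ (i + 1) * (-YY (m + 2) (2 * ψ)) := by ring
  rw [h', ← e] at h
  have h2 : 0 < (2 * 4 ^ (m + 1) * (Real.cos ψ ^ 2) ^ (m + 2)) *
      ((-1) ^ (i + 1) * Er (m + 1) (-1 / Real.cos ψ ^ 2)) := by
    linarith
  exact (pos_iff_pos_of_mul_pos h2).1 (by positivity)

lemma G_node_odd (m i : ℕ) (hi : i < m + 1) :
    0 < (-1) ^ (i + 1) * (pol (m + 1) (gc (2 * m + 3) (m + 1))).eval (nd (2 * m + 3) i) := by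
  obtain ⟨a1, a2, a3⟩ := node_cos (2 * m + 3) i (by omega)
  have h := YY_sign_odd m (i + 1) (by omega) (by omega)
  set ψ := Real.pi * ((i + 1 : ℕ) : ℝ) / (((2 * m + 3 : ℕ) : ℝ) + 1) with hψ
  have hφ : Real.pi * ((i + 1 : ℕ) : ℝ) / ((m : ℝ) + 2) = 2 * ψ := by
    rw [hψ]; push_cast
    field_simp
    ring
  rw [hφ] at h
  have hnd : nd (2 * m + 3) i = -1 / Real.cos ψ ^ 2 := by rw [nd]
  have hs0 : Real.cos ψ ^ 2 ≠ 0 := by positivity
  have e := EE_eq (2 * ψ) (Real.cos ψ ^ 2) hs0 (Real.cos_two_mul ψ) m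
  have e2 : ∀ y : ℝ, (pol (m + 1) (gc (2 * m + 3) (m + 1))).eval y =
      Er (m + 2) y - y * Er (m + 1) y := by
    intro y
    rw [pol_eval, Er, Er, sum_range_succ' (n := m + 1), sum_range_succ' (n := m + 1 + 1),
      Finset.mul_sum]
    have c0 : gc (2 * m + 3) (m + 1) 0 * y ^ 0 =
        ((catalan (m + 2 - 0) : ℝ) * (2 * (m + 2) - 0).choose 0) * y ^ 0 := by
      rw [gc, show 2 * m + 3 - 0 - (m + 1) = m + 2 - 0 by omega]; simp
    rw [c0, add_sub_right_comm]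
    congr 1
    rw [← Finset.sum_sub_distrib, sum_range_succ (n := m + 1)]
    have c1 : ((catalan (m + 2 - (m + 1 + 1)) : ℝ) *
        (2 * (m + 2) - (m + 1 + 1)).choose (m + 1 + 1)) * y ^ (m + 1 + 1) -
        y * (((catalan (m + 1 - (m + 1)) : ℝ) * (2 * (m + 1) - (m + 1)).choose (m + 1)) *
          y ^ (m + 1)) = 0 := by
      rw [show 2 * (m + 2) - (m + 1 + 1) = m + 1 + 1 by omega,
        show 2 * (m + 1) - (m + 1) = m + 1 by omega]
      simp; ring
    rw [c1, add_zero]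
    apply Finset.sum_congr rfl; intro k hk
    have hk' : k ≤ m := Nat.lt_succ_iff.1 (mem_range.1 hk)
    rw [gc, show 2 * m + 3 - (k + 1) - (m + 1) = m + 1 - k by omega,
      show m + 2 - (k + 1) = m + 1 - k by omega,
      show 2 * m + 3 - (k + 1) = 2 * (m + 1) - k by omega,
      show 2 * (m + 2) - (k + 1) = 2 * (m + 1) - k + 1 by omega, Nat.choose_succ_succ]
    push_cast; ring
  rw [e2, hnd]
  have h' : -((-1) ^ (i + 1) * (YY (m + 3) (2 * ψ) + 4 * YY (m + 2) (2 * ψ))) =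
      (-1) ^ (i + 1) * (-YY (m + 3) (2 * ψ) + 4 * (-YY (m + 2) (2 * ψ))) := by ring
  rw [h', ← e.1, ← e.2] at h
  have h2 : 0 < (2 * 4 ^ (m + 2) * (Real.cos ψ ^ 2) ^ (m + 3)) *
      ((-1) ^ (i + 1) * (Er (m + 2) (-1 / Real.cos ψ ^ 2) -
        -1 / Real.cos ψ ^ 2 * Er (m + 1) (-1 / Real.cos ψ ^ 2))) := by
    refine lt_of_lt_of_eq h ?_
    field_simp
    ring
  exact (pos_iff_pos_of_mul_pos h2).1 (by positivity)

lemma G_node (n i : ℕ) (hn : 2 ≤ n) (hi : i < n / 2) :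
    0 < (-1) ^ (i + 1) * (pol (n / 2) (gc n (n / 2))).eval (nd n i) := by
  rcases Nat.even_or_odd' n with ⟨m, hm | hm⟩
  · obtain ⟨l, rfl⟩ : ∃ l, m = l + 1 := ⟨m - 1, by omega⟩
    have h := G_node_even l i (by omega)
    rw [show n / 2 = l + 1 by omega, show n = 2 * l + 2 by omega]
    exact h
  · obtain ⟨l, rfl⟩ : ∃ l, m = l + 1 := ⟨m - 1, by omega⟩
    have h := G_node_odd l i (by omega)
    rw [show n / 2 = l + 1 by omega, show n = 2 * l + 3 by omega]
    exact h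

/-- The monic polynomial with the nodes as roots. -/
noncomputable def TP (n : ℕ) : ℝ[X] := ∏ i ∈ range (n / 2), (X - C (nd n i))

lemma TP_zero (n : ℕ) : 0 < (TP n).coeff 0 := by
  rw [coeff_zero_eq_eval_zero, TP, eval_prod]
  apply Finset.prod_pos
  intro i hi
  obtain ⟨a1, -, -⟩ := node_cos n i (mem_range.1 hi)
  simp only [eval_sub, eval_X, eval_C, nd]
  rw [zero_sub, neg_div, neg_neg]
  positivity

/-- the chain `T, Dt, G_0, G_1, …` -/
noncomputable def ch (n : ℕ) : ℕ → ℝ[X]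
  | 0 => TP n
  | 1 => pol (n / 2) (dc n)
  | (j + 2) => pol (n / 2) (gc n j)

lemma ratio_lt (n j : ℕ) (hn : 2 ≤ n) (hj : j ≤ n / 2) :
    dc n 1 * gc n j 0 < dc n 0 * gc n j 1 := by
  obtain ⟨m, hm⟩ : ∃ m, n = m + 1 + j := ⟨n - 1 - j, by omega⟩
  obtain ⟨q, hq⟩ : ∃ q, n = q + 2 := ⟨n - 2, by omega⟩
  simp only [gc, dc]
  rw [Nat.sub_zero, Nat.choose_one_right, Nat.choose_zero_right, show n - j = m + 1 by omega,
    show n - 1 - j = m by omega, show n - 1 = q + 1 by omega, cat_succ_eq m,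
    show n = q + 1 + 1 by omega, cb_rec (q + 1)]
  have c1 := cat_pos m
  have c2 : (0 : ℝ) < Nat.centralBinom (q + 1) := by exact_mod_cast Nat.centralBinom_pos _
  have hmq : (m : ℝ) ≤ q + 1 := by
    have : m ≤ q + 1 := by omega
    exact_mod_cast this
  have key : 2 * (2 * (m : ℝ) + 1) / (m + 2) < 2 * (2 * ((q + 1 : ℕ) : ℝ) + 1) / (((q + 1 : ℕ) : ℝ) + 1) := by
    rw [div_lt_div_iff₀ (by positivity) (by positivity)]
    push_cast
    nlinarith
  have pp : (0 : ℝ) < Nat.centralBinom (q + 1) * ((q + 1 : ℕ) : ℝ) * catalan m := by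
    positivity
  calc (Nat.centralBinom (q + 1) : ℝ) * ((q + 1 : ℕ) : ℝ) *
        (2 * (2 * (m : ℝ) + 1) / (m + 2) * catalan m * ((1 : ℕ) : ℝ))
      = 2 * (2 * (m : ℝ) + 1) / (m + 2) *
        (Nat.centralBinom (q + 1) * ((q + 1 : ℕ) : ℝ) * catalan m) := by push_cast; ring
    _ < 2 * (2 * ((q + 1 : ℕ) : ℝ) + 1) / (((q + 1 : ℕ) : ℝ) + 1) *
        (Nat.centralBinom (q + 1) * ((q + 1 : ℕ) : ℝ) * catalan m) :=
        mul_lt_mul_of_pos_right key pp
    _ = _ := by push_cast; ring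

open Filter Topology in
lemma cr_T (n : ℕ) (hn : 2 ≤ n) (y : ℂ) (hy : 0 < y.im) (j : ℕ) (hj : j ≤ n / 2) :
    0 < cr (aeval y (TP n)) (aeval y (pol (n / 2) (gc n j))) := by
  have hN : 0 < n / 2 := by omega
  -- the two applications of the node lemma
  have b : ∀ y : ℂ, 0 < y.im → 0 < cr (aeval y (TP n)) (aeval y (pol (n / 2) (dc n))) :=
    fun y hy => node (n / 2) hN (nd n) (fun i j hij hj => nd_anti n i j hij hj) _
      (pol_natDegree_le _ _) (fun i hi => D_node n i hn hi) y hy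
  have a : ∀ y : ℂ, 0 < y.im →
      0 < cr (aeval y (TP n)) (aeval y (pol (n / 2) (gc n (n / 2)))) :=
    fun y hy => node (n / 2) hN (nd n) (fun i j hij hj => nd_anti n i j hij hj) _
      (pol_natDegree_le _ _) (fun i hi => G_node n i hn hi) y hy
  have him : ∀ t : ℝ, 0 < t → 0 < ((t : ℂ) * Complex.I).im := by
    intro t ht; simpa using ht
  -- slope of `T` at `0`
  have wTD : 0 ≤ (TP n).coeff 0 * (pol (n / 2) (dc n)).coeff 1 -
      (TP n).coeff 1 * (pol (n / 2) (dc n)).coeff 0 := by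
    apply ge_of_tendsto (base_tendsto (TP n) (pol (n / 2) (dc n)))
    filter_upwards [self_mem_nhdsWithin] with t ht
    exact mul_nonneg (inv_nonneg.2 (le_of_lt ht)) (b _ (him t ht)).le
  have wTG : ∀ j ≤ n / 2, 0 < (TP n).coeff 0 * (pol (n / 2) (gc n j)).coeff 1 -
      (TP n).coeff 1 * (pol (n / 2) (gc n j)).coeff 0 := by
    intro j hj
    rw [pol_coeff _ _ 1 (by omega), pol_coeff _ _ 0 (by omega)] at wTD ⊢
    have h1 := ratio_lt n j hn hj
    have h2 := dc_pos n 0 (by omega)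
    have h3 := gc_pos n j 0 (by omega)
    have h4 := TP_zero n
    have h5 : 0 < dc n 0 * ((TP n).coeff 0 * gc n j 1 - (TP n).coeff 1 * gc n j 0) := by
      have e1 := mul_nonneg wTD h3.le
      have e2 := mul_pos h4 (sub_pos.2 h1)
      nlinarith
    exact (pos_iff_pos_of_mul_pos h5).1 h2
  have hev : ∀ k ∈ Finset.Icc 1 (n / 2 + 2), ∀ᶠ t : ℝ in 𝓝[>] 0,
      0 < cr (aeval ((t : ℂ) * Complex.I) (ch n 0)) (aeval ((t : ℂ) * Complex.I) (ch n k)) := by
    intro k hk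
    rw [Finset.mem_Icc] at hk
    match k, hk with
    | 1, _ =>
      filter_upwards [self_mem_nhdsWithin] with t ht
      exact b _ (him t ht)
    | (j + 2), hk =>
      have h1 := (base_tendsto (TP n) (pol (n / 2) (gc n j))).eventually
        (lt_mem_nhds (wTG j (by omega)))
      filter_upwards [h1, self_mem_nhdsWithin] with t h1 ht
      exact (pos_iff_pos_of_mul_pos h1).1 (inv_pos.2 ht)
  have hall := (Filter.eventually_all_finset (Finset.Icc 1 (n / 2 + 2))).2 hev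
  obtain ⟨t, ht1, ht2⟩ := (hall.and (self_mem_nhdsWithin : ∀ᶠ t : ℝ in 𝓝[>] 0, t ∈ Set.Ioi 0)).exists
  have res := chain (n / 2 + 2) (fun k y => aeval y (ch n k))
    (fun k => by
      have : (fun y : ℂ => aeval y (ch n k)) =
          fun y => ((ch n k).map (algebraMap ℝ ℂ)).eval y := by
        ext y; rw [eval_map_algebraMap]
      rw [this]; exact Polynomial.continuous _)
    (fun k hk y hy => by
      match k, hk with
      | 0, _ => exact b y hy
      | 1, _ => exact cr_D n hn y hy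
      | (j + 2), hk => exact cr_G n j (by omega) y hy)
    (fun y hy => a y hy)
    ((t : ℂ) * Complex.I) (him t ht2)
    (fun k h1 h2 => ht1 k (Finset.mem_Icc.2 ⟨h1, h2⟩))
  exact res y hy (j + 2) (by omega) (by omega)

/-- Nonnegative combinations of the `G_j` have no zeros off the real axis. -/
lemma comb_ne (n : ℕ) (hn : 2 ≤ n) (γ : ℕ → ℝ) (h0 : ∀ j ≤ n / 2, 0 ≤ γ j)
    (h1 : ∃ j ≤ n / 2, γ j ≠ 0) (y : ℂ) (hy : y.im ≠ 0) :
    aeval y (∑ j ∈ range (n / 2 + 1), C (γ j) * pol (n / 2) (gc n j)) ≠ 0 := by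
  have pos : ∀ y : ℂ, 0 < y.im →
      aeval y (∑ j ∈ range (n / 2 + 1), C (γ j) * pol (n / 2) (gc n j)) ≠ 0 := by
    intro y hy h
    have e : cr (aeval y (TP n))
        (aeval y (∑ j ∈ range (n / 2 + 1), C (γ j) * pol (n / 2) (gc n j))) =
        ∑ j ∈ range (n / 2 + 1), γ j *
          cr (aeval y (TP n)) (aeval y (pol (n / 2) (gc n j))) := by
      rw [map_sum]
      simp only [cr, Complex.re_sum, Complex.im_sum, Finset.mul_sum]
      rw [← Finset.sum_sub_distrib]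
      apply Finset.sum_congr rfl; intro j _
      simp
      ring
    have p : 0 < ∑ j ∈ range (n / 2 + 1), γ j *
          cr (aeval y (TP n)) (aeval y (pol (n / 2) (gc n j))) := by
      obtain ⟨j, hj, hj'⟩ := h1
      apply Finset.sum_pos'
      · intro i hi
        have hi' : i ≤ n / 2 := Nat.lt_succ_iff.1 (mem_range.1 hi)
        exact mul_nonneg (h0 i hi') (cr_T n hn y hy i hi').le
      · exact ⟨j, mem_range.2 (by omega),
          mul_pos (lt_of_le_of_ne (h0 j hj) (Ne.symm hj')) (cr_T n hn y hy j hj)⟩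
    rw [← e, h] at p
    simp [cr] at p
  rcases lt_or_gt_of_ne hy with h | h
  · intro hz
    apply pos ((starRingEnd ℂ) y) (by simpa using h)
    rw [aeval_conj, hz, map_zero]
  · exact pos y h

end Pool.Agent.H161
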