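import Mathlib

/-! Trigonometric expansions (Legendre and Gegenbauer type) and their signs at the nodes. -/

namespace Pool.Agent.H161
open Finset Real

/-! ### Catalan numbers -/

lemma cat_pos (k : ℕ) : (0 : ℝ) < catalan k := by
  have h := succ_mul_catalan_eq_centralBinom k
  have h2 := Nat.centralBinom_pos k
  have : 0 < catalan k := by
    rcases Nat.eq_zero_or_pos (catalan k) with h0 | h0
    · rw [h0] at h; omega
    · exact h0
  exact_mod_cast this

lemma cb_eq (k : ℕ) : (Nat.centralBinom k : ℝ) = ((k : ℝ) + 1) * catalan k := by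
  have h := succ_mul_catalan_eq_centralBinom k
  rw [← h]; push_cast; ring

lemma cb_succ (k : ℕ) : (Nat.centralBinom (k + 1) : ℝ) = 2 * (2 * (k : ℝ) + 1) * catalan k := by
  have h := Nat.succ_mul_centralBinom_succ k
  have h1 : ((k : ℝ) + 1) * (Nat.centralBinom (k + 1) : ℝ) =
      2 * (2 * (k : ℝ) + 1) * (Nat.centralBinom k : ℝ) := by exact_mod_cast h
  rw [cb_eq k] at h1
  have h2 : (k : ℝ) + 1 ≠ 0 := by positivity
  apply mul_left_cancel₀ h2
  rw [h1]; ring

lemma cat_rec (k : ℕ) : ((k : ℝ) + 2) * catalan (k + 1) = 2 * (2 * (k : ℝ) + 1) * catalan k := by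
  rw [← cb_succ, cb_eq (k + 1)]; push_cast; ring

lemma cat_succ_eq (k : ℕ) : (catalan (k + 1) : ℝ) = 2 * (2 * (k : ℝ) + 1) / (k + 2) * catalan k := by
  have h := cat_rec k
  have h2 : (k : ℝ) + 2 ≠ 0 := by positivity
  field_simp
  linarith

lemma cat_le (k : ℕ) : (catalan (k + 1) : ℝ) ≤ 4 * catalan k := by
  rw [cat_succ_eq]
  apply mul_le_mul_of_nonneg_right _ (cat_pos k).le
  rw [div_le_iff₀ (by positivity)]
  linarith

lemma cat_conv (m : ℕ) : (catalan (m + 1) : ℝ) =
    ∑ j ∈ range (m + 1), (catalan j : ℝ) * catalan (m - j) := by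
  rw [catalan_succ', Finset.Nat.sum_antidiagonal_eq_sum_range_succ_mk]
  push_cast
  rfl

/-- `κ₀ = -1/2`, `κ_{k+1} = C_k`. -/
noncomputable def kap : ℕ → ℝ
  | 0 => -1 / 2
  | (k + 1) => catalan k

lemma kap_succ (k : ℕ) : kap (k + 1) = catalan k := rfl

lemma kap_rec (k : ℕ) : kap (k + 1) = 2 * (2 * (k : ℝ) - 1) / (k + 1) * kap k := by
  cases k with
  | zero => norm_num [kap]
  | succ k =>
    rw [kap_succ, kap_succ, cat_succ_eq]
    push_cast
    congr 2 <;> ring

/-! ### A homogeneous three-term recurrence -/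

lemma hom_rec (u θ : ℕ → ℕ → ℝ) (x : ℝ) (h1 : ∀ k l, 2 * x * θ k l = θ k (l + 1) + θ (k + 1) l)
    (h2 : ∀ k l, θ (k + 1) (l + 1) = θ k l) (n : ℕ) (α β γ : ℝ)
    (b1 : α * u 0 (n + 2) = β * u 0 (n + 1)) (b2 : α * u (n + 2) 0 = β * u (n + 1) 0)
    (hh : ∀ k l, k + l = n → α * u (k + 1) (l + 1) = β * (u (k + 1) l + u k (l + 1)) - γ * u k l) :
    α * (∑ k ∈ range (n + 2 + 1), u k (n + 2 - k) * θ k (n + 2 - k)) =
      β * (2 * x * ∑ k ∈ range (n + 1 + 1), u k (n + 1 - k) * θ k (n + 1 - k)) -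
        γ * ∑ k ∈ range (n + 1), u k (n - k) * θ k (n - k) := by
  have s2 : ∑ k ∈ range (n + 2 + 1), u k (n + 2 - k) * θ k (n + 2 - k) =
      (∑ k ∈ range (n + 1), u (k + 1) (n - k + 1) * θ (k + 1) (n - k + 1)) +
        u 0 (n + 2) * θ 0 (n + 2) + u (n + 2) 0 * θ (n + 2) 0 := by
    rw [sum_range_succ, sum_range_succ', Nat.sub_self, Nat.sub_zero]
    congr 2
    apply Finset.sum_congr rfl; intro k hk
    have : k ≤ n := Nat.lt_succ_iff.1 (mem_range.1 hk)
    rw [show n + 2 - (k + 1) = n - k + 1 by omega]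
  have s1 : 2 * x * ∑ k ∈ range (n + 1 + 1), u k (n + 1 - k) * θ k (n + 1 - k) =
      ((∑ k ∈ range (n + 1), u (k + 1) (n - k) * θ (k + 1) (n - k + 1)) +
        u 0 (n + 1) * θ 0 (n + 2)) +
      ((∑ k ∈ range (n + 1), u k (n - k + 1) * θ (k + 1) (n - k + 1)) +
        u (n + 1) 0 * θ (n + 2) 0) := by
    have e : 2 * x * ∑ k ∈ range (n + 1 + 1), u k (n + 1 - k) * θ k (n + 1 - k) =
        (∑ k ∈ range (n + 1 + 1), u k (n + 1 - k) * θ k (n + 1 - k + 1)) +
        ∑ k ∈ range (n + 1 + 1), u k (n + 1 - k) * θ (k + 1) (n + 1 - k) := by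
      rw [Finset.mul_sum, ← Finset.sum_add_distrib]
      apply Finset.sum_congr rfl; intro k _
      have := h1 k (n + 1 - k)
      linear_combination u k (n + 1 - k) * this
    rw [e]
    congr 1
    · rw [sum_range_succ', Nat.sub_zero]
      congr 1
      apply Finset.sum_congr rfl; intro k hk
      have : k ≤ n := Nat.lt_succ_iff.1 (mem_range.1 hk)
      rw [show n + 1 - (k + 1) = n - k by omega]
    · rw [sum_range_succ, Nat.sub_self]
      congr 1
      apply Finset.sum_congr rfl; intro k hk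
      have : k ≤ n := Nat.lt_succ_iff.1 (mem_range.1 hk)
      rw [show n + 1 - k = n - k + 1 by omega]
  have s0 : ∑ k ∈ range (n + 1), u k (n - k) * θ k (n - k) =
      ∑ k ∈ range (n + 1), u k (n - k) * θ (k + 1) (n - k + 1) := by
    apply Finset.sum_congr rfl; intro k _
    rw [h2]
  rw [s2, s1, s0]
  have key : α * (∑ k ∈ range (n + 1), u (k + 1) (n - k + 1) * θ (k + 1) (n - k + 1)) =
      β * ((∑ k ∈ range (n + 1), u (k + 1) (n - k) * θ (k + 1) (n - k + 1)) +
        ∑ k ∈ range (n + 1), u k (n - k + 1) * θ (k + 1) (n - k + 1)) -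
      γ * ∑ k ∈ range (n + 1), u k (n - k) * θ (k + 1) (n - k + 1) := by
    rw [← Finset.sum_add_distrib, Finset.mul_sum, Finset.mul_sum, Finset.mul_sum,
      ← Finset.sum_sub_distrib]
    apply Finset.sum_congr rfl; intro k hk
    have hk' : k ≤ n := Nat.lt_succ_iff.1 (mem_range.1 hk)
    have := hh k (n - k) (by omega)
    linear_combination θ (k + 1) (n - k + 1) * this
  linear_combination key + θ 0 (n + 2) * b1 + θ (n + 2) 0 * b2

lemma theta1 (φ : ℝ) (k l : ℕ) : 2 * cos φ * cos (((l : ℝ) - k) * φ) =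
    cos ((((l + 1 : ℕ) : ℝ) - k) * φ) + cos (((l : ℝ) - ((k + 1 : ℕ) : ℝ)) * φ) := by
  push_cast
  rw [show ((l : ℝ) + 1 - k) * φ = (l - k) * φ + φ by ring,
    show ((l : ℝ) - (k + 1)) * φ = (l - k) * φ - φ by ring, cos_add, cos_sub]
  ring

lemma theta2 (φ : ℝ) (k l : ℕ) : cos ((((l + 1 : ℕ) : ℝ) - ((k + 1 : ℕ) : ℝ)) * φ) =
    cos (((l : ℝ) - k) * φ) := by
  push_cast; congr 1; ring

/-- Legendre-type sum. -/
noncomputable def AA (n : ℕ) (φ : ℝ) : ℝ :=
  ∑ k ∈ range (n + 1), ((Nat.centralBinom k : ℝ) * Nat.centralBinom (n - k)) *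
    cos ((((n - k : ℕ) : ℝ) - k) * φ)

/-- Gegenbauer-type sum. -/
noncomputable def YY (n : ℕ) (φ : ℝ) : ℝ :=
  ∑ k ∈ range (n + 1), (kap k * kap (n - k)) * cos ((((n - k : ℕ) : ℝ) - k) * φ)

lemma cb_rec (k : ℕ) : (Nat.centralBinom (k + 1) : ℝ) =
    2 * (2 * (k : ℝ) + 1) / (k + 1) * Nat.centralBinom k := by
  rw [cb_succ, cb_eq]
  field_simp

lemma AA_rec (n : ℕ) (φ : ℝ) : ((n : ℝ) + 2) * AA (n + 2) φ =
    (2 * (2 * n + 3)) * (2 * cos φ * AA (n + 1) φ) - (16 * (n + 1)) * AA n φ := by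
  apply hom_rec (fun k l => (Nat.centralBinom k : ℝ) * Nat.centralBinom l)
    (fun k l => cos (((l : ℝ) - k) * φ)) (cos φ) (fun k l => theta1 φ k l)
    (fun k l => theta2 φ k l) n
  · rw [cb_rec (n + 1)]
    push_cast
    field_simp
    ring
  · rw [cb_rec (n + 1)]
    push_cast
    field_simp
    ring
  · intro k l hkl
    rw [cb_rec k, cb_rec l, ← hkl]
    push_cast
    field_simp
    ring

lemma YY_rec (n : ℕ) (φ : ℝ) : ((n : ℝ) + 2) * YY (n + 2) φ =
    (2 * (2 * n + 1)) * (2 * cos φ * YY (n + 1) φ) - (16 * (n - 1)) * YY n φ := by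
  apply hom_rec (fun k l => kap k * kap l)
    (fun k l => cos (((l : ℝ) - k) * φ)) (cos φ) (fun k l => theta1 φ k l)
    (fun k l => theta2 φ k l) n
  · rw [kap_rec (n + 1)]
    push_cast
    field_simp
    ring
  · rw [kap_rec (n + 1)]
    push_cast
    field_simp
    ring
  · intro k l hkl
    rw [kap_rec k, kap_rec l, ← hkl]
    push_cast
    field_simp
    ring

/-! ### The polynomials -/

/-- `∑ binom(2(n-k), n-k) binom(n-k,k) y^k`. -/
noncomputable def Dr (n : ℕ) (y : ℝ) : ℝ :=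
  ∑ k ∈ range (n + 1), ((Nat.centralBinom (n - k) : ℝ) * (n - k).choose k) * y ^ k

lemma Dr_rec (n : ℕ) (y : ℝ) : ((n : ℝ) + 2) * Dr (n + 2) y =
    2 * (2 * n + 3) * Dr (n + 1) y + 4 * (n + 1) * y * Dr n y := by
  unfold Dr
  rw [sum_range_succ (n := n + 2), sum_range_succ' (n := n + 1), sum_range_succ' (n := n + 1),
    Nat.sub_self, show (Nat.choose 0 (n + 2)) = 0 by simp]
  have key : ((n : ℝ) + 2) * ∑ k ∈ range (n + 1),
      ((Nat.centralBinom (n + 2 - (k + 1)) : ℝ) * (n + 2 - (k + 1)).choose (k + 1)) * y ^ (k + 1) =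
      2 * (2 * n + 3) * ∑ k ∈ range (n + 1),
      ((Nat.centralBinom (n + 1 - (k + 1)) : ℝ) * (n + 1 - (k + 1)).choose (k + 1)) * y ^ (k + 1) +
      4 * (n + 1) * y * ∑ k ∈ range (n + 1),
        ((Nat.centralBinom (n - k) : ℝ) * (n - k).choose k) * y ^ k := by
    rw [Finset.mul_sum, Finset.mul_sum, Finset.mul_sum, ← Finset.sum_add_distrib]
    apply Finset.sum_congr rfl; intro k hk
    have hk' : k ≤ n := Nat.lt_succ_iff.1 (mem_range.1 hk)
    obtain ⟨M, rfl⟩ : ∃ M, n = M + k := ⟨n - k, by omega⟩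
    rw [show M + k + 2 - (k + 1) = M + 1 by omega, show M + k + 1 - (k + 1) = M by omega,
      show M + k - k = M by omega, Nat.choose_succ_succ M k, cb_rec M]
    have hc : ((M : ℝ) + 1) * (M.choose k : ℝ) =
        ((M.choose k : ℝ) + M.choose (k + 1)) * ((k : ℝ) + 1) := by
      have := Nat.add_one_mul_choose_eq M k
      rw [Nat.choose_succ_succ M k] at this
      exact_mod_cast this
    have hM : (M : ℝ) + 1 ≠ 0 := by positivity
    push_cast
    field_simp
    linear_combination (2 * (Nat.centralBinom M : ℝ) * y ^ k * y) * hc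
  have h0 : ((n : ℝ) + 2) * (Nat.centralBinom (n + 2) : ℝ) =
      2 * (2 * n + 3) * Nat.centralBinom (n + 1) := by
    rw [cb_rec (n + 1)]
    push_cast
    field_simp
    ring
  simp only [Nat.sub_zero, Nat.choose_zero_right, pow_zero, Nat.cast_one, mul_one, Nat.cast_zero,
    mul_zero, zero_mul, add_zero]
  linear_combination key + h0

/-- `∑ C_{M-k} binom(2M-k,k) y^k`. -/
noncomputable def Er (M : ℕ) (y : ℝ) : ℝ :=
  ∑ k ∈ range (M + 1), ((catalan (M - k) : ℝ) * (2 * M - k).choose k) * y ^ k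

/-- closed form of the coefficients of `Er` -/
lemma w_eq (k l : ℕ) : (catalan l : ℝ) * ((2 * l + k).choose k : ℝ) =
    (2 * l + k).factorial / (k.factorial * l.factorial * (l + 1).factorial) := by
  rw [Nat.cast_choose ℝ (show k ≤ 2 * l + k by omega), show 2 * l + k - k = 2 * l by omega]
  have h1 : ((l : ℝ) + 1) * catalan l = ((2 * l).choose l : ℝ) := by
    rw [← cb_eq, Nat.centralBinom_eq_two_mul_choose]
  rw [Nat.cast_choose ℝ (show l ≤ 2 * l by omega), show 2 * l - l = l by omega] at h1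
  have f : ∀ m : ℕ, (m.factorial : ℝ) ≠ 0 := fun m => Nat.cast_ne_zero.2 m.factorial_ne_zero
  have f1 := f l
  have f2 := f k
  have f3 := f (2 * l)
  have hl : (l : ℝ) + 1 ≠ 0 := by positivity
  have e : (catalan l : ℝ) = (2 * l).factorial / (l.factorial * l.factorial * ((l : ℝ) + 1)) := by
    field_simp at h1 ⊢
    linarith
  rw [e, Nat.factorial_succ l]
  push_cast
  field_simp

lemma Er_rec (M : ℕ) (y : ℝ) : ((M : ℝ) + 3) * Er (M + 2) y =
    (2 * M + 3) * (2 + y) * Er (M + 1) y - M * y ^ 2 * Er M y := by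
  have f : ∀ m : ℕ, (m.factorial : ℝ) ≠ 0 := fun m => Nat.cast_ne_zero.2 m.factorial_ne_zero
  set w : ℕ → ℕ → ℝ := fun M k => (catalan (M - k) : ℝ) * (2 * M - k).choose k with hw
  have hE : ∀ M, Er M y = ∑ k ∈ range (M + 1), w M k * y ^ k := fun M => rfl
  -- top coefficient out of range vanishes
  have wtop : w (M + 1) (M + 2) = 0 := by
    simp only [hw]
    rw [Nat.choose_eq_zero_of_lt (by omega : 2 * (M + 1) - (M + 2) < M + 2)]; simp
  have e2 : Er (M + 2) y = (∑ k ∈ range (M + 1), w (M + 2) (k + 2) * y ^ (k + 2)) +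
      w (M + 2) 1 * y + w (M + 2) 0 := by
    rw [hE, sum_range_succ', sum_range_succ']; simp
  have e1 : Er (M + 1) y = (∑ k ∈ range (M + 1), w (M + 1) (k + 2) * y ^ (k + 2)) +
      w (M + 1) 1 * y + w (M + 1) 0 := by
    have : Er (M + 1) y = ∑ k ∈ range (M + 2 + 1), w (M + 1) k * y ^ k := by
      rw [sum_range_succ, wtop, zero_mul, add_zero, hE]
    rw [this, sum_range_succ', sum_range_succ']; simp
  have e1' : y * Er (M + 1) y = (∑ k ∈ range (M + 1), w (M + 1) (k + 1) * y ^ (k + 2)) +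
      w (M + 1) 0 * y := by
    rw [hE, sum_range_succ', mul_add, Finset.mul_sum]
    congr 1
    · apply Finset.sum_congr rfl; intro k _; ring
    · simp; ring
  have e0 : y ^ 2 * Er M y = ∑ k ∈ range (M + 1), w M k * y ^ (k + 2) := by
    rw [hE, Finset.mul_sum]
    apply Finset.sum_congr rfl; intro k _; ring
  have key : ((M : ℝ) + 3) * ∑ k ∈ range (M + 1), w (M + 2) (k + 2) * y ^ (k + 2) =
      (2 * M + 3) * (2 * ∑ k ∈ range (M + 1), w (M + 1) (k + 2) * y ^ (k + 2)) +
      (2 * M + 3) * (∑ k ∈ range (M + 1), w (M + 1) (k + 1) * y ^ (k + 2)) -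
      M * ∑ k ∈ range (M + 1), w M k * y ^ (k + 2) := by
    simp only [Finset.mul_sum]
    rw [← Finset.sum_add_distrib, ← Finset.sum_sub_distrib]
    apply Finset.sum_congr rfl; intro k hk
    have hk' : k ≤ M := Nat.lt_succ_iff.1 (mem_range.1 hk)
    obtain ⟨l, rfl⟩ : ∃ l, M = l + k := ⟨M - k, by omega⟩
    have t2 : w (l + k + 2) (k + 2) = (2 * l + (k + 2)).factorial /
        ((k + 2).factorial * l.factorial * (l + 1).factorial) := by
      simp only [hw]
      rw [show l + k + 2 - (k + 2) = l by omega,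
        show 2 * (l + k + 2) - (k + 2) = 2 * l + (k + 2) by omega, w_eq]
    have t1 : w (l + k + 1) (k + 1) = (2 * l + (k + 1)).factorial /
        ((k + 1).factorial * l.factorial * (l + 1).factorial) := by
      simp only [hw]
      rw [show l + k + 1 - (k + 1) = l by omega,
        show 2 * (l + k + 1) - (k + 1) = 2 * l + (k + 1) by omega, w_eq]
    have t0 : w (l + k) k = (2 * l + k).factorial /
        (k.factorial * l.factorial * (l + 1).factorial) := by
      simp only [hw]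
      rw [show l + k - k = l by omega, show 2 * (l + k) - k = 2 * l + k by omega, w_eq]
    have t3 : w (l + k + 1) (k + 2) = l * (l + 1) * (2 * l + k).factorial /
        ((k + 2).factorial * l.factorial * (l + 1).factorial) := by
      simp only [hw]
      rcases Nat.eq_zero_or_pos l with rfl | hl
      · rw [Nat.choose_eq_zero_of_lt (by omega : 2 * (0 + k + 1) - (k + 2) < k + 2)]; simp
      · obtain ⟨m, rfl⟩ : ∃ m, l = m + 1 := ⟨l - 1, by omega⟩
        rw [show m + 1 + k + 1 - (k + 2) = m by omega,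
          show 2 * (m + 1 + k + 1) - (k + 2) = 2 * m + (k + 2) by omega, w_eq,
          show 2 * (m + 1) + k = 2 * m + (k + 2) by ring]
        have g1 := f (k + 2)
        have g2 := f m
        have g3 := f (m + 1)
        rw [Nat.factorial_succ (m + 1), Nat.factorial_succ m]
        push_cast
        field_simp
    rw [t2, t1, t0, t3, show 2 * l + (k + 2) = 2 * l + k + 1 + 1 by ring,
      show 2 * l + (k + 1) = 2 * l + k + 1 by ring, Nat.factorial_succ (2 * l + k + 1),
      Nat.factorial_succ (2 * l + k), Nat.factorial_succ (k + 1), Nat.factorial_succ k]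
    have g1 := f k
    have g2 := f l
    have g3 := f (l + 1)
    push_cast
    field_simp
    ring
  have k0 : ((M : ℝ) + 3) * w (M + 2) 0 = 2 * (2 * M + 3) * w (M + 1) 0 := by
    simp only [hw]
    simp only [Nat.sub_zero, Nat.choose_zero_right, Nat.cast_one, mul_one]
    have := cat_rec (M + 1)
    push_cast at this
    linear_combination this
  have k1 : ((M : ℝ) + 3) * w (M + 2) 1 = (2 * M + 3) * (2 * w (M + 1) 1 + w (M + 1) 0) := by
    simp only [hw]
    simp only [Nat.sub_zero, Nat.choose_zero_right, Nat.cast_one, mul_one, Nat.choose_one_right]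
    rw [show M + 2 - 1 = M + 1 by omega, show M + 1 - 1 = M by omega,
      show 2 * (M + 2) - 1 = 2 * M + 3 by omega, show 2 * (M + 1) - 1 = 2 * M + 1 by omega,
      cat_succ_eq M]
    push_cast
    field_simp
    ring
  rw [show (2 * (M : ℝ) + 3) * (2 + y) * Er (M + 1) y =
    (2 * M + 3) * (2 * Er (M + 1) y) + (2 * M + 3) * (y * Er (M + 1) y) by ring, e1',
    show (M : ℝ) * y ^ 2 * Er M y = M * (y ^ 2 * Er M y) by ring, e0, e2, e1]
  linear_combination key + k0 + y * k1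

lemma AA_eq (φ : ℝ) (hx : cos φ ≠ 0) : ∀ n : ℕ,
    (2 * cos φ) ^ n * Dr n (-1 / cos φ ^ 2) = AA n φ ∧
    (2 * cos φ) ^ (n + 1) * Dr (n + 1) (-1 / cos φ ^ 2) = AA (n + 1) φ := by
  intro n
  induction n with
  | zero =>
    constructor
    · simp [Dr, AA]
    · simp [Dr, AA, sum_range_succ, Nat.centralBinom]
      ring
  | succ n ih =>
    refine ⟨ih.2, ?_⟩
    have h1 := AA_rec n φ
    have h2 := Dr_rec n (-1 / cos φ ^ 2)
    rw [← ih.1, ← ih.2] at h1
    have hn : (n : ℝ) + 2 ≠ 0 := by positivity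
    apply mul_left_cancel₀ hn
    rw [show n + 1 + 1 = n + 2 by ring, h1, mul_left_comm, h2]
    field_simp
    ring

/-- `EE M = s^{M+1} Er M (-1/s)`. -/
lemma EE_eq (φ s : ℝ) (hs : s ≠ 0) (hφ : cos φ = 2 * s - 1) : ∀ M : ℕ,
    2 * 4 ^ (M + 1) * (s ^ (M + 2) * Er (M + 1) (-1 / s)) = - YY (M + 2) φ ∧
    2 * 4 ^ (M + 2) * (s ^ (M + 3) * Er (M + 2) (-1 / s)) = - YY (M + 3) φ := by
  have c1 : catalan 1 = 1 := by simp
  have y2 : YY 2 φ = 8 * s * (1 - s) := by
    have : cos (2 * φ) = 2 * cos φ ^ 2 - 1 := cos_two_mul φ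
    simp [YY, kap, sum_range_succ]
    rw [this, hφ]
    ring
  have E1 : Er 1 (-1 / s) = 1 - 1 / s := by
    simp [Er, sum_range_succ]
    ring
  intro M
  induction M with
  | zero =>
    have h1 : 2 * 4 ^ (0 + 1) * (s ^ (0 + 2) * Er (0 + 1) (-1 / s)) = - YY (0 + 2) φ := by
      rw [zero_add, zero_add, E1, y2]
      field_simp
      ring
    refine ⟨h1, ?_⟩
    have h2 := Er_rec 0 (-1 / s)
    have h3 := YY_rec 1 φ
    simp only [Nat.cast_zero, zero_mul, sub_zero, mul_zero, zero_add, Nat.cast_one, sub_self] at h2 h3 h1 ⊢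
    rw [y2, hφ] at h3
    rw [E1] at h2
    have h4 : Er 2 (-1 / s) = (2 + -1 / s) * (1 - 1 / s) := by linarith
    rw [h4]
    have h5 : YY 3 φ = 4 * (2 * s - 1) * (8 * s * (1 - s)) := by
      have : YY (1 + 2) φ = YY 3 φ := rfl
      rw [this] at h3
      linarith
    rw [h5]
    field_simp
    ring
  | succ M ih =>
    refine ⟨ih.2, ?_⟩
    have h1 := YY_rec (M + 2) φ
    have h2 := Er_rec (M + 1) (-1 / s)
    rw [show M + 2 + 1 = M + 3 by ring, hφ] at h1
    rw [show (M + 1 + 1) = M + 2 by ring] at h2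
    push_cast at h1 h2
    have hn : (M : ℝ) + 4 ≠ 0 := by positivity
    apply mul_left_cancel₀ hn
    rw [show M + 1 + 2 = M + 3 by ring, show M + 1 + 3 = M + 2 + 2 by ring]
    have i1 := ih.1
    have i2 := ih.2
    have e : ((M : ℝ) + 4) * (2 * 4 ^ (M + 3) * (s ^ (M + 2 + 2) * Er (M + 3) (-1 / s))) =
        4 * (2 * M + 5) * (2 * s - 1) * (2 * 4 ^ (M + 2) * (s ^ (M + 3) * Er (M + 2) (-1 / s)))
        - 16 * (M + 1) * (2 * 4 ^ (M + 1) * (s ^ (M + 2) * Er (M + 1) (-1 / s))) := by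
      have h2' : ((M : ℝ) + 4) * Er (M + 3) (-1 / s) =
          (2 * (M + 1) + 3) * (2 + -1 / s) * Er (M + 2) (-1 / s) -
          (M + 1) * (-1 / s) ^ 2 * Er (M + 1) (-1 / s) := by
        rw [← h2]; ring
      have : ((M : ℝ) + 4) * (2 * 4 ^ (M + 3) * (s ^ (M + 2 + 2) * Er (M + 3) (-1 / s))) =
        2 * 4 ^ (M + 3) * s ^ (M + 2 + 2) * (((M : ℝ) + 4) * Er (M + 3) (-1 / s)) := by ring
      rw [this, h2']
      field_simp
      ring
    rw [e, i1, i2]
    linear_combination h1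

end Pool.Agent.H161
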